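import Pool.Agent.H79.SR.Main

namespace Pool.Agent.H79.SR

open Finset SimpleGraph Pool.Agent.Helper539

universe u

section

variable {V : Type u} [Fintype V] [DecidableEq V] (G : SimpleGraph V) [DecidableRel G.Adj]
  (B : Finset V)

/-- the leaves at the vertices of `B`. -/
noncomputable def leaves : Finset V := by
  classical
  exact univ.filter (fun v => v ∉ B ∧ G.degree v = 1 ∧ ∃ u ∈ B, G.Adj v u)

/-- the neighbour in `B`. -/
noncomputable def nbr (v : V) : V := by
  classical
  exact if h : ∃ u ∈ B, G.Adj v u then h.choose else v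

/-- the other vertices with a neighbour in `B`. -/
noncomputable def rest : Finset V := by
  classical
  exact univ.filter (fun v => v ∉ B ∧ v ∉ leaves G B ∧ ∃ u ∈ B, G.Adj u v)

theorem mem_leaves {v : V} : v ∈ leaves G B ↔ v ∉ B ∧ G.degree v = 1 ∧ ∃ u ∈ B, G.Adj v u := by
  simp [leaves]

theorem mem_rest {v : V} : v ∈ rest G B ↔ v ∉ B ∧ v ∉ leaves G B ∧ ∃ u ∈ B, G.Adj u v := by
  simp [rest]

theorem nbr_spec {v : V} (h : ∃ u ∈ B, G.Adj v u) : nbr G B v ∈ B ∧ G.Adj v (nbr G B v) := by
  have h1 : nbr G B v = h.choose := by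
    simp only [nbr]
    rw [dif_pos h]
  rw [h1]
  exact h.choose_spec

theorem nbr_unique {v : V} (hv : v ∈ leaves G B) : ∀ w, G.Adj v w → w = nbr G B v := by
  rw [mem_leaves] at hv
  obtain ⟨_, h1, h2⟩ := hv
  intro w hw
  have h3 := (nbr_spec G B h2).2
  rw [← SimpleGraph.card_neighborFinset_eq_degree, card_eq_one] at h1
  obtain ⟨x, hx⟩ := h1
  have h4 : w ∈ G.neighborFinset v := by rw [SimpleGraph.mem_neighborFinset]; exact hw
  have h5 : nbr G B v ∈ G.neighborFinset v := by rw [SimpleGraph.mem_neighborFinset]; exact h3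
  rw [hx, mem_singleton] at h4 h5
  rw [h4, h5]

theorem leaves_at_le (u : V) : ((leaves G B).filter (fun v => nbr G B v = u)).card ≤
    G.degree u := by
  rw [← SimpleGraph.card_neighborFinset_eq_degree]
  apply card_le_card
  intro v hv
  rw [mem_filter] at hv
  rw [SimpleGraph.mem_neighborFinset]
  have h1 := (mem_leaves G B).1 hv.1
  have h2 := (nbr_spec G B h1.2.2).2
  rw [hv.2] at h2
  exact h2.symm

theorem two_edges : ∑ v, G.degree v = 2 * G.edgeSet.ncard := by
  rw [G.sum_degrees_eq_twice_card_edges, ← Set.ncard_coe_finset]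
  simp

theorem disj_leaves_rest : Disjoint (leaves G B) (rest G B) := by
  rw [Finset.disjoint_left]
  intro v hv hv'
  exact ((mem_rest G B).1 hv').2.1 hv

/-- the number of edges at the leaves and the other neighbours of `B`. -/
theorem count (hiso : ∀ v, 1 ≤ G.degree v) :
    2 * (leaves G B).card + 3 * (rest G B).card ≤ 2 * G.edgeSet.ncard := by
  have h1 : (leaves G B).card + (rest G B).card ≤ ∑ v ∈ B, G.degree v := by
    rw [← card_union_of_disjoint (disj_leaves_rest G B)]
    calc (leaves G B ∪ rest G B).card ≤ (B.biUnion (fun v => G.neighborFinset v)).card := by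
          apply card_le_card
          intro v hv
          rw [mem_biUnion]
          rcases mem_union.1 hv with h | h
          · obtain ⟨u, hu, huv⟩ := ((mem_leaves G B).1 h).2.2
            exact ⟨u, hu, by rw [SimpleGraph.mem_neighborFinset]; exact huv.symm⟩
          · obtain ⟨u, hu, huv⟩ := ((mem_rest G B).1 h).2.2
            exact ⟨u, hu, by rw [SimpleGraph.mem_neighborFinset]; exact huv⟩
      _ ≤ ∑ v ∈ B, (G.neighborFinset v).card := card_biUnion_le
      _ = ∑ v ∈ B, G.degree v := by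
          apply Finset.sum_congr rfl
          intro v _
          exact G.card_neighborFinset_eq_degree v
  have h2 : (leaves G B).card ≤ ∑ v ∈ leaves G B, G.degree v := by
    calc (leaves G B).card = ∑ v ∈ leaves G B, 1 := by simp
      _ ≤ _ := Finset.sum_le_sum (fun v _ => hiso v)
  have h3 : 2 * (rest G B).card ≤ ∑ v ∈ rest G B, G.degree v := by
    calc 2 * (rest G B).card = ∑ v ∈ rest G B, 2 := by simp [mul_comm]
      _ ≤ _ := Finset.sum_le_sum (fun v hv => by
          rw [mem_rest] at hv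
          obtain ⟨h1, h2, u, hu, huv⟩ := hv
          have h3 := hiso v
          have h4 : G.degree v ≠ 1 := fun h => h2 ((mem_leaves G B).2 ⟨h1, h, u, hu, huv.symm⟩)
          omega)
  have hd1 : Disjoint B (leaves G B) := by
    rw [Finset.disjoint_left]
    intro v hv hv'
    exact ((mem_leaves G B).1 hv').1 hv
  have hd2 : Disjoint (B ∪ leaves G B) (rest G B) := by
    rw [Finset.disjoint_left]
    intro v hv hv'
    rcases mem_union.1 hv with h | h
    · exact ((mem_rest G B).1 hv').1 h
    · exact ((mem_rest G B).1 hv').2.1 h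
  have h4 : ∑ v ∈ B, G.degree v + ∑ v ∈ leaves G B, G.degree v + ∑ v ∈ rest G B, G.degree v ≤
      ∑ v, G.degree v := by
    rw [← Finset.sum_union hd1, ← Finset.sum_union hd2]
    exact Finset.sum_le_sum_of_subset (subset_univ _)
  rw [two_edges] at h4
  omega

end

/-- the basic upper bound, in terms of the vertices of large degree. -/
theorem basic (δ : ℝ) (hδ : 0 < δ) : ∃ a : ℕ, 0 < a ∧ ∃ ε : ℝ, 0 < ε ∧ ε ≤ 1 / a ∧
    ∀ (V : Type u) [Fintype V] [DecidableEq V] (G : SimpleGraph V) [DecidableRel G.Adj],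
      G.edgeSet.Nonempty → (∀ v, ∃ w, G.Adj v w) →
      (∀ u v, G.Adj u v → min (G.degree u : ℝ) (G.degree v) ≤ ε * G.edgeSet.ncard) →
      ∀ B : Finset V, (∀ v, v ∈ B ↔ G.edgeSet.ncard < a * G.degree v) → ∀ l : ℕ,
      (∀ u ∈ B, ((leaves G B).filter (fun v => nbr G B v = u)).card ≤ l) →
      l ≤ G.edgeSet.ncard →
      ∃ t : ℕ, 1 ≤ t ∧ (sizeRamsey G (matchingGraph t) : ℝ) ≤
        t * ((l : ℝ) + (rest G B).card + δ * G.edgeSet.ncard) := by
  obtain ⟨w0, hw0⟩ := exists_nat_ge (8 / δ)
  obtain ⟨w, hwdef⟩ : ∃ w, w = w0 + 1 := ⟨_, rfl⟩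
  have hw : 1 ≤ w := by omega
  have hwR : 8 ≤ δ * w := by
    rw [div_le_iff₀ hδ] at hw0
    rw [hwdef]
    push_cast
    nlinarith
  obtain ⟨a, m₀, ha, h⟩ := main_bound.{u} w hw
  have haR : (0 : ℝ) < a := by exact_mod_cast ha
  refine ⟨a, ha, min (1 / a) (1 / (m₀ + 1)), by positivity, min_le_left _ _, ?_⟩
  intro V _ _ G _ hedge hiso hmin B hB l hl hlm
  have hm : 0 < G.edgeSet.ncard := (Set.ncard_pos (Set.toFinite _)).2 hedge
  have hmR : (0 : ℝ) < G.edgeSet.ncard := by exact_mod_cast hm
  have hiso' : ∀ v, 1 ≤ G.degree v := by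
    intro v
    exact (G.degree_pos_iff_exists_adj v).2 (hiso v)
  have hm0 : m₀ ≤ G.edgeSet.ncard := by
    obtain ⟨e, he⟩ := hedge
    induction e using Sym2.ind with
    | _ x y =>
      rw [SimpleGraph.mem_edgeSet] at he
      have h1 := hmin x y he
      have h2 : (1 : ℝ) ≤ min (G.degree x : ℝ) (G.degree y) := by
        rw [le_min_iff]
        exact ⟨by exact_mod_cast hiso' x, by exact_mod_cast hiso' y⟩
      have h3 : (1 : ℝ) ≤ 1 / (m₀ + 1) * G.edgeSet.ncard :=
        (h2.trans h1).trans (mul_le_mul_of_nonneg_right (min_le_right _ _) hmR.le)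
      rw [one_div, inv_mul_eq_div, le_div_iff₀ (by positivity), one_mul] at h3
      have h4 : ((m₀ + 1 : ℕ) : ℝ) ≤ (G.edgeSet.ncard : ℝ) := by push_cast; exact h3
      have h5 : m₀ + 1 ≤ G.edgeSet.ncard := by exact_mod_cast h4
      omega
  have hBc : B.card ≤ 2 * a := by
    have h1 : B.card * G.edgeSet.ncard ≤ (2 * a) * G.edgeSet.ncard := by
      calc B.card * G.edgeSet.ncard ≤ ∑ v ∈ B, a * G.degree v := by
            rw [← smul_eq_mul]
            apply Finset.card_nsmul_le_sum
            intro v hv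
            exact ((hB v).1 hv).le
        _ = a * ∑ v ∈ B, G.degree v := by rw [Finset.mul_sum]
        _ ≤ a * ∑ v, G.degree v :=
            Nat.mul_le_mul_left _ (Finset.sum_le_sum_of_subset (subset_univ _))
        _ = (2 * a) * G.edgeSet.ncard := by rw [two_edges]; ring
    exact Nat.le_of_mul_le_mul_right h1 hm
  obtain ⟨t, ht1, ht⟩ := h V G B (leaves G B) (nbr G B) l hm0 (card_le_two_mul G hiso) hBc
    (fun v hv => by
      rw [hB] at hv
      omega)
    (fun v hv => ((mem_leaves G B).1 hv).1)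
    (fun v hv => (nbr_spec G B ((mem_leaves G B).1 hv).2.2).1)
    (fun v hv => nbr_unique G B hv)
    (fun u hu v hv huv => by
      rw [hB] at hu hv
      have h1 := hmin u v huv
      have h2 : min (G.degree u : ℝ) (G.degree v) ≤ 1 / a * G.edgeSet.ncard :=
        h1.trans (mul_le_mul_of_nonneg_right (min_le_left _ _) hmR.le)
      have hu' : (G.edgeSet.ncard : ℝ) < a * G.degree u := by exact_mod_cast hu
      have hv' : (G.edgeSet.ncard : ℝ) < a * G.degree v := by exact_mod_cast hv
      have h3 : (G.edgeSet.ncard : ℝ) / a < min (G.degree u : ℝ) (G.degree v) := by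
        rw [lt_min_iff, div_lt_iff₀ haR, div_lt_iff₀ haR]
        exact ⟨by linarith, by linarith⟩
      rw [one_div, inv_mul_eq_div] at h2
      linarith)
    hl hlm
  refine ⟨t, ht1, ?_⟩
  have hwpos : (0 : ℝ) < w := by positivity
  have hrest : (univ.filter (fun v => v ∉ B ∧ v ∉ leaves G B ∧ ∃ u ∈ B, G.Adj u v)).card =
      (rest G B).card := by
    congr 1
  rw [hrest] at ht
  have ht' : (w : ℝ) * sizeRamsey G (matchingGraph t) ≤
      w * t * (l + (rest G B).card) + 8 * t * G.edgeSet.ncard := by exact_mod_cast ht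
  have h1 : (8 : ℝ) * t * G.edgeSet.ncard ≤ w * (t * (δ * G.edgeSet.ncard)) := by
    have h2 : (0 : ℝ) ≤ t * G.edgeSet.ncard := by positivity
    calc (8 : ℝ) * t * G.edgeSet.ncard = 8 * (t * G.edgeSet.ncard) := by ring
      _ ≤ (δ * w) * (t * G.edgeSet.ncard) := mul_le_mul_of_nonneg_right hwR h2
      _ = w * (t * (δ * G.edgeSet.ncard)) := by ring
  have h3 : (w : ℝ) * sizeRamsey G (matchingGraph t) ≤
      w * (t * ((l : ℝ) + (rest G B).card + δ * G.edgeSet.ncard)) := by
    calc (w : ℝ) * sizeRamsey G (matchingGraph t) ≤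
      w * t * (l + (rest G B).card) + 8 * t * G.edgeSet.ncard := ht'
      _ ≤ w * t * (l + (rest G B).card) + w * (t * (δ * G.edgeSet.ncard)) := by linarith
      _ = _ := by ring
  exact le_of_mul_le_mul_left h3 hwpos

end Pool.Agent.H79.SR
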