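import Mathlib

namespace Pool.Agent.H79.SR

open Finset SimpleGraph

universe u

/-- the total degree of a set is at most the number of edges plus the square of its size. -/
theorem sum_deg_le {V : Type u} [Fintype V] [DecidableEq V] (G : SimpleGraph V)
    [DecidableRel G.Adj] (L : Finset V) :
    ∑ w ∈ L, G.degree w ≤ G.edgeSet.ncard + L.card * L.card := by
  classical
  have h1 : ∀ w, G.degree w ≤ (G.neighborFinset w \ L).card + L.card := by
    intro w
    rw [← SimpleGraph.card_neighborFinset_eq_degree]
    have := card_sdiff_add_card (G.neighborFinset w) L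
    have h2 : (G.neighborFinset w).card ≤ (G.neighborFinset w ∪ L).card :=
      card_le_card subset_union_left
    omega
  have h2 : ∑ w ∈ L, (G.neighborFinset w \ L).card ≤ G.edgeSet.ncard := by
    rw [← card_sigma]
    have h3 : G.edgeSet.ncard = G.edgeFinset.card := by
      rw [← Set.ncard_coe_finset]
      simp
    rw [h3]
    refine card_le_card_of_injOn (fun p => s(p.1, p.2)) ?_ ?_
    · rintro ⟨w, x⟩ hp
      rw [mem_coe, mem_sigma, mem_sdiff, SimpleGraph.mem_neighborFinset] at hp
      rw [mem_coe, SimpleGraph.mem_edgeFinset, SimpleGraph.mem_edgeSet]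
      exact hp.2.1
    · rintro ⟨w, x⟩ hp ⟨w', x'⟩ hp' heq
      rw [mem_coe, mem_sigma, mem_sdiff, SimpleGraph.mem_neighborFinset] at hp hp'
      simp only [Sym2.eq_iff] at heq
      rcases heq with ⟨h4, h5⟩ | ⟨h4, h5⟩
      · subst h4; subst h5; rfl
      · exfalso
        apply hp'.2.2
        rw [← h4]
        exact hp.1
  calc ∑ w ∈ L, G.degree w ≤ ∑ w ∈ L, ((G.neighborFinset w \ L).card + L.card) :=
        Finset.sum_le_sum (fun w _ => h1 w)
    _ = ∑ w ∈ L, (G.neighborFinset w \ L).card + L.card * L.card := by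
        rw [Finset.sum_add_distrib, Finset.sum_const, smul_eq_mul]
    _ ≤ _ := Nat.add_le_add_right h2 _

/-- the sum of the numbers of neighbours of the classes, when two non-adjacent vertices `u`, `v`
are in a common class. -/
theorem sum_classes_le {V : Type u} [Fintype V] [DecidableEq V] (G : SimpleGraph V)
    [DecidableRel G.Adj] (L : Finset V) {k : ℕ} (κ : V → Fin k) (u v : V) (hu : u ∈ L)
    (hv : v ∈ L) (huv : u ≠ v) (hκ : κ u = κ v) :
    ∑ i, (univ.filter (fun x => ∃ w ∈ L, κ w = i ∧ G.Adj w x)).card +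
      (G.neighborFinset v ∩ G.neighborFinset u).card ≤ ∑ w ∈ L, G.degree w := by
  classical
  let P : V → Finset V := fun w =>
    if w = v then G.neighborFinset v \ G.neighborFinset u else G.neighborFinset w
  have h1 : ∀ i, (univ.filter (fun x => ∃ w ∈ L, κ w = i ∧ G.Adj w x)).card ≤
      ∑ w ∈ L.filter (fun w => κ w = i), (P w).card := by
    intro i
    refine le_trans (card_le_card ?_) card_biUnion_le
    intro x hx
    rw [mem_filter] at hx
    obtain ⟨-, w, hw, hwi, hwx⟩ := hx
    rw [mem_biUnion]
    by_cases hwv : w = v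
    · subst hwv
      by_cases hux : G.Adj u x
      · refine ⟨u, mem_filter.2 ⟨hu, hκ.trans hwi⟩, ?_⟩
        simp only [P, if_neg huv]
        rw [SimpleGraph.mem_neighborFinset]
        exact hux
      · refine ⟨w, mem_filter.2 ⟨hw, hwi⟩, ?_⟩
        simp only [P, if_pos]
        rw [mem_sdiff, SimpleGraph.mem_neighborFinset, SimpleGraph.mem_neighborFinset]
        exact ⟨hwx, hux⟩
    · refine ⟨w, mem_filter.2 ⟨hw, hwi⟩, ?_⟩
      simp only [P, if_neg hwv]
      rw [SimpleGraph.mem_neighborFinset]
      exact hwx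
  have h2 : ∑ i, (univ.filter (fun x => ∃ w ∈ L, κ w = i ∧ G.Adj w x)).card ≤
      ∑ w ∈ L, (P w).card := by
    rw [← Finset.sum_fiberwise L κ (fun w => (P w).card)]
    exact Finset.sum_le_sum (fun i _ => h1 i)
  have h3 : ∑ w ∈ L, G.degree w = ∑ w ∈ L, ((P w).card +
      if w = v then (G.neighborFinset v ∩ G.neighborFinset u).card else 0) := by
    apply Finset.sum_congr rfl
    intro w _
    by_cases hwv : w = v
    · subst hwv
      simp only [P, if_pos]
      rw [← SimpleGraph.card_neighborFinset_eq_degree]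
      exact (card_sdiff_add_card_inter _ _).symm
    · simp only [P, if_neg hwv]
      rw [SimpleGraph.card_neighborFinset_eq_degree, add_zero]
  rw [h3, Finset.sum_add_distrib, Finset.sum_ite_eq', if_pos hv]
  exact Nat.add_le_add_right h2 _

end Pool.Agent.H79.SR
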