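import Pool.Agent.H79.SR.Main3

namespace Pool.Agent.H79.SR

open Finset SimpleGraph Pool.Agent.Helper539

universe u

/-- the sequence of scales, for hosts with classes. -/
theorem exists_scales3 (v : ℕ) (hv : 1 ≤ v) : ∃ a m₀ : ℕ → ℕ, (∀ s, 0 < a s) ∧
    (∀ s, a s ≤ a (s + 1)) ∧ ∀ s, ∀ (V : Type u) [Fintype V] [DecidableEq V]
    (G : SimpleGraph V) [DecidableRel G.Adj] (B I : Finset V) (nm : V → Fin (2 * a s))
    (Nn : Fin (2 * a s) → ℕ), m₀ s ≤ G.edgeSet.ncard →
    Fintype.card V ≤ 2 * G.edgeSet.ncard →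
    Disjoint B I → B.card ≤ 2 * a s → I.card ≤ 2 * a (s + 1) →
    (∀ x, x ∉ B → x ∉ I → a (s + 1) * G.degree x ≤ G.edgeSet.ncard) →
    (∀ u ∈ B, ∀ v ∈ B, G.Adj u v → nm u ≠ nm v) →
    (∀ i, (univ.filter (fun x => ∃ u ∈ B, nm u = i ∧ G.Adj u x)).card ≤ Nn i) →
    ∑ i, Nn i ≤ 2 * G.edgeSet.ncard →
    ∃ t : ℕ, 1 ≤ t ∧ v * sizeRamsey G (matchingGraph t) ≤
      v * (t * ∑ i, Nn i) + (8 * t * G.edgeSet.ncard +
        3 * v * t * ∑ u ∈ I, G.degree u) := by
  have h : ∀ b : ℕ, ∃ a m₀ : ℕ, 1 ≤ b → (0 < a ∧ b ≤ 2 * a ∧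
    ∀ (V : Type u) [Fintype V] [DecidableEq V] (G : SimpleGraph V) [DecidableRel G.Adj]
    (B I : Finset V) (nm : V → Fin b) (Nn : Fin b → ℕ), m₀ ≤ G.edgeSet.ncard →
    Fintype.card V ≤ 2 * G.edgeSet.ncard →
    Disjoint B I → B.card ≤ b → I.card ≤ 2 * a →
    (∀ x, x ∉ B → x ∉ I → a * G.degree x ≤ G.edgeSet.ncard) →
    (∀ u ∈ B, ∀ v ∈ B, G.Adj u v → nm u ≠ nm v) →
    (∀ i, (univ.filter (fun x => ∃ u ∈ B, nm u = i ∧ G.Adj u x)).card ≤ Nn i) →
    ∑ i, Nn i ≤ 2 * G.edgeSet.ncard →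
    ∃ t : ℕ, 1 ≤ t ∧ v * sizeRamsey G (matchingGraph t) ≤
      v * (t * ∑ i, Nn i) + (8 * t * G.edgeSet.ncard +
        3 * v * t * ∑ u ∈ I, G.degree u)) := by
    intro b
    by_cases hb : 1 ≤ b
    · obtain ⟨a, m₀, h⟩ := main3.{u} v b hv hb
      exact ⟨a, m₀, fun _ => h⟩
    · exact ⟨1, 1, fun hb' => absurd hb' hb⟩
  choose f g hf using h
  let a : ℕ → ℕ := fun s => Nat.rec 1 (fun _ x => f (2 * x)) s
  have ha0 : a 0 = 1 := rfl
  have ha1 : ∀ s, a (s + 1) = f (2 * a s) := fun s => rfl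
  have hapos : ∀ s, 0 < a s := by
    intro s
    induction s with
    | zero => rw [ha0]; exact one_pos
    | succ s ih => rw [ha1]; exact (hf _ (by omega)).1
  refine ⟨a, fun s => g (2 * a s), hapos, ?_, ?_⟩
  · intro s
    rw [ha1]
    have := (hf (2 * a s) (by have := hapos s; omega)).2.1
    omega
  · intro s V _ _ G _ B I nm Nn h1 h2 h3 h4 h5 h6 h7 h8 h9
    exact (hf (2 * a s) (by have := hapos s; omega)).2.2 V G B I nm Nn h1 h2 h3 h4 h5 h6 h7 h8 h9

/-- for all graphs with many edges and all proper colourings of the vertices of large degree: the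
limit is at most the quotient (sum over the colours of the number of neighbours of the vertices of
large degree of this colour) / number of edges, up to `δ`. -/
theorem upper_col (δ : ℝ) (hδ : 0 < δ) : ∃ ε : ℝ, 0 < ε ∧ ∃ M : ℕ,
    ∀ (V : Type u) [Fintype V] [DecidableEq V] (G : SimpleGraph V) [DecidableRel G.Adj],
      M ≤ G.edgeSet.ncard → G.edgeSet.Nonempty → (∀ v, ∃ w, G.Adj v w) →
      ∀ (k : ℕ) (κ : V → Fin k) (F : Fin k → ℕ),
      (∀ u v, ε * G.edgeSet.ncard < (G.degree u : ℝ) → ε * G.edgeSet.ncard < (G.degree v : ℝ) →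
        G.Adj u v → κ u ≠ κ v) →
      (∀ i, ∀ B : Finset V, (∀ u ∈ B, ε * G.edgeSet.ncard < (G.degree u : ℝ)) →
        (univ.filter (fun x => ∃ u ∈ B, κ u = i ∧ G.Adj u x)).card ≤ F i) →
      ∃ t : ℕ, 1 ≤ t ∧ (sizeRamsey G (matchingGraph t) : ℝ) ≤
        t * ((∑ i, (F i : ℝ)) + δ * G.edgeSet.ncard) := by
  obtain ⟨v, hv1, hv2⟩ : ∃ v : ℕ, 1 ≤ v ∧ 9 ≤ δ * v := by
    obtain ⟨v, hv⟩ := exists_nat_gt (9 / δ)
    refine ⟨v + 1, by omega, ?_⟩
    rw [div_lt_iff₀ hδ] at hv
    push_cast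
    nlinarith
  obtain ⟨a, m₀, ha, hmono, hmain⟩ := exists_scales3.{u} v hv1
  obtain ⟨K, hK⟩ : ∃ K, K = 6 * v := ⟨_, rfl⟩
  obtain ⟨Λ, hΛ⟩ : ∃ Λ : ℕ, Λ = a K + ∑ s ∈ range K, m₀ s := ⟨_, rfl⟩
  have haK : 0 < a K := ha K
  have hΛpos : 0 < Λ := by omega
  have hΛR : (0 : ℝ) < Λ := by exact_mod_cast hΛpos
  refine ⟨1 / Λ, by positivity, Λ, ?_⟩
  intro V _ _ G _ hΛm hedge hiso k κ F hκ hF
  classical
  obtain ⟨m, hmdef⟩ : ∃ m, m = G.edgeSet.ncard := ⟨_, rfl⟩
  have hm : 0 < m := by rw [hmdef]; exact (Set.ncard_pos (Set.toFinite _)).2 hedge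
  have hmR : (0 : ℝ) < m := by exact_mod_cast hm
  have hiso' : ∀ x, 1 ≤ G.degree x := fun x => (G.degree_pos_iff_exists_adj x).2 (hiso x)
  have hsumdeg : ∑ x, G.degree x = 2 * m := by
    rw [G.sum_degrees_eq_twice_card_edges, hmdef, ← Set.ncard_coe_finset]
    simp
  have hVm : Fintype.card V ≤ 2 * m := by
    rw [← hsumdeg]
    calc Fintype.card V = ∑ _x : V, 1 := by simp
      _ ≤ ∑ x, G.degree x := Finset.sum_le_sum (fun x _ => hiso' x)
  rw [← hmdef] at hΛm hκ hF ⊢
  let B : ℕ → Finset V := fun s => univ.filter (fun x => m < a s * G.degree x)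
  have hmemB : ∀ s x, x ∈ B s ↔ m < a s * G.degree x := fun s x => by simp [B]
  have hBmono : ∀ s, B s ⊆ B (s + 1) := by
    intro s x hx
    rw [hmemB] at hx ⊢
    exact hx.trans_le (Nat.mul_le_mul_right _ (hmono s))
  have hBcard : ∀ s, (B s).card ≤ 2 * a s := by
    intro s
    have h1 : (B s).card * m ≤ (2 * a s) * m := by
      calc (B s).card * m ≤ ∑ x ∈ B s, a s * G.degree x := by
            rw [← smul_eq_mul]
            apply Finset.card_nsmul_le_sum
            intro x hx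
            rw [hmemB] at hx
            exact hx.le
        _ ≤ ∑ x, a s * G.degree x := Finset.sum_le_sum_of_subset (subset_univ _)
        _ = a s * (2 * m) := by rw [← Finset.mul_sum, hsumdeg]
        _ = (2 * a s) * m := by ring
    exact Nat.le_of_mul_le_mul_right h1 hm
  have htel : ∀ n, ∑ s ∈ range n, (∑ x ∈ B (s + 1) \ B s, G.degree x) +
      ∑ x ∈ B 0, G.degree x = ∑ x ∈ B n, G.degree x := by
    intro n
    induction n with
    | zero => simp
    | succ n ih =>
      rw [Finset.sum_range_succ, ← Finset.sum_sdiff (hBmono n), ← ih]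
      ring
  have htot : ∑ s ∈ range K, (∑ x ∈ B (s + 1) \ B s, G.degree x) ≤ 2 * m := by
    have h1 := htel K
    have h2 : ∑ x ∈ B K, G.degree x ≤ 2 * m := by
      rw [← hsumdeg]
      exact Finset.sum_le_sum_of_subset (subset_univ _)
    omega
  have hKpos : 0 < K := by omega
  obtain ⟨s, hsK, hs⟩ : ∃ s ∈ range K, K * ∑ x ∈ B (s + 1) \ B s, G.degree x ≤ 2 * m := by
    apply Finset.exists_le_of_sum_le (s := range K) ⟨0, by simpa using hKpos⟩
    rw [← Finset.mul_sum, Finset.sum_const, card_range, smul_eq_mul]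
    exact Nat.mul_le_mul_left _ htot
  have hmono' : ∀ n s, a s ≤ a (s + n) := by
    intro n s
    induction n with
    | zero => simp
    | succ n ih => exact ih.trans (hmono (s + n))
  have hsK' : s < K := by simpa using hsK
  have hasK : a s ≤ a K := by
    have h1 := hmono' (K - s) s
    have h2 : s + (K - s) = K := by omega
    rwa [h2] at h1
  have hm0s : m₀ s ≤ m := by
    have h1 : m₀ s ≤ ∑ s ∈ range K, m₀ s :=
      Finset.single_le_sum (f := m₀) (fun _ _ => Nat.zero_le _) hsK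
    omega
  have hlarge : ∀ u ∈ B s, 1 / (Λ : ℝ) * m < (G.degree u : ℝ) := by
    intro x hx
    rw [hmemB] at hx
    rw [one_div, inv_mul_eq_div, div_lt_iff₀ hΛR]
    have h6 : m < G.degree x * Λ := by
      refine hx.trans_le ?_
      rw [mul_comm]
      apply Nat.mul_le_mul_left
      omega
    exact_mod_cast h6
  -- the names of the classes
  obtain ⟨g, hg⟩ : ∃ g : Fin k → Fin (2 * a s), ∀ c ∈ (B s).image κ, ∀ c' ∈ (B s).image κ,
      g c = g c' → c = c' := by
    have h1 : ((B s).image κ).card ≤ 2 * a s := card_image_le.trans (hBcard s)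
    obtain ⟨f⟩ : Nonempty ((B s).image κ ↪ Fin (2 * a s)) :=
      Function.Embedding.nonempty_of_card_le (by
        rw [Fintype.card_coe, Fintype.card_fin]; exact h1)
    have h0 : 0 < 2 * a s := by have := ha s; omega
    refine ⟨fun c => if hc : c ∈ (B s).image κ then f ⟨c, hc⟩ else ⟨0, h0⟩, ?_⟩
    intro c hc c' hc' heq
    simp only [dif_pos hc, dif_pos hc'] at heq
    exact congrArg Subtype.val (f.injective heq)
  let FB : Fin k → ℕ := fun c => (univ.filter (fun x => ∃ u ∈ B s, κ u = c ∧ G.Adj u x)).card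
  let Nn : Fin (2 * a s) → ℕ := fun j => ∑ c ∈ (univ : Finset (Fin k)).filter (fun c => g c = j),
    FB c
  have hNsum : ∑ j, Nn j = ∑ c, FB c := by
    simp only [Nn]
    exact Finset.sum_fiberwise _ _ _
  have hFB : ∑ c, FB c ≤ 2 * m := by
    calc ∑ c, FB c ≤ ∑ c, ∑ u ∈ (B s).filter (fun u => κ u = c), G.degree u := by
          apply Finset.sum_le_sum
          intro c _
          calc FB c ≤ (((B s).filter (fun u => κ u = c)).biUnion
                (fun u => G.neighborFinset u)).card := by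
                apply card_le_card
                intro x hx
                rw [mem_filter] at hx
                obtain ⟨-, u, hu, huc, hux⟩ := hx
                rw [mem_biUnion]
                exact ⟨u, mem_filter.2 ⟨hu, huc⟩, by
                  rw [SimpleGraph.mem_neighborFinset]; exact hux⟩
            _ ≤ ∑ u ∈ (B s).filter (fun u => κ u = c), (G.neighborFinset u).card :=
                card_biUnion_le
            _ = ∑ u ∈ (B s).filter (fun u => κ u = c), G.degree u := by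
                apply Finset.sum_congr rfl
                intro u _
                exact SimpleGraph.card_neighborFinset_eq_degree G u
      _ = ∑ u ∈ B s, G.degree u := Finset.sum_fiberwise _ _ _
      _ ≤ ∑ u, G.degree u := Finset.sum_le_sum_of_subset (subset_univ _)
      _ = 2 * m := hsumdeg
  obtain ⟨t, ht1, ht⟩ := hmain s V G (B s) (B (s + 1) \ B s) (fun u => g (κ u)) Nn
    (by rw [← hmdef]; exact hm0s)
    (by rw [← hmdef]; exact hVm) disjoint_sdiff (hBcard s)
    ((card_le_card sdiff_subset).trans (hBcard (s + 1))) (by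
      intro x hx1 hx2
      have hx3 : x ∉ B (s + 1) := by
        intro hx3
        exact hx2 (mem_sdiff.2 ⟨hx3, hx1⟩)
      rw [hmemB] at hx3
      rw [← hmdef]
      omega)
    (by
      intro u hu w hw huw heq
      exact hκ u w (hlarge u hu) (hlarge w hw) huw
        (hg _ (mem_image_of_mem _ hu) _ (mem_image_of_mem _ hw) heq))
    (by
      intro j
      calc (univ.filter (fun x => ∃ u ∈ B s, g (κ u) = j ∧ G.Adj u x)).card
          ≤ (((univ : Finset (Fin k)).filter (fun c => g c = j)).biUnion (fun c =>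
              univ.filter (fun x => ∃ u ∈ B s, κ u = c ∧ G.Adj u x))).card := by
            apply card_le_card
            intro x hx
            rw [mem_filter] at hx
            obtain ⟨-, u, hu, huj, hux⟩ := hx
            rw [mem_biUnion]
            exact ⟨κ u, mem_filter.2 ⟨mem_univ _, huj⟩,
              mem_filter.2 ⟨mem_univ _, u, hu, rfl, hux⟩⟩
        _ ≤ Nn j := card_biUnion_le)
    (by rw [hNsum, ← hmdef]; exact hFB)
  rw [← hmdef, hNsum] at ht
  refine ⟨t, ht1, ?_⟩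
  have h3 : 3 * v * ∑ x ∈ B (s + 1) \ B s, G.degree x ≤ m := by
    rw [hK] at hs
    have : 6 * v * ∑ x ∈ B (s + 1) \ B s, G.degree x =
      2 * (3 * v * ∑ x ∈ B (s + 1) \ B s, G.degree x) := by ring
    omega
  have h4 : v * sizeRamsey G (matchingGraph t) ≤ v * (t * ∑ c, FB c) + 9 * t * m := by
    refine ht.trans ?_
    apply Nat.add_le_add_left
    have h5 : 3 * v * t * ∑ x ∈ B (s + 1) \ B s, G.degree x ≤ t * m := by
      calc 3 * v * t * ∑ x ∈ B (s + 1) \ B s, G.degree x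
          = t * (3 * v * ∑ x ∈ B (s + 1) \ B s, G.degree x) := by ring
        _ ≤ t * m := Nat.mul_le_mul_left _ h3
    have h6 : 8 * t * m + t * m = 9 * t * m := by ring
    omega
  have h5 : ∑ c, FB c ≤ ∑ c, F c := Finset.sum_le_sum (fun c _ => hF c (B s) hlarge)
  have h5R : (∑ c, (FB c : ℝ)) ≤ ∑ c, (F c : ℝ) := by exact_mod_cast h5
  have hvR : (0 : ℝ) < v := by
    have : 0 < v := by omega
    exact_mod_cast this
  have h6 : (v : ℝ) * sizeRamsey G (matchingGraph t) ≤
      v * (t * ∑ c, (FB c : ℝ)) + 9 * t * m := by exact_mod_cast h4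
  have ht0 : (0 : ℝ) ≤ t := Nat.cast_nonneg _
  have h7 : 9 * (t : ℝ) * m ≤ v * (t * (δ * m)) := by
    have : (9 : ℝ) * (t * m) ≤ (δ * v) * (t * m) :=
      mul_le_mul_of_nonneg_right hv2 (by positivity)
    linarith
  have h8 : (v : ℝ) * sizeRamsey G (matchingGraph t) ≤
      v * (t * ((∑ c, (F c : ℝ)) + δ * m)) := by
    have h9 : (v : ℝ) * (t * ∑ c, (FB c : ℝ)) ≤ v * (t * (∑ c, (F c : ℝ))) :=
      mul_le_mul_of_nonneg_left (mul_le_mul_of_nonneg_left h5R ht0) hvR.le
    calc (v : ℝ) * sizeRamsey G (matchingGraph t) ≤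
        v * (t * ∑ c, (FB c : ℝ)) + 9 * t * m := h6
      _ ≤ v * (t * (∑ c, (F c : ℝ))) + v * (t * (δ * m)) := add_le_add h9 h7
      _ = _ := by ring
  exact le_of_mul_le_mul_left h8 hvR

end Pool.Agent.H79.SR
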