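import Pool.Agent.H79.SR.Multi
import Pool.Agent.H79.SR.Multi3
import Pool.Agent.H79.SR.Cor3

/-!
# Size Ramsey numbers of a graph versus large matchings: an upper bound and necessary conditions

Question 2 asks for all sequences `(G n)` for which the limit ratios `ρ n` of
`r̂(G n, t K₂) / (t |E(G n)|)` tend to `1`.  For all sequences of graphs without isolated vertices:

* If `|E(G n)| → ∞`, then for every `δ > 0` there is `ε > 0` such that for all large `n` and every
  proper colouring of the vertices of degree `> ε |E(G n)|`, `ρ n` is at most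
  `(∑ over the colours of the number of neighbours of the vertices of this colour) / |E(G n)| + δ`.
* If `ρ n → 1`, then for every `δ > 0` there is `ε > 0` such that for all large `n` the vertices
  of degree `> ε |E(G n)|` (at most `2 / ε` many) have total degree at least
  `(1 - δ) |E(G n)|`.
* If `|E(G n)| → ∞` and `ρ n → 1`, then any two non-adjacent vertices of `G n` have only
  `o(|E(G n)|)` common neighbours.
-/

namespace Pool.Agent.Results.MP_1cfd87_co.ColourBound

open SimpleGraph Filter Topology Pool.Agent.Helper539 Pool.Agent.H79.SR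

universe u

theorem result (V : ℕ → Type u) [∀ n, Fintype (V n)] (G : ∀ n, SimpleGraph (V n))
    [∀ n, DecidableRel (G n).Adj]
    (hedge : ∀ n, (G n).edgeSet.Nonempty)
    (hiso : ∀ n v, ∃ w, (G n).Adj v w) :
    ∃ ρ : ℕ → ℝ,
      (∀ n, Tendsto (fun t : ℕ =>
        (sizeRamsey (G n) (matchingGraph t) : ℝ) / (t * (G n).edgeSet.ncard))
        atTop (𝓝 (ρ n))) ∧
      (Tendsto (fun n => (G n).edgeSet.ncard) atTop atTop →
        ∀ δ : ℝ, 0 < δ → ∃ ε : ℝ, 0 < ε ∧ ∀ᶠ n in atTop, ∀ (k : ℕ) (κ : V n → Fin k),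
        (∀ u v, ε * (G n).edgeSet.ncard < ((G n).degree u : ℝ) →
          ε * (G n).edgeSet.ncard < ((G n).degree v : ℝ) → (G n).Adj u v → κ u ≠ κ v) →
        ρ n ≤ (∑ i, ({x | ∃ u, ε * (G n).edgeSet.ncard < ((G n).degree u : ℝ) ∧ κ u = i ∧
          (G n).Adj u x}.ncard : ℝ)) / (G n).edgeSet.ncard + δ) ∧
      (Tendsto ρ atTop (𝓝 1) → ∀ δ : ℝ, 0 < δ → ∃ ε : ℝ, 0 < ε ∧ ∀ᶠ n in atTop,
        ((Finset.univ.filter (fun v => ε * (G n).edgeSet.ncard < ((G n).degree v : ℝ))).card : ℝ)
          ≤ 2 / ε ∧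
        (1 - δ) * (G n).edgeSet.ncard ≤ ∑ v ∈ Finset.univ.filter
          (fun v => ε * (G n).edgeSet.ncard < ((G n).degree v : ℝ)), ((G n).degree v : ℝ)) ∧
      (Tendsto (fun n => (G n).edgeSet.ncard) atTop atTop → Tendsto ρ atTop (𝓝 1) →
        ∀ δ : ℝ, 0 < δ → ∀ᶠ n in atTop, ∀ u v, u ≠ v → ¬ (G n).Adj u v →
          (((G n).neighborSet u ∩ (G n).neighborSet v).ncard : ℝ) ≤
            δ * (G n).edgeSet.ncard) := by
  classical
  choose ρ hρ hρ0 hρle using fun n => exists_limit (G n)
  have hm : ∀ n, (0 : ℝ) < (G n).edgeSet.ncard := by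
    intro n
    have : 0 < (G n).edgeSet.ncard := (Set.ncard_pos (Set.toFinite _)).2 (hedge n)
    exact_mod_cast this
  have hbound : ∀ n (c : ℝ) (t : ℕ), 1 ≤ t →
      (sizeRamsey (G n) (matchingGraph t) : ℝ) ≤ t * (c * (G n).edgeSet.ncard) → ρ n ≤ c := by
    intro n c t ht h
    refine (hρle n t (by omega)).trans ?_
    have ht0 : (0 : ℝ) < t := by exact_mod_cast ht
    rw [div_le_iff₀ (by have := hm n; positivity)]
    calc (sizeRamsey (G n) (matchingGraph t) : ℝ) ≤ t * (c * (G n).edgeSet.ncard) := h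
      _ = c * (t * (G n).edgeSet.ncard) := by ring
  have hall : ∀ δ : ℝ, 0 < δ → ∃ ε : ℝ, 0 < ε ∧ ∀ n, ρ n ≤
        (∑ v ∈ Finset.univ.filter
          (fun v => ε * (G n).edgeSet.ncard < ((G n).degree v : ℝ)), ((G n).degree v : ℝ)) /
            (G n).edgeSet.ncard + δ := by
    intro δ hδ
    obtain ⟨ε, hε, h⟩ := upper_all.{u} δ hδ
    refine ⟨ε, hε, fun n => ?_⟩
    obtain ⟨t, ht1, ht⟩ := h (V n) (G n) (hedge n) (hiso n)
    refine hbound n _ t ht1 (ht.trans (le_of_eq ?_))
    have := (hm n).ne'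
    field_simp
  -- the number of vertices of large degree
  have hcard : ∀ n (ε : ℝ), 0 < ε → ((Finset.univ.filter
      (fun v => ε * (G n).edgeSet.ncard < ((G n).degree v : ℝ))).card : ℝ) ≤ 2 / ε := by
    intro n ε hε
    have h2 : ((Finset.univ.filter
        (fun v => ε * (G n).edgeSet.ncard < ((G n).degree v : ℝ))).card : ℝ) *
        (ε * (G n).edgeSet.ncard) ≤ 2 * (G n).edgeSet.ncard := by
      calc ((Finset.univ.filter
          (fun v => ε * (G n).edgeSet.ncard < ((G n).degree v : ℝ))).card : ℝ) *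
          (ε * (G n).edgeSet.ncard)
          ≤ ∑ v ∈ Finset.univ.filter
            (fun v => ε * (G n).edgeSet.ncard < ((G n).degree v : ℝ)), ((G n).degree v : ℝ) := by
            rw [← nsmul_eq_mul]
            apply Finset.card_nsmul_le_sum
            intro v hv
            rw [Finset.mem_filter] at hv
            exact hv.2.le
        _ ≤ ∑ v, ((G n).degree v : ℝ) :=
            Finset.sum_le_sum_of_subset_of_nonneg (Finset.subset_univ _)
              (fun _ _ _ => Nat.cast_nonneg _)
        _ = 2 * (G n).edgeSet.ncard := by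
            have h3 := (G n).sum_degrees_eq_twice_card_edges
            have h4 : (G n).edgeFinset.card = (G n).edgeSet.ncard := by
              rw [← Set.ncard_coe_finset]
              simp
            rw [h4] at h3
            exact_mod_cast h3
    rw [le_div_iff₀ hε]
    have h3 : (((Finset.univ.filter
        (fun v => ε * (G n).edgeSet.ncard < ((G n).degree v : ℝ))).card : ℝ) * ε) *
        (G n).edgeSet.ncard ≤ 2 * (G n).edgeSet.ncard := by linarith
    exact le_of_mul_le_mul_right h3 (hm n)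
  -- the bound for colourings, for every small `ε`
  have hcolour : Tendsto (fun n => (G n).edgeSet.ncard) atTop atTop →
      ∀ δ : ℝ, 0 < δ → ∃ ε₀ : ℝ, 0 < ε₀ ∧ ∀ ε : ℝ, 0 < ε → ε ≤ ε₀ →
        ∀ᶠ n in atTop, ∀ (k : ℕ) (κ : V n → Fin k),
        (∀ u v, ε * (G n).edgeSet.ncard < ((G n).degree u : ℝ) →
          ε * (G n).edgeSet.ncard < ((G n).degree v : ℝ) → (G n).Adj u v → κ u ≠ κ v) →
        ρ n ≤ (∑ i, ({x | ∃ u, ε * (G n).edgeSet.ncard < ((G n).degree u : ℝ) ∧ κ u = i ∧
          (G n).Adj u x}.ncard : ℝ)) / (G n).edgeSet.ncard + δ := by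
    intro hinf δ hδ
    obtain ⟨ε₀, hε₀, M, h⟩ := upper_col.{u} δ hδ
    refine ⟨ε₀, hε₀, fun ε hε hεε => ?_⟩
    filter_upwards [hinf.eventually_ge_atTop M] with n hn k κ hκ
    have hmono : ∀ x : V n, ε₀ * (G n).edgeSet.ncard < ((G n).degree x : ℝ) →
        ε * (G n).edgeSet.ncard < ((G n).degree x : ℝ) := fun x hx =>
      (mul_le_mul_of_nonneg_right hεε (hm n).le).trans_lt hx
    obtain ⟨t, ht1, ht⟩ := h (V n) (G n) hn (hedge n) (hiso n) k κ
      (fun i => {x | ∃ u, ε * (G n).edgeSet.ncard < ((G n).degree u : ℝ) ∧ κ u = i ∧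
          (G n).Adj u x}.ncard)
      (fun u v hu hv huv => hκ u v (hmono u hu) (hmono v hv) huv)
      (by
        intro i B hB
        rw [← Set.ncard_coe_finset]
        apply Set.ncard_le_ncard _ (Set.toFinite _)
        intro x hx
        rw [Finset.mem_coe, Finset.mem_filter] at hx
        obtain ⟨-, u, hu, hui, hux⟩ := hx
        exact ⟨u, hmono u (hB u hu), hui, hux⟩)
    refine hbound n _ t ht1 (ht.trans (le_of_eq ?_))
    have := (hm n).ne'
    field_simp
  refine ⟨ρ, hρ, ?_, ?_, ?_⟩
  · intro hinf δ hδ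
    obtain ⟨ε, hε, h⟩ := hcolour hinf δ hδ
    exact ⟨ε, hε, h ε hε le_rfl⟩
  · intro h1 δ hδ
    obtain ⟨ε, hε, h⟩ := hall (δ / 2) (half_pos hδ)
    refine ⟨ε, hε, ?_⟩
    filter_upwards [(tendsto_order.1 h1).1 (1 - δ / 2) (by linarith)] with n hn
    refine ⟨hcard n ε hε, ?_⟩
    have h2 := h n
    have h3 : 1 - δ ≤ (∑ v ∈ Finset.univ.filter
          (fun v => ε * (G n).edgeSet.ncard < ((G n).degree v : ℝ)), ((G n).degree v : ℝ)) /
            (G n).edgeSet.ncard := by linarith
    rwa [le_div_iff₀ (hm n)] at h3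
  · intro hinf h1 δ hδ
    obtain ⟨ε₀, hε₀, h⟩ := hcolour hinf (δ / 4) (by positivity)
    obtain ⟨ε, hε, hεε, hεδ⟩ : ∃ ε : ℝ, 0 < ε ∧ ε ≤ ε₀ ∧ ε ≤ δ :=
      ⟨min ε₀ δ, lt_min hε₀ hδ, min_le_left _ _, min_le_right _ _⟩
    obtain ⟨M, hM⟩ := exists_nat_gt (4 * (2 / ε * (2 / ε)) / δ)
    filter_upwards [h ε hε hεε, (tendsto_order.1 h1).1 (1 - δ / 4) (by linarith),
      hinf.eventually_ge_atTop M] with n hn hn1 hnM u v huv hadj
    by_contra hcon
    push Not at hcon
    have hinter : ((G n).neighborSet u ∩ (G n).neighborSet v).ncard =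
        ((G n).neighborFinset v ∩ (G n).neighborFinset u).card := by
      rw [← Set.ncard_coe_finset]
      congr 1
      ext x
      simp [and_comm]
    rw [hinter] at hcon
    have hdu : ε * (G n).edgeSet.ncard < ((G n).degree u : ℝ) := by
      have h2 : ((G n).neighborFinset v ∩ (G n).neighborFinset u).card ≤ (G n).degree u := by
        rw [← SimpleGraph.card_neighborFinset_eq_degree]
        exact Finset.card_le_card Finset.inter_subset_right
      have h3 : (((G n).neighborFinset v ∩ (G n).neighborFinset u).card : ℝ) ≤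
        (G n).degree u := by exact_mod_cast h2
      have h4 := mul_le_mul_of_nonneg_right hεδ (hm n).le
      linarith
    have hdv : ε * (G n).edgeSet.ncard < ((G n).degree v : ℝ) := by
      have h2 : ((G n).neighborFinset v ∩ (G n).neighborFinset u).card ≤ (G n).degree v := by
        rw [← SimpleGraph.card_neighborFinset_eq_degree]
        exact Finset.card_le_card Finset.inter_subset_left
      have h3 : (((G n).neighborFinset v ∩ (G n).neighborFinset u).card : ℝ) ≤
        (G n).degree v := by exact_mod_cast h2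
      have h4 := mul_le_mul_of_nonneg_right hεδ (hm n).le
      linarith
    let L : Finset (V n) := Finset.univ.filter
      (fun v => ε * (G n).edgeSet.ncard < ((G n).degree v : ℝ))
    have hmemL : ∀ x, x ∈ L ↔ ε * (G n).edgeSet.ncard < ((G n).degree x : ℝ) :=
      fun x => by simp [L]
    let f : V n ≃ Fin (Fintype.card (V n)) := Fintype.equivFin (V n)
    let κ : V n → Fin (Fintype.card (V n)) := fun x => if x = v then f u else f x
    have hκu : κ u = f u := by simp only [κ, if_neg huv]
    have hκv : κ v = f u := by simp only [κ, if_pos]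
    have hprop : ∀ x y, (G n).Adj x y → κ x ≠ κ y := by
      intro x y hxy heq
      by_cases hx : x = v <;> by_cases hy : y = v
      · exact hxy.ne (hx.trans hy.symm)
      · simp only [κ, if_pos hx, if_neg hy] at heq
        have h2 := f.injective heq
        subst hx
        subst h2
        exact hadj hxy.symm
      · simp only [κ, if_neg hx, if_pos hy] at heq
        have h2 := f.injective heq
        subst hy
        subst h2
        exact hadj hxy
      · simp only [κ, if_neg hx, if_neg hy] at heq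
        exact hxy.ne (f.injective heq)
    have h2 := hn _ κ (fun x y _ _ hxy => hprop x y hxy)
    have h3 : (∑ i, ({x | ∃ u, ε * (G n).edgeSet.ncard < ((G n).degree u : ℝ) ∧ κ u = i ∧
          (G n).Adj u x}.ncard : ℝ)) +
          ((G n).neighborFinset v ∩ (G n).neighborFinset u).card ≤
          (G n).edgeSet.ncard + (L.card : ℝ) * L.card := by
      have h4 := (sum_classes_le (G n) L κ u v ((hmemL u).2 hdu) ((hmemL v).2 hdv) huv
        (hκu.trans hκv.symm)).trans (sum_deg_le (G n) L)
      have h5 : ∀ i, {x | ∃ u, ε * (G n).edgeSet.ncard < ((G n).degree u : ℝ) ∧ κ u = i ∧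
          (G n).Adj u x}.ncard =
          (Finset.univ.filter (fun x => ∃ w ∈ L, κ w = i ∧ (G n).Adj w x)).card := by
        intro i
        rw [← Set.ncard_coe_finset]
        congr 1
        ext x
        simp only [Set.mem_ofPred_eq, Finset.coe_filter, Finset.mem_univ, true_and]
        constructor
        · rintro ⟨w, hw, hw2⟩
          exact ⟨w, (hmemL w).2 hw, hw2⟩
        · rintro ⟨w, hw, hw2⟩
          exact ⟨w, (hmemL w).1 hw, hw2⟩
      simp only [h5]
      exact_mod_cast h4
    have hLc : (L.card : ℝ) ≤ 2 / ε := hcard n ε hε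
    have hLc2 : (L.card : ℝ) * L.card ≤ 2 / ε * (2 / ε) :=
      mul_le_mul hLc hLc (Nat.cast_nonneg _) (by positivity)
    have hMm : 4 * (2 / ε * (2 / ε)) / δ < (G n).edgeSet.ncard := by
      refine hM.trans_le ?_
      exact_mod_cast hnM
    rw [div_lt_iff₀ hδ] at hMm
    have h6 : (1 - δ / 4) < (∑ i, ({x | ∃ u, ε * (G n).edgeSet.ncard < ((G n).degree u : ℝ) ∧
        κ u = i ∧ (G n).Adj u x}.ncard : ℝ)) / (G n).edgeSet.ncard + δ / 4 := hn1.trans_le h2
    have h7 : (1 - δ / 2) < (∑ i, ({x | ∃ u, ε * (G n).edgeSet.ncard < ((G n).degree u : ℝ) ∧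
        κ u = i ∧ (G n).Adj u x}.ncard : ℝ)) / (G n).edgeSet.ncard := by linarith
    rw [lt_div_iff₀ (hm n)] at h7
    have := hm n
    nlinarith

end Pool.Agent.Results.MP_1cfd87_co.ColourBound
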