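import Mathlib

namespace Pool.Agent.H79.SR

open Finset SimpleGraph

universe u

/-- the sum over the classes of the numbers of neighbours of degree `≠ 1` and of the maximal numbers
of leaves, when two non-adjacent vertices `u`, `v` are in a common class. -/
theorem sum_classes_leaf_le {V : Type u} [Fintype V] [DecidableEq V] (G : SimpleGraph V)
    [DecidableRel G.Adj] (L : Finset V) {k : ℕ} (κ : V → Fin k) (u v : V) (hu : u ∈ L)
    (hv : v ∈ L) (huv : u ≠ v) (hκ : κ u = κ v) :
    ∃ l : Fin k → ℕ,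
      (∀ w ∈ L, (univ.filter (fun x => G.degree x = 1 ∧ G.Adj w x)).card ≤ l (κ w)) ∧
      ∑ i, (univ.filter (fun x => G.degree x ≠ 1 ∧ ∃ w ∈ L, κ w = i ∧ G.Adj w x)).card +
        ∑ i, l i + min (univ.filter (fun x => G.degree x = 1 ∧ G.Adj u x)).card
          (univ.filter (fun x => G.degree x = 1 ∧ G.Adj v x)).card ≤ ∑ w ∈ L, G.degree w := by
  classical
  obtain ⟨lf, hlf⟩ : ∃ lf : V → ℕ, ∀ w, lf w =
    (univ.filter (fun x => G.degree x = 1 ∧ G.Adj w x)).card := ⟨_, fun _ => rfl⟩
  simp only [← hlf]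
  obtain ⟨mn, hmn⟩ : ∃ mn, mn = min (lf u) (lf v) := ⟨_, rfl⟩
  have hmnv : mn ≤ lf v := by rw [hmn]; exact min_le_right _ _
  have hmnu : mn ≤ lf u := by rw [hmn]; exact min_le_left _ _
  rw [← hmn]
  let Q : V → ℕ := fun w => if w = v then lf v - mn else lf w
  have hQv : Q v = lf v - mn := by simp only [Q, if_pos]
  have hQ : ∀ w, w ≠ v → Q w = lf w := by
    intro w hw
    simp only [Q, if_neg hw]
  refine ⟨fun i => ∑ w ∈ L.filter (fun w => κ w = i), Q w, ?_, ?_⟩
  · intro w hw
    by_cases hwv : w = v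
    · subst hwv
      have h1 : ({u, w} : Finset V) ⊆ L.filter (fun x => κ x = κ w) := by
        intro x hx
        rw [mem_insert, mem_singleton] at hx
        rcases hx with rfl | rfl
        · exact mem_filter.2 ⟨hu, hκ⟩
        · exact mem_filter.2 ⟨hw, rfl⟩
      have h2 : ∑ x ∈ ({u, w} : Finset V), Q x ≤ ∑ x ∈ L.filter (fun x => κ x = κ w), Q x :=
        Finset.sum_le_sum_of_subset h1
      rw [Finset.sum_pair huv, hQv, hQ u huv] at h2
      show lf w ≤ ∑ x ∈ L.filter (fun x => κ x = κ w), Q x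
      omega
    · have h1 : Q w ≤ ∑ x ∈ L.filter (fun x => κ x = κ w), Q x :=
        Finset.single_le_sum (f := Q) (fun _ _ => Nat.zero_le _) (mem_filter.2 ⟨hw, rfl⟩)
      rw [hQ w hwv] at h1
      exact h1
  · have h1 : ∑ i, (∑ w ∈ L.filter (fun w => κ w = i), Q w) = ∑ w ∈ L, Q w :=
      Finset.sum_fiberwise _ _ _
    have h2 : ∑ w ∈ L, lf w = ∑ w ∈ L, Q w + mn := by
      have h3 : ∑ w ∈ L, lf w = ∑ w ∈ L, (Q w + if w = v then mn else 0) := by
        apply Finset.sum_congr rfl
        intro w _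
        by_cases hwv : w = v
        · subst hwv
          rw [hQv, if_pos rfl]
          omega
        · rw [hQ w hwv, if_neg hwv, add_zero]
      rw [h3, Finset.sum_add_distrib, Finset.sum_ite_eq', if_pos hv]
    obtain ⟨nl, hnl⟩ : ∃ nl : V → ℕ, ∀ w, nl w =
      (univ.filter (fun x => G.degree x ≠ 1 ∧ G.Adj w x)).card := ⟨_, fun _ => rfl⟩
    have h4 : ∀ i, (univ.filter (fun x => G.degree x ≠ 1 ∧
        ∃ w ∈ L, κ w = i ∧ G.Adj w x)).card ≤ ∑ w ∈ L.filter (fun w => κ w = i), nl w := by
      intro i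
      calc (univ.filter (fun x => G.degree x ≠ 1 ∧ ∃ w ∈ L, κ w = i ∧ G.Adj w x)).card
          ≤ ((L.filter (fun w => κ w = i)).biUnion (fun w =>
              univ.filter (fun x => G.degree x ≠ 1 ∧ G.Adj w x))).card := by
            apply card_le_card
            intro x hx
            rw [mem_filter] at hx
            obtain ⟨-, hx1, w, hw, hwi, hwx⟩ := hx
            rw [mem_biUnion]
            exact ⟨w, mem_filter.2 ⟨hw, hwi⟩, mem_filter.2 ⟨mem_univ _, hx1, hwx⟩⟩
        _ ≤ ∑ w ∈ L.filter (fun w => κ w = i),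
              (univ.filter (fun x => G.degree x ≠ 1 ∧ G.Adj w x)).card := card_biUnion_le
        _ = ∑ w ∈ L.filter (fun w => κ w = i), nl w :=
            Finset.sum_congr rfl (fun w _ => (hnl w).symm)
    have h5 : ∑ i, (univ.filter (fun x => G.degree x ≠ 1 ∧
        ∃ w ∈ L, κ w = i ∧ G.Adj w x)).card ≤ ∑ w ∈ L, nl w := by
      rw [← Finset.sum_fiberwise L κ nl]
      exact Finset.sum_le_sum (fun i _ => h4 i)
    have h6 : ∀ w, G.degree w = nl w + lf w := by
      intro w
      rw [hnl, hlf, ← SimpleGraph.card_neighborFinset_eq_degree,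
        ← card_filter_add_card_filter_not (s := G.neighborFinset w) (fun x => G.degree x = 1)]
      have h7 : (G.neighborFinset w).filter (fun x => G.degree x = 1) =
          univ.filter (fun x => G.degree x = 1 ∧ G.Adj w x) := by
        ext x
        simp [and_comm]
      have h8 : (G.neighborFinset w).filter (fun x => ¬ G.degree x = 1) =
          univ.filter (fun x => G.degree x ≠ 1 ∧ G.Adj w x) := by
        ext x
        simp [and_comm]
      rw [h7, h8, add_comm]
    have h9 : ∑ w ∈ L, G.degree w = ∑ w ∈ L, nl w + ∑ w ∈ L, lf w := by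
      rw [← Finset.sum_add_distrib]
      exact Finset.sum_congr rfl (fun w _ => h6 w)
    rw [h1, h9, h2]
    omega

end Pool.Agent.H79.SR
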