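import Pool.Graph.R_seed8.Helper539.General

namespace Pool.Agent.H79.SR

open Finset SimpleGraph Pool.Agent.Helper539

/-- the cover lemma with an independent set of vertices: it contains few vertices of the cover. -/
theorem exists_cover2 {X : Type*} {B : SimpleGraph X} {t : ℕ} (h : ¬ (matchingGraph t ⊑ B))
    (P : X → Prop) [DecidablePred P] (hP : ∀ x y, P x → P y → ¬ B.Adj x y) :
    ∃ S : Finset X, S.card + 2 ≤ 2 * t ∧ (S.filter P).card + 1 ≤ t ∧
      ∀ x y, B.Adj x y → x ∈ S ∨ y ∈ S := by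
  classical
  have hex : ∃ s, ¬ (matchingGraph s ⊑ B) := ⟨t, h⟩
  let s := Nat.find hex
  have hs : ¬ (matchingGraph s ⊑ B) := Nat.find_spec hex
  have hst : s ≤ t := Nat.find_min' hex h
  have hs0 : s ≠ 0 := by
    intro h0
    rw [h0] at hs
    exact hs (matchingGraph_zero_isContained B)
  obtain ⟨r, hr⟩ := Nat.exists_eq_succ_of_ne_zero hs0
  have hr' : matchingGraph r ⊑ B := by
    by_contra hcon
    have := Nat.find_min' hex hcon
    change s ≤ r at this
    omega
  rw [matchingGraph_isContained_iff] at hr'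
  obtain ⟨f, hf, hadj⟩ := hr'
  refine ⟨Finset.univ.image f, ?_, ?_, ?_⟩
  · have h1 : (Finset.univ.image f).card ≤ 2 * r := by
      refine Finset.card_image_le.trans ?_
      simp [Fintype.card_prod, mul_comm]
    omega
  · have h1 : ((Finset.univ.image f).filter P) ⊆ (Finset.univ : Finset (Fin r)).image
        (fun i => if P (f (i, false)) then f (i, false) else f (i, true)) := by
      intro x hx
      rw [mem_filter, mem_image] at hx
      obtain ⟨⟨⟨i, a⟩, -, rfl⟩, hPx⟩ := hx
      rw [mem_image]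
      refine ⟨i, mem_univ _, ?_⟩
      cases a with
      | false => rw [if_pos hPx]
      | true =>
        rw [if_neg]
        intro hP'
        exact hP _ _ hP' hPx (hadj i)
    have h2 := (card_le_card h1).trans card_image_le
    rw [card_univ, Fintype.card_fin] at h2
    omega
  · intro x y hxy
    by_contra hcon
    push Not at hcon
    apply hs
    rw [hr]
    refine matchingGraph_succ_isContained f hf hadj hxy ?_ ?_
    · intro i hi
      exact hcon.1 (Finset.mem_image.2 ⟨i, Finset.mem_univ _, hi⟩)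
    · intro i hi
      exact hcon.2 (Finset.mem_image.2 ⟨i, Finset.mem_univ _, hi⟩)

/-- adjacency in the big host. -/
def bigAdj {h L : ℕ} {Y : Type*} (E : SimpleGraph Y) (W : Finset Y) :
    (Fin h ⊕ ((Fin h × Fin L) ⊕ Y)) → (Fin h ⊕ ((Fin h × Fin L) ⊕ Y)) → Prop
  | Sum.inl _, Sum.inl _ => False
  | Sum.inl i, Sum.inr (Sum.inl p) => p.1 = i
  | Sum.inr (Sum.inl p), Sum.inl i => p.1 = i
  | Sum.inl _, Sum.inr (Sum.inr y) => y ∈ W
  | Sum.inr (Sum.inr y), Sum.inl _ => y ∈ W
  | Sum.inr (Sum.inr y), Sum.inr (Sum.inr y') => E.Adj y y'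
  | Sum.inr (Sum.inl _), Sum.inr (Sum.inl _) => False
  | Sum.inr (Sum.inl _), Sum.inr (Sum.inr _) => False
  | Sum.inr (Sum.inr _), Sum.inr (Sum.inl _) => False

/-- the big host: `h` independent hubs, each with `L` private leaves and adjacent to all
vertices of the set `W` of the base graph `E`. -/
def big (h L : ℕ) {Y : Type*} (E : SimpleGraph Y) (W : Finset Y) :
    SimpleGraph (Fin h ⊕ ((Fin h × Fin L) ⊕ Y)) where
  Adj := bigAdj E W
  symm := ⟨by
    rintro (i | p | y) (i' | p' | y') hh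
    · exact hh
    · exact hh
    · exact hh
    · exact hh
    · exact hh
    · exact hh
    · exact hh
    · exact hh
    · exact hh.symm⟩
  loopless := ⟨by
    rintro (i | p | y) hh
    · exact hh
    · exact hh
    · exact E.loopless.irrefl y hh⟩

theorem big_edge_card_le {h L : ℕ} {Y : Type*} [Fintype Y] (E : SimpleGraph Y) (W : Finset Y) :
    (big h L E W).edgeSet.ncard ≤ h * (L + W.card) + E.edgeSet.ncard := by
  classical
  let P1 : Finset (Sym2 (Fin h ⊕ ((Fin h × Fin L) ⊕ Y))) :=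
    (univ : Finset (Fin h × Fin L)).image (fun p => s(Sum.inl p.1, Sum.inr (Sum.inl p)))
  let P2 : Finset (Sym2 (Fin h ⊕ ((Fin h × Fin L) ⊕ Y))) :=
    ((univ : Finset (Fin h)) ×ˢ W).image (fun p => s(Sum.inl p.1, Sum.inr (Sum.inr p.2)))
  let P3 : Set (Sym2 (Fin h ⊕ ((Fin h × Fin L) ⊕ Y))) :=
    (Sym2.map (fun y => Sum.inr (Sum.inr y))) '' E.edgeSet
  have hsub : (big h L E W).edgeSet ⊆ ((P1 ∪ P2 : Finset _) : Set _) ∪ P3 := by
    intro e he
    induction e using Sym2.ind with
    | _ x y =>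
      rw [SimpleGraph.mem_edgeSet] at he
      rcases x with i | p | y1 <;> rcases y with i' | p' | y2
      · exact absurd he id
      · left
        rw [mem_coe, mem_union]
        left
        have hh : p'.1 = i := he
        exact mem_image.2 ⟨p', mem_univ _, by rw [hh]⟩
      · left
        rw [mem_coe, mem_union]
        right
        have hh : y2 ∈ W := he
        exact mem_image.2 ⟨(i, y2), by simp [hh], rfl⟩
      · left
        rw [mem_coe, mem_union]
        left
        have hh : p.1 = i' := he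
        exact mem_image.2 ⟨p, mem_univ _, by rw [hh]; exact Sym2.eq_swap⟩
      · exact absurd he id
      · exact absurd he id
      · left
        rw [mem_coe, mem_union]
        right
        have hh : y1 ∈ W := he
        exact mem_image.2 ⟨(i', y1), by simp [hh], Sym2.eq_swap⟩
      · exact absurd he id
      · right
        have hh : E.Adj y1 y2 := he
        exact ⟨s(y1, y2), (SimpleGraph.mem_edgeSet E).2 hh, rfl⟩
  calc (big h L E W).edgeSet.ncard
      ≤ (((P1 ∪ P2 : Finset _) : Set _) ∪ P3).ncard :=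
        Set.ncard_le_ncard hsub (Set.toFinite _)
    _ ≤ ((P1 ∪ P2 : Finset _) : Set (Sym2 (Fin h ⊕ ((Fin h × Fin L) ⊕ Y)))).ncard + P3.ncard :=
        Set.ncard_union_le _ _
    _ = (P1 ∪ P2).card + P3.ncard := by rw [Set.ncard_coe_finset]
    _ ≤ (P1.card + P2.card) + E.edgeSet.ncard :=
        Nat.add_le_add (card_union_le _ _) (Set.ncard_image_le (Set.toFinite _))
    _ ≤ (h * L + h * W.card) + E.edgeSet.ncard := by
        have h1 : P1.card ≤ h * L := by
          refine card_image_le.trans ?_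
          simp [card_univ]
        have h2 : P2.card ≤ h * W.card := by
          refine card_image_le.trans ?_
          simp [card_product]
        omega
    _ = h * (L + W.card) + E.edgeSet.ncard := by ring

/-- the embedding. -/
theorem big_arrows {V Y : Type*} [Fintype V] [DecidableEq V] [Fintype Y] [DecidableEq Y]
    (G : SimpleGraph V) (E : SimpleGraph Y) (W : Finset Y) (h L t : ℕ) (hL0 : 0 < L)
    (B Lf : Finset V) (nb : V → V)
    (hLfB : ∀ v ∈ Lf, v ∉ B) (hnb : ∀ v ∈ Lf, nb v ∈ B) (hnb2 : ∀ v ∈ Lf, ∀ w, G.Adj v w → w = nb v)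
    (hind : ∀ u ∈ B, ∀ v ∈ B, ¬ G.Adj u v)
    (hL : ∀ u ∈ B, (Lf.filter (fun v => nb v = u)).card + 2 * t ≤ L)
    (hh : t + B.card ≤ h)
    (hbase : ∀ S : Finset Y, S.card ≤ 2 * t → ∃ φ : {v : V // ¬ (v ∈ B ∨ v ∈ Lf)} → Y,
      Function.Injective φ ∧ (∀ v, φ v ∉ S) ∧
      (∀ u v : {v : V // ¬ (v ∈ B ∨ v ∈ Lf)}, G.Adj u.1 v.1 → E.Adj (φ u) (φ v)) ∧
      ∀ v : {v : V // ¬ (v ∈ B ∨ v ∈ Lf)}, (∃ u ∈ B, G.Adj u v.1) → φ v ∈ W) :
    Arrows (big h L E W) G (matchingGraph t) := by
  classical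
  intro R hR
  by_cases hBm : matchingGraph t ⊑ (big h L E W \ R)
  · exact Or.inr hBm
  left
  obtain ⟨S, hS1, hS2, hcov⟩ := exists_cover2 hBm
    (fun x => ∃ i : Fin h, x = Sum.inl i) (by
      rintro x y ⟨i, rfl⟩ ⟨j, rfl⟩ hadj
      exact hadj.1)
  -- embedding avoiding `S`
  suffices hφ : ∃ φ : V → (Fin h ⊕ ((Fin h × Fin L) ⊕ Y)), Function.Injective φ ∧
      (∀ v, φ v ∉ S) ∧ ∀ u v, G.Adj u v → (big h L E W).Adj (φ u) (φ v) by
    obtain ⟨φ, hφ, hφS, hφadj⟩ := hφ
    refine ⟨⟨⟨φ, ?_⟩, hφ⟩⟩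
    intro u v huv
    by_contra hcon
    have := hcov (φ u) (φ v) (by rw [SimpleGraph.sdiff_adj]; exact ⟨hφadj u v huv, hcon⟩)
    rcases this with h1 | h1
    · exact hφS _ h1
    · exact hφS _ h1
  -- hubs
  let av : Finset (Fin h) := univ.filter (fun i =>
    (Sum.inl i : Fin h ⊕ ((Fin h × Fin L) ⊕ Y)) ∉ S)
  have hav : B.card ≤ av.card := by
    have h1 := card_filter_add_card_filter_not (s := (univ : Finset (Fin h)))
      (fun i => (Sum.inl i : Fin h ⊕ ((Fin h × Fin L) ⊕ Y)) ∈ S)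
    have h2 : (univ.filter (fun i : Fin h =>
        (Sum.inl i : Fin h ⊕ ((Fin h × Fin L) ⊕ Y)) ∈ S)).card ≤
        (S.filter (fun x => ∃ i : Fin h, x = Sum.inl i)).card := by
      refine card_le_card_of_injOn (fun i => Sum.inl i) ?_ ?_
      · intro i hi
        simp only [coe_filter, mem_univ, true_and, Set.mem_ofPred_eq] at hi
        simp only [coe_filter, Set.mem_ofPred_eq]
        exact ⟨hi, i, rfl⟩
      · intro i _ i' _ hii
        exact Sum.inl_injective hii
    rw [card_univ, Fintype.card_fin] at h1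
    simp only [av]
    omega
  obtain ⟨hub⟩ : Nonempty (B ↪ av) :=
    Function.Embedding.nonempty_of_card_le (by simpa using hav)
  have hubS : ∀ u : B, (Sum.inl (hub u : Fin h) : Fin h ⊕ ((Fin h × Fin L) ⊕ Y)) ∉ S := by
    intro u
    have := (hub u).2
    simp only [av, mem_filter] at this
    exact this.2
  have hubinj : ∀ u u' : B, (hub u : Fin h) = hub u' → u = u' := fun u u' huu =>
    hub.injective (Subtype.ext huu)
  -- leaves
  have hleaf : ∀ u : B, ∃ g : V → Fin L, (∀ v ∈ Lf, nb v = u → ∀ v' ∈ Lf, nb v' = u →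
      g v = g v' → v = v') ∧ ∀ v ∈ Lf, nb v = u →
        (Sum.inr (Sum.inl ((hub u : Fin h), g v)) : Fin h ⊕ ((Fin h × Fin L) ⊕ Y)) ∉ S := by
    intro u
    let A := Lf.filter (fun v => nb v = (u : V))
    let al : Finset (Fin L) := univ.filter (fun l =>
      (Sum.inr (Sum.inl ((hub u : Fin h), l)) : Fin h ⊕ ((Fin h × Fin L) ⊕ Y)) ∉ S)
    have hal : A.card ≤ al.card := by
      have h1 := card_filter_add_card_filter_not (s := (univ : Finset (Fin L)))
        (fun l => (Sum.inr (Sum.inl ((hub u : Fin h), l)) : Fin h ⊕ ((Fin h × Fin L) ⊕ Y)) ∈ S)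
      have h2 : (univ.filter (fun l : Fin L =>
          (Sum.inr (Sum.inl ((hub u : Fin h), l)) : Fin h ⊕ ((Fin h × Fin L) ⊕ Y)) ∈ S)).card ≤
          S.card := by
        refine card_le_card_of_injOn (fun l => Sum.inr (Sum.inl ((hub u : Fin h), l))) ?_ ?_
        · intro i hi
          simpa using hi
        · intro i _ i' _ hii
          simpa using hii
      rw [card_univ, Fintype.card_fin] at h1
      have h3 := hL u u.2
      simp only [al, A]
      omega
    obtain ⟨e⟩ : Nonempty (A ↪ al) :=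
      Function.Embedding.nonempty_of_card_le (by simpa using hal)
    refine ⟨fun v => if hv : v ∈ A then (e ⟨v, hv⟩ : Fin L) else ⟨0, hL0⟩, ?_, ?_⟩
    · intro v hv hvu v' hv' hvu' hg
      have h1 : v ∈ A := by simp only [A, mem_filter]; exact ⟨hv, hvu⟩
      have h2 : v' ∈ A := by simp only [A, mem_filter]; exact ⟨hv', hvu'⟩
      simp only [dif_pos h1, dif_pos h2] at hg
      have := e.injective (Subtype.ext hg)
      exact congrArg Subtype.val this
    · intro v hv hvu
      have h1 : v ∈ A := by simp only [A, mem_filter]; exact ⟨hv, hvu⟩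
      simp only [dif_pos h1]
      have := (e ⟨v, h1⟩).2
      simp only [al, mem_filter] at this
      exact this.2
  choose lf hlf1 hlf2 using hleaf
  -- base
  let Sb : Finset Y := univ.filter (fun y =>
    (Sum.inr (Sum.inr y) : Fin h ⊕ ((Fin h × Fin L) ⊕ Y)) ∈ S)
  have hSb : Sb.card ≤ 2 * t := by
    have h1 : Sb.card ≤ S.card := by
      refine card_le_card_of_injOn (fun y => Sum.inr (Sum.inr y)) ?_ ?_
      · intro y hy
        simpa [Sb] using hy
      · intro y _ y' _ hyy
        simpa using hyy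
    omega
  obtain ⟨φ, hφi, hφS, hφadj, hφW⟩ := hbase Sb hSb
  have hφS' : ∀ v, (Sum.inr (Sum.inr (φ v)) : Fin h ⊕ ((Fin h × Fin L) ⊕ Y)) ∉ S := by
    intro v hv
    apply hφS v
    simp only [Sb, mem_filter, mem_univ, true_and]
    exact hv
  -- the three kinds of vertices
  have hcases : ∀ v : V, v ∈ B ∨ v ∈ Lf ∨ ¬ (v ∈ B ∨ v ∈ Lf) := by
    intro v
    tauto
  let Ψ : V → (Fin h ⊕ ((Fin h × Fin L) ⊕ Y)) := fun v =>
    if hv : v ∈ B then Sum.inl (hub ⟨v, hv⟩ : Fin h)
    else if hv' : v ∈ Lf then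
      Sum.inr (Sum.inl ((hub ⟨nb v, hnb v hv'⟩ : Fin h), lf ⟨nb v, hnb v hv'⟩ v))
    else Sum.inr (Sum.inr (φ ⟨v, by tauto⟩))
  have hΨB : ∀ v (hv : v ∈ B), Ψ v = Sum.inl (hub ⟨v, hv⟩ : Fin h) := by
    intro v hv
    simp only [Ψ, dif_pos hv]
  have hΨL : ∀ v (hv : v ∈ Lf), Ψ v =
      Sum.inr (Sum.inl ((hub ⟨nb v, hnb v hv⟩ : Fin h), lf ⟨nb v, hnb v hv⟩ v)) := by
    intro v hv
    simp only [Ψ, dif_neg (hLfB v hv), dif_pos hv]
  have hΨR : ∀ v (hv : ¬ (v ∈ B ∨ v ∈ Lf)), Ψ v = Sum.inr (Sum.inr (φ ⟨v, hv⟩)) := by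
    intro v hv
    have h1 : v ∉ B := fun hh => hv (Or.inl hh)
    have h2 : v ∉ Lf := fun hh => hv (Or.inr hh)
    simp only [Ψ, dif_neg h1, dif_neg h2]
  refine ⟨Ψ, ?_, ?_, ?_⟩
  · intro u v huv
    rcases hcases u with hu | hu | hu <;> rcases hcases v with hv | hv | hv
    · rw [hΨB u hu, hΨB v hv] at huv
      have := hubinj _ _ (Sum.inl_injective huv)
      exact congrArg Subtype.val this
    · rw [hΨB u hu, hΨL v hv] at huv
      simp at huv
    · rw [hΨB u hu, hΨR v hv] at huv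
      simp at huv
    · rw [hΨL u hu, hΨB v hv] at huv
      simp at huv
    · rw [hΨL u hu, hΨL v hv] at huv
      have h1 := Sum.inl_injective (Sum.inr_injective huv)
      rw [Prod.mk.injEq] at h1
      have h2 := hubinj _ _ h1.1
      have h3 : nb u = nb v := congrArg Subtype.val h2
      have h4 := h1.2
      rw [h2] at h4
      exact hlf1 ⟨nb v, hnb v hv⟩ u hu h3 v hv rfl h4
    · rw [hΨL u hu, hΨR v hv] at huv
      simp at huv
    · rw [hΨR u hu, hΨB v hv] at huv
      simp at huv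
    · rw [hΨR u hu, hΨL v hv] at huv
      simp at huv
    · rw [hΨR u hu, hΨR v hv] at huv
      have := hφi (Sum.inr_injective (Sum.inr_injective huv))
      exact congrArg Subtype.val this
  · intro v
    rcases hcases v with hv | hv | hv
    · rw [hΨB v hv]
      exact hubS _
    · rw [hΨL v hv]
      exact hlf2 ⟨nb v, hnb v hv⟩ v hv rfl
    · rw [hΨR v hv]
      exact hφS' _
  · intro u v huv
    rcases hcases u with hu | hu | hu <;> rcases hcases v with hv | hv | hv
    · exact absurd huv (hind u hu v hv)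
    · rw [hΨB u hu, hΨL v hv]
      have h1 := hnb2 v hv u huv.symm
      show (hub ⟨nb v, hnb v hv⟩ : Fin h) = (hub ⟨u, hu⟩ : Fin h)
      congr 2
      exact Subtype.ext h1.symm
    · rw [hΨB u hu, hΨR v hv]
      exact hφW ⟨v, hv⟩ ⟨u, hu, huv⟩
    · rw [hΨL u hu, hΨB v hv]
      have h1 := hnb2 u hu v huv
      show (hub ⟨nb u, hnb u hu⟩ : Fin h) = (hub ⟨v, hv⟩ : Fin h)
      congr 2
      exact Subtype.ext h1.symm
    · exfalso
      have h1 := hnb2 u hu v huv
      exact hLfB v hv (h1 ▸ hnb u hu)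
    · exfalso
      have h1 := hnb2 u hu v huv
      exact hv (Or.inl (h1 ▸ hnb u hu))
    · rw [hΨR u hu, hΨB v hv]
      exact hφW ⟨u, hu⟩ ⟨v, hv, huv.symm⟩
    · exfalso
      have h1 := hnb2 v hv u huv.symm
      exact hu (Or.inl (h1 ▸ hnb v hv))
    · rw [hΨR u hu, hΨR v hv]
      exact hφadj ⟨u, hu⟩ ⟨v, hv⟩ huv

end Pool.Agent.H79.SR
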