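import Pool.Graph.R_seed8.Helper539.General

namespace Pool.Agent.H79.SR

open Finset SimpleGraph Pool.Agent.Helper539

/-- the cover lemma: the cover contains fewer than `t` vertices of each independent set. -/
theorem exists_cover3 {X : Type*} [DecidableEq X] {B : SimpleGraph X} {t : ℕ}
    (h : ¬ (matchingGraph t ⊑ B)) :
    ∃ S : Finset X, S.card + 2 ≤ 2 * t ∧
      (∀ P : Finset X, (∀ x ∈ P, ∀ y ∈ P, ¬ B.Adj x y) → (P ∩ S).card + 1 ≤ t) ∧
      ∀ x y, B.Adj x y → x ∈ S ∨ y ∈ S := by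
  classical
  have hex : ∃ s, ¬ (matchingGraph s ⊑ B) := ⟨t, h⟩
  let s := Nat.find hex
  have hs : ¬ (matchingGraph s ⊑ B) := Nat.find_spec hex
  have hst : s ≤ t := Nat.find_min' hex h
  have hs0 : s ≠ 0 := by
    intro h0
    rw [h0] at hs
    exact hs (matchingGraph_zero_isContained B)
  obtain ⟨r, hr⟩ := Nat.exists_eq_succ_of_ne_zero hs0
  have hr' : matchingGraph r ⊑ B := by
    by_contra hcon
    have := Nat.find_min' hex hcon
    change s ≤ r at this
    omega
  rw [matchingGraph_isContained_iff] at hr'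
  obtain ⟨f, hf, hadj⟩ := hr'
  refine ⟨Finset.univ.image f, ?_, ?_, ?_⟩
  · have h1 : (Finset.univ.image f).card ≤ 2 * r := by
      refine Finset.card_image_le.trans ?_
      simp [Fintype.card_prod, mul_comm]
    omega
  · intro P hP
    have h1 : (P ∩ Finset.univ.image f) ⊆ (Finset.univ : Finset (Fin r)).image
        (fun i => if f (i, false) ∈ P then f (i, false) else f (i, true)) := by
      intro x hx
      rw [mem_inter, mem_image] at hx
      obtain ⟨hPx, ⟨⟨i, a⟩, -, rfl⟩⟩ := hx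
      rw [mem_image]
      refine ⟨i, mem_univ _, ?_⟩
      cases a with
      | false => rw [if_pos hPx]
      | true =>
        rw [if_neg]
        intro hP'
        exact hP _ hP' _ hPx (hadj i)
    have h2 := (card_le_card h1).trans card_image_le
    rw [card_univ, Fintype.card_fin] at h2
    omega
  · intro x y hxy
    by_contra hcon
    push Not at hcon
    apply hs
    rw [hr]
    refine matchingGraph_succ_isContained f hf hadj hxy ?_ ?_
    · intro i hi
      exact hcon.1 (Finset.mem_image.2 ⟨i, Finset.mem_univ _, hi⟩)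
    · intro i hi
      exact hcon.2 (Finset.mem_image.2 ⟨i, Finset.mem_univ _, hi⟩)

/-- adjacency in the blow-up host. -/
def blAdj {b t h : ℕ} {Y : Type*} (E : SimpleGraph Y) (W : Fin b → Finset Y) (WI : Finset Y) :
    ((Fin b × Fin t) ⊕ (Fin h ⊕ Y)) → ((Fin b × Fin t) ⊕ (Fin h ⊕ Y)) → Prop
  | Sum.inl p, Sum.inl p' => p.1 ≠ p'.1
  | Sum.inl _, Sum.inr (Sum.inl _) => True
  | Sum.inr (Sum.inl _), Sum.inl _ => True
  | Sum.inl p, Sum.inr (Sum.inr y) => y ∈ W p.1
  | Sum.inr (Sum.inr y), Sum.inl p => y ∈ W p.1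
  | Sum.inr (Sum.inl i), Sum.inr (Sum.inl i') => i ≠ i'
  | Sum.inr (Sum.inl _), Sum.inr (Sum.inr y) => y ∈ WI
  | Sum.inr (Sum.inr y), Sum.inr (Sum.inl _) => y ∈ WI
  | Sum.inr (Sum.inr y), Sum.inr (Sum.inr y') => E.Adj y y'

/-- the blow-up host: `b` independent classes of `t` hubs, `h` further hubs, and the base. -/
def bl (b t h : ℕ) {Y : Type*} (E : SimpleGraph Y) (W : Fin b → Finset Y) (WI : Finset Y) :
    SimpleGraph ((Fin b × Fin t) ⊕ (Fin h ⊕ Y)) where
  Adj := blAdj E W WI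
  symm := ⟨by
    rintro (p | i | y) (p' | i' | y') hh
    · exact Ne.symm hh
    · exact hh
    · exact hh
    · exact hh
    · exact Ne.symm hh
    · exact hh
    · exact hh
    · exact hh
    · exact hh.symm⟩
  loopless := ⟨by
    rintro (p | i | y) hh
    · exact hh rfl
    · exact hh rfl
    · exact E.loopless.irrefl y hh⟩

theorem bl_edge_card_le {b t h : ℕ} {Y : Type*} [Fintype Y] (E : SimpleGraph Y)
    (W : Fin b → Finset Y) (WI : Finset Y) :
    (bl b t h E W WI).edgeSet.ncard ≤ (b * t + h) * (b * t + h) + ∑ i, t * (W i).card +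
      h * WI.card + E.edgeSet.ncard := by
  classical
  let P0 : Finset (Sym2 ((Fin b × Fin t) ⊕ (Fin h ⊕ Y))) :=
    (univ : Finset (((Fin b × Fin t) ⊕ Fin h) × ((Fin b × Fin t) ⊕ Fin h))).image
      (fun p => s(Sum.map id Sum.inl p.1, Sum.map id Sum.inl p.2))
  let P1 : Finset (Sym2 ((Fin b × Fin t) ⊕ (Fin h ⊕ Y))) :=
    (univ : Finset (Fin b)).biUnion (fun i => ((univ : Finset (Fin t)) ×ˢ W i).image
      (fun p => s(Sum.inl (i, p.1), Sum.inr (Sum.inr p.2))))
  let P2 : Finset (Sym2 ((Fin b × Fin t) ⊕ (Fin h ⊕ Y))) :=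
    ((univ : Finset (Fin h)) ×ˢ WI).image (fun p => s(Sum.inr (Sum.inl p.1), Sum.inr (Sum.inr p.2)))
  let P3 : Set (Sym2 ((Fin b × Fin t) ⊕ (Fin h ⊕ Y))) :=
    (Sym2.map (fun y => Sum.inr (Sum.inr y))) '' E.edgeSet
  have hsub : (bl b t h E W WI).edgeSet ⊆ ((P0 ∪ P1 ∪ P2 : Finset _) : Set _) ∪ P3 := by
    intro e he
    induction e using Sym2.ind with
    | _ x y =>
      rw [SimpleGraph.mem_edgeSet] at he
      rcases x with p | i | y1 <;> rcases y with p' | i' | y2
      · left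
        rw [mem_coe, mem_union, mem_union]
        exact Or.inl (Or.inl (mem_image.2 ⟨(Sum.inl p, Sum.inl p'), mem_univ _, rfl⟩))
      · left
        rw [mem_coe, mem_union, mem_union]
        exact Or.inl (Or.inl (mem_image.2 ⟨(Sum.inl p, Sum.inr i'), mem_univ _, rfl⟩))
      · left
        rw [mem_coe, mem_union, mem_union]
        have hh : y2 ∈ W p.1 := he
        exact Or.inl (Or.inr (mem_biUnion.2 ⟨p.1, mem_univ _, mem_image.2
          ⟨(p.2, y2), by simp [hh], rfl⟩⟩))
      · left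
        rw [mem_coe, mem_union, mem_union]
        exact Or.inl (Or.inl (mem_image.2 ⟨(Sum.inr i, Sum.inl p'), mem_univ _, rfl⟩))
      · left
        rw [mem_coe, mem_union, mem_union]
        exact Or.inl (Or.inl (mem_image.2 ⟨(Sum.inr i, Sum.inr i'), mem_univ _, rfl⟩))
      · left
        rw [mem_coe, mem_union, mem_union]
        have hh : y2 ∈ WI := he
        exact Or.inr (mem_image.2 ⟨(i, y2), by simp [hh], rfl⟩)
      · left
        rw [mem_coe, mem_union, mem_union]
        have hh : y1 ∈ W p'.1 := he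
        exact Or.inl (Or.inr (mem_biUnion.2 ⟨p'.1, mem_univ _, mem_image.2
          ⟨(p'.2, y1), by simp [hh], Sym2.eq_swap⟩⟩))
      · left
        rw [mem_coe, mem_union, mem_union]
        have hh : y1 ∈ WI := he
        exact Or.inr (mem_image.2 ⟨(i', y1), by simp [hh], Sym2.eq_swap⟩)
      · right
        have hh : E.Adj y1 y2 := he
        exact ⟨s(y1, y2), (SimpleGraph.mem_edgeSet E).2 hh, rfl⟩
  have h0 : P0.card ≤ (b * t + h) * (b * t + h) := by
    refine card_image_le.trans ?_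
    simp [card_univ]
  have h1 : P1.card ≤ ∑ i, t * (W i).card := by
    refine card_biUnion_le.trans (Finset.sum_le_sum (fun i _ => ?_))
    refine card_image_le.trans ?_
    simp [card_product]
  have h2 : P2.card ≤ h * WI.card := by
    refine card_image_le.trans ?_
    simp [card_product]
  calc (bl b t h E W WI).edgeSet.ncard
      ≤ (((P0 ∪ P1 ∪ P2 : Finset _) : Set _) ∪ P3).ncard :=
        Set.ncard_le_ncard hsub (Set.toFinite _)
    _ ≤ ((P0 ∪ P1 ∪ P2 : Finset _) : Set (Sym2 ((Fin b × Fin t) ⊕ (Fin h ⊕ Y)))).ncard +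
          P3.ncard := Set.ncard_union_le _ _
    _ = (P0 ∪ P1 ∪ P2).card + P3.ncard := by rw [Set.ncard_coe_finset]
    _ ≤ (P0.card + P1.card + P2.card) + E.edgeSet.ncard :=
        Nat.add_le_add ((card_union_le _ _).trans (Nat.add_le_add_right (card_union_le _ _) _))
          (Set.ncard_image_le (Set.toFinite _))
    _ ≤ _ := by omega

/-- the embedding into the blow-up host. -/
theorem bl_arrows {V Y : Type*} [Fintype V] [DecidableEq V] [Fintype Y] [DecidableEq Y]
    (G : SimpleGraph V) (E : SimpleGraph Y) (b t h : ℕ) (W : Fin b → Finset Y) (WI : Finset Y)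
    (B I : Finset V) (hBI : Disjoint B I) (nm : V → Fin b)
    (hnm : ∀ u ∈ B, ∀ v ∈ B, nm u = nm v → u = v)
    (hh : 2 * t + I.card ≤ h)
    (hbase : ∀ S : Finset Y, S.card ≤ 2 * t → ∃ φ : {v : V // ¬ (v ∈ B ∨ v ∈ I)} → Y,
      Function.Injective φ ∧ (∀ v, φ v ∉ S) ∧
      (∀ u v : {v : V // ¬ (v ∈ B ∨ v ∈ I)}, G.Adj u.1 v.1 → E.Adj (φ u) (φ v)) ∧
      (∀ v : {v : V // ¬ (v ∈ B ∨ v ∈ I)}, ∀ u ∈ B, G.Adj u v.1 → φ v ∈ W (nm u)) ∧
      ∀ v : {v : V // ¬ (v ∈ B ∨ v ∈ I)}, (∃ u ∈ I, G.Adj u v.1) → φ v ∈ WI) :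
    Arrows (bl b t h E W WI) G (matchingGraph t) := by
  classical
  intro R hR
  by_cases hBm : matchingGraph t ⊑ (bl b t h E W WI \ R)
  · exact Or.inr hBm
  left
  obtain ⟨S, hS1, hS2, hcov⟩ := exists_cover3 hBm
  suffices hφ : ∃ φ : V → ((Fin b × Fin t) ⊕ (Fin h ⊕ Y)), Function.Injective φ ∧
      (∀ v, φ v ∉ S) ∧ ∀ u v, G.Adj u v → (bl b t h E W WI).Adj (φ u) (φ v) by
    obtain ⟨φ, hφ, hφS, hφadj⟩ := hφ
    refine ⟨⟨⟨φ, ?_⟩, hφ⟩⟩
    intro u v huv
    by_contra hcon
    have := hcov (φ u) (φ v) (by rw [SimpleGraph.sdiff_adj]; exact ⟨hφadj u v huv, hcon⟩)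
    rcases this with h1 | h1
    · exact hφS _ h1
    · exact hφS _ h1
  -- hubs of the classes
  have hcl : ∀ j : Fin b, ∃ i : Fin t,
      (Sum.inl (j, i) : (Fin b × Fin t) ⊕ (Fin h ⊕ Y)) ∉ S := by
    intro j
    by_contra hcon
    push Not at hcon
    let P : Finset ((Fin b × Fin t) ⊕ (Fin h ⊕ Y)) :=
      (univ : Finset (Fin t)).image (fun i => Sum.inl (j, i))
    have h1 := hS2 P (by
      intro x hx y hy hxy
      obtain ⟨i, -, rfl⟩ := mem_image.1 hx
      obtain ⟨i', -, rfl⟩ := mem_image.1 hy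
      exact hxy.1 rfl)
    have h2 : P ∩ S = P := by
      rw [Finset.inter_eq_left]
      intro x hx
      obtain ⟨i, -, rfl⟩ := mem_image.1 hx
      exact hcon i
    have h3 : P.card = t := by
      simp only [P]
      rw [card_image_of_injective]
      · simp
      · intro i i' hii
        simpa using hii
    rw [h2, h3] at h1
    omega
  choose cl hclS using hcl
  -- further hubs
  let av : Finset (Fin h) := univ.filter (fun i =>
    (Sum.inr (Sum.inl i) : (Fin b × Fin t) ⊕ (Fin h ⊕ Y)) ∉ S)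
  have hav : I.card ≤ av.card := by
    have h1 := card_filter_add_card_filter_not (s := (univ : Finset (Fin h)))
      (fun i => (Sum.inr (Sum.inl i) : (Fin b × Fin t) ⊕ (Fin h ⊕ Y)) ∈ S)
    have h2 : (univ.filter (fun i : Fin h =>
        (Sum.inr (Sum.inl i) : (Fin b × Fin t) ⊕ (Fin h ⊕ Y)) ∈ S)).card ≤ S.card := by
      refine card_le_card_of_injOn (fun i => Sum.inr (Sum.inl i)) ?_ ?_
      · intro i hi
        simpa using hi
      · intro i _ i' _ hii
        simpa using hii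
    rw [card_univ, Fintype.card_fin] at h1
    simp only [av]
    omega
  obtain ⟨hub⟩ : Nonempty (I ↪ av) :=
    Function.Embedding.nonempty_of_card_le (by simpa using hav)
  have hubS : ∀ u : I, (Sum.inr (Sum.inl (hub u : Fin h)) :
      (Fin b × Fin t) ⊕ (Fin h ⊕ Y)) ∉ S := by
    intro u
    have := (hub u).2
    simp only [av, mem_filter] at this
    exact this.2
  have hubinj : ∀ u u' : I, (hub u : Fin h) = hub u' → u = u' := fun u u' huu =>
    hub.injective (Subtype.ext huu)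
  -- base
  let Sb : Finset Y := univ.filter (fun y =>
    (Sum.inr (Sum.inr y) : (Fin b × Fin t) ⊕ (Fin h ⊕ Y)) ∈ S)
  have hSb : Sb.card ≤ 2 * t := by
    have h1 : Sb.card ≤ S.card := by
      refine card_le_card_of_injOn (fun y => Sum.inr (Sum.inr y)) ?_ ?_
      · intro y hy
        simpa [Sb] using hy
      · intro y _ y' _ hyy
        simpa using hyy
    omega
  obtain ⟨φ, hφi, hφS, hφadj, hφW, hφI⟩ := hbase Sb hSb
  have hφS' : ∀ v, (Sum.inr (Sum.inr (φ v)) : (Fin b × Fin t) ⊕ (Fin h ⊕ Y)) ∉ S := by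
    intro v hv
    apply hφS v
    simp only [Sb, mem_filter, mem_univ, true_and]
    exact hv
  have hcases : ∀ v : V, v ∈ B ∨ v ∈ I ∨ ¬ (v ∈ B ∨ v ∈ I) := by
    intro v
    tauto
  have hIB : ∀ v ∈ I, v ∉ B := fun v hv hv' => (Finset.disjoint_left.1 hBI) hv' hv
  let Ψ : V → ((Fin b × Fin t) ⊕ (Fin h ⊕ Y)) := fun v =>
    if hv : v ∈ B then Sum.inl (nm v, cl (nm v))
    else if hv' : v ∈ I then Sum.inr (Sum.inl (hub ⟨v, hv'⟩ : Fin h))
    else Sum.inr (Sum.inr (φ ⟨v, by tauto⟩))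
  have hΨB : ∀ v (_ : v ∈ B), Ψ v = Sum.inl (nm v, cl (nm v)) := by
    intro v hv
    simp only [Ψ, dif_pos hv]
  have hΨI : ∀ v (hv : v ∈ I), Ψ v = Sum.inr (Sum.inl (hub ⟨v, hv⟩ : Fin h)) := by
    intro v hv
    simp only [Ψ, dif_neg (hIB v hv), dif_pos hv]
  have hΨR : ∀ v (hv : ¬ (v ∈ B ∨ v ∈ I)), Ψ v = Sum.inr (Sum.inr (φ ⟨v, hv⟩)) := by
    intro v hv
    have h1 : v ∉ B := fun hh => hv (Or.inl hh)
    have h2 : v ∉ I := fun hh => hv (Or.inr hh)
    simp only [Ψ, dif_neg h1, dif_neg h2]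
  refine ⟨Ψ, ?_, ?_, ?_⟩
  · intro u v huv
    rcases hcases u with hu | hu | hu <;> rcases hcases v with hv | hv | hv
    · rw [hΨB u hu, hΨB v hv] at huv
      have := Sum.inl_injective huv
      rw [Prod.mk.injEq] at this
      exact hnm u hu v hv this.1
    · rw [hΨB u hu, hΨI v hv] at huv
      simp at huv
    · rw [hΨB u hu, hΨR v hv] at huv
      simp at huv
    · rw [hΨI u hu, hΨB v hv] at huv
      simp at huv
    · rw [hΨI u hu, hΨI v hv] at huv
      have := hubinj _ _ (Sum.inl_injective (Sum.inr_injective huv))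
      exact congrArg Subtype.val this
    · rw [hΨI u hu, hΨR v hv] at huv
      simp at huv
    · rw [hΨR u hu, hΨB v hv] at huv
      simp at huv
    · rw [hΨR u hu, hΨI v hv] at huv
      simp at huv
    · rw [hΨR u hu, hΨR v hv] at huv
      have := hφi (Sum.inr_injective (Sum.inr_injective huv))
      exact congrArg Subtype.val this
  · intro v
    rcases hcases v with hv | hv | hv
    · rw [hΨB v hv]
      exact hclS _
    · rw [hΨI v hv]
      exact hubS _
    · rw [hΨR v hv]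
      exact hφS' _
  · intro u v huv
    rcases hcases u with hu | hu | hu <;> rcases hcases v with hv | hv | hv
    · rw [hΨB u hu, hΨB v hv]
      intro heq
      exact huv.ne (hnm u hu v hv heq)
    · rw [hΨB u hu, hΨI v hv]
      trivial
    · rw [hΨB u hu, hΨR v hv]
      exact hφW ⟨v, hv⟩ u hu huv
    · rw [hΨI u hu, hΨB v hv]
      trivial
    · rw [hΨI u hu, hΨI v hv]
      intro heq
      exact huv.ne (congrArg Subtype.val (hubinj _ _ heq))
    · rw [hΨI u hu, hΨR v hv]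
      exact hφI ⟨v, hv⟩ ⟨u, hu, huv⟩
    · rw [hΨR u hu, hΨB v hv]
      exact hφW ⟨u, hu⟩ v hv huv.symm
    · rw [hΨR u hu, hΨI v hv]
      exact hφI ⟨u, hu⟩ ⟨v, hv, huv.symm⟩
    · rw [hΨR u hu, hΨR v hv]
      exact hφadj ⟨u, hu⟩ ⟨v, hv⟩ huv

end Pool.Agent.H79.SR
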