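import Pool.Agent.H79.SR.Emb2

namespace Pool.Agent.H79.SR

open Finset SimpleGraph Pool.Agent.Helper539

/-- the embedding into the blow-up host, with non-adjacent hubs in a common class, for the edges
without a private leaf. -/
theorem bl_embed4 {V Y : Type*} [Fintype V] [DecidableEq V] [Fintype Y] [DecidableEq Y]
    (G : SimpleGraph V) (E : SimpleGraph Y) (b t r h : ℕ) (W : Fin b → Finset Y) (WI : Finset Y)
    (B I Lf : Finset V) (hBI : Disjoint B I) (nm : V → Fin b)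
    (hnm : ∀ u ∈ B, ∀ v ∈ B, G.Adj u v → nm u ≠ nm v)
    (hr : B.card ≤ r)
    (hh : 2 * t + I.card ≤ h)
    (hbase : ∀ S : Finset Y, S.card ≤ 2 * t → ∃ φ : {v : V // ¬ (v ∈ B ∨ v ∈ I)} → Y,
      Function.Injective φ ∧ (∀ v, φ v ∉ S) ∧
      (∀ u v : {v : V // ¬ (v ∈ B ∨ v ∈ I)}, G.Adj u.1 v.1 → E.Adj (φ u) (φ v)) ∧
      (∀ v : {v : V // ¬ (v ∈ B ∨ v ∈ I)}, v.1 ∉ Lf → ∀ u ∈ B, G.Adj u v.1 → φ v ∈ W (nm u)) ∧
      ∀ v : {v : V // ¬ (v ∈ B ∨ v ∈ I)}, (∃ u ∈ I, G.Adj u v.1) → φ v ∈ WI)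
    (S : Finset ((Fin b × Fin (t + r)) ⊕ (Fin h ⊕ Y))) (hS1 : S.card + 2 ≤ 2 * t)
    (hS2 : ∀ j : Fin b, (univ.filter (fun i : Fin (t + r) =>
      (Sum.inl (j, i) : (Fin b × Fin (t + r)) ⊕ (Fin h ⊕ Y)) ∈ S)).card + 1 ≤ t) :
    ∃ Ψ : V → ((Fin b × Fin (t + r)) ⊕ (Fin h ⊕ Y)), Function.Injective Ψ ∧ (∀ v, Ψ v ∉ S) ∧
      (∀ u v, u ∉ Lf → v ∉ Lf → G.Adj u v → (bl b (t + r) h E W WI).Adj (Ψ u) (Ψ v)) ∧
      ∀ u ∈ B, ∃ c : Fin (t + r), Ψ u = Sum.inl (nm u, c) := by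
  classical
  -- hubs of the classes
  have hcl : ∀ j : Fin b, ∃ c : V → Fin (t + r), (∀ u ∈ B, ∀ v ∈ B, c u = c v → u = v) ∧
      ∀ u ∈ B, (Sum.inl (j, c u) : (Fin b × Fin (t + r)) ⊕ (Fin h ⊕ Y)) ∉ S := by
    intro j
    have h1 := hS2 j
    let lv : Finset (Fin (t + r)) := univ.filter (fun i =>
      (Sum.inl (j, i) : (Fin b × Fin (t + r)) ⊕ (Fin h ⊕ Y)) ∉ S)
    have h3 := card_filter_add_card_filter_not (s := (univ : Finset (Fin (t + r))))
      (fun i => (Sum.inl (j, i) : (Fin b × Fin (t + r)) ⊕ (Fin h ⊕ Y)) ∈ S)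
    rw [card_univ, Fintype.card_fin] at h3
    have h4 : B.card ≤ lv.card := by
      simp only [lv]
      omega
    obtain ⟨f⟩ : Nonempty (B ↪ lv) :=
      Function.Embedding.nonempty_of_card_le (by simpa using h4)
    have ht0 : 0 < t + r := by omega
    refine ⟨fun u => if hu : u ∈ B then (f ⟨u, hu⟩ : Fin (t + r)) else ⟨0, ht0⟩, ?_, ?_⟩
    · intro u hu u' hu' heq
      simp only [dif_pos hu, dif_pos hu'] at heq
      exact congrArg Subtype.val (f.injective (Subtype.ext heq))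
    · intro u hu
      simp only [dif_pos hu]
      have := (f ⟨u, hu⟩).2
      simp only [lv, mem_filter] at this
      exact this.2
  choose cl hclinj hclS using hcl
  -- further hubs
  let av : Finset (Fin h) := univ.filter (fun i =>
    (Sum.inr (Sum.inl i) : (Fin b × Fin (t + r)) ⊕ (Fin h ⊕ Y)) ∉ S)
  have hav : I.card ≤ av.card := by
    have h1 := card_filter_add_card_filter_not (s := (univ : Finset (Fin h)))
      (fun i => (Sum.inr (Sum.inl i) : (Fin b × Fin (t + r)) ⊕ (Fin h ⊕ Y)) ∈ S)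
    have h2 : (univ.filter (fun i : Fin h =>
        (Sum.inr (Sum.inl i) : (Fin b × Fin (t + r)) ⊕ (Fin h ⊕ Y)) ∈ S)).card ≤ S.card := by
      refine card_le_card_of_injOn (fun i => Sum.inr (Sum.inl i)) ?_ ?_
      · intro i hi
        simpa using hi
      · intro i _ i' _ hii
        simpa using hii
    rw [card_univ, Fintype.card_fin] at h1
    simp only [av]
    omega
  obtain ⟨hub⟩ : Nonempty (I ↪ av) :=
    Function.Embedding.nonempty_of_card_le (by simpa using hav)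
  have hubS : ∀ u : I, (Sum.inr (Sum.inl (hub u : Fin h)) :
      (Fin b × Fin (t + r)) ⊕ (Fin h ⊕ Y)) ∉ S := by
    intro u
    have := (hub u).2
    simp only [av, mem_filter] at this
    exact this.2
  have hubinj : ∀ u u' : I, (hub u : Fin h) = hub u' → u = u' := fun u u' huu =>
    hub.injective (Subtype.ext huu)
  -- base
  let Sb : Finset Y := univ.filter (fun y =>
    (Sum.inr (Sum.inr y) : (Fin b × Fin (t + r)) ⊕ (Fin h ⊕ Y)) ∈ S)
  have hSb : Sb.card ≤ 2 * t := by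
    have h1 : Sb.card ≤ S.card := by
      refine card_le_card_of_injOn (fun y => Sum.inr (Sum.inr y)) ?_ ?_
      · intro y hy
        simpa [Sb] using hy
      · intro y _ y' _ hyy
        simpa using hyy
    omega
  obtain ⟨φ, hφi, hφS, hφadj, hφW, hφI⟩ := hbase Sb hSb
  have hφS' : ∀ v, (Sum.inr (Sum.inr (φ v)) : (Fin b × Fin (t + r)) ⊕ (Fin h ⊕ Y)) ∉ S := by
    intro v hv
    apply hφS v
    simp only [Sb, mem_filter, mem_univ, true_and]
    exact hv
  have hcases : ∀ v : V, v ∈ B ∨ v ∈ I ∨ ¬ (v ∈ B ∨ v ∈ I) := by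
    intro v
    tauto
  have hIB : ∀ v ∈ I, v ∉ B := fun v hv hv' => (Finset.disjoint_left.1 hBI) hv' hv
  let Ψ : V → ((Fin b × Fin (t + r)) ⊕ (Fin h ⊕ Y)) := fun v =>
    if hv : v ∈ B then Sum.inl (nm v, cl (nm v) v)
    else if hv' : v ∈ I then Sum.inr (Sum.inl (hub ⟨v, hv'⟩ : Fin h))
    else Sum.inr (Sum.inr (φ ⟨v, by tauto⟩))
  have hΨB : ∀ v (_ : v ∈ B), Ψ v = Sum.inl (nm v, cl (nm v) v) := by
    intro v hv
    simp only [Ψ, dif_pos hv]
  have hΨI : ∀ v (hv : v ∈ I), Ψ v = Sum.inr (Sum.inl (hub ⟨v, hv⟩ : Fin h)) := by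
    intro v hv
    simp only [Ψ, dif_neg (hIB v hv), dif_pos hv]
  have hΨR : ∀ v (hv : ¬ (v ∈ B ∨ v ∈ I)), Ψ v = Sum.inr (Sum.inr (φ ⟨v, hv⟩)) := by
    intro v hv
    have h1 : v ∉ B := fun hh => hv (Or.inl hh)
    have h2 : v ∉ I := fun hh => hv (Or.inr hh)
    simp only [Ψ, dif_neg h1, dif_neg h2]
  refine ⟨Ψ, ?_, ?_, ?_, fun u hu => ⟨_, hΨB u hu⟩⟩
  · intro u v huv
    rcases hcases u with hu | hu | hu <;> rcases hcases v with hv | hv | hv
    · rw [hΨB u hu, hΨB v hv] at huv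
      have := Sum.inl_injective huv
      rw [Prod.mk.injEq] at this
      obtain ⟨h1, h2⟩ := this
      rw [← h1] at h2
      exact hclinj _ u hu v hv h2
    · rw [hΨB u hu, hΨI v hv] at huv
      simp at huv
    · rw [hΨB u hu, hΨR v hv] at huv
      simp at huv
    · rw [hΨI u hu, hΨB v hv] at huv
      simp at huv
    · rw [hΨI u hu, hΨI v hv] at huv
      have := hubinj _ _ (Sum.inl_injective (Sum.inr_injective huv))
      exact congrArg Subtype.val this
    · rw [hΨI u hu, hΨR v hv] at huv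
      simp at huv
    · rw [hΨR u hu, hΨB v hv] at huv
      simp at huv
    · rw [hΨR u hu, hΨI v hv] at huv
      simp at huv
    · rw [hΨR u hu, hΨR v hv] at huv
      have := hφi (Sum.inr_injective (Sum.inr_injective huv))
      exact congrArg Subtype.val this
  · intro v
    rcases hcases v with hv | hv | hv
    · rw [hΨB v hv]
      exact hclS _ v hv
    · rw [hΨI v hv]
      exact hubS _
    · rw [hΨR v hv]
      exact hφS' _
  · intro u v huL hvL huv
    rcases hcases u with hu | hu | hu <;> rcases hcases v with hv | hv | hv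
    · rw [hΨB u hu, hΨB v hv]
      exact hnm u hu v hv huv
    · rw [hΨB u hu, hΨI v hv]
      trivial
    · rw [hΨB u hu, hΨR v hv]
      exact hφW ⟨v, hv⟩ hvL u hu huv
    · rw [hΨI u hu, hΨB v hv]
      trivial
    · rw [hΨI u hu, hΨI v hv]
      intro heq
      exact huv.ne (congrArg Subtype.val (hubinj _ _ heq))
    · rw [hΨI u hu, hΨR v hv]
      exact hφI ⟨v, hv⟩ ⟨u, hu, huv⟩
    · rw [hΨR u hu, hΨB v hv]
      exact hφW ⟨u, hu⟩ huL v hv huv.symm
    · rw [hΨR u hu, hΨI v hv]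
      exact hφI ⟨u, hu⟩ ⟨v, hv, huv.symm⟩
    · rw [hΨR u hu, hΨR v hv]
      exact hφadj ⟨u, hu⟩ ⟨v, hv⟩ huv

end Pool.Agent.H79.SR
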