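import Pool.Agent.H79.SR.Emb2

namespace Pool.Agent.H79.SR

open Finset SimpleGraph Pool.Agent.Helper539

/-- adjacency in the host with private leaves at the hubs. -/
def hlAdj {b T Lm : ℕ} {Z : Type*} (F : SimpleGraph ((Fin b × Fin T) ⊕ Z)) (L : Fin b → ℕ) :
    (((Fin b × Fin T) ⊕ Z) ⊕ ((Fin b × Fin T) × Fin Lm)) →
    (((Fin b × Fin T) ⊕ Z) ⊕ ((Fin b × Fin T) × Fin Lm)) → Prop
  | Sum.inl x, Sum.inl y => F.Adj x y
  | Sum.inl x, Sum.inr q => x = Sum.inl q.1 ∧ q.2.val < L q.1.1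
  | Sum.inr q, Sum.inl x => x = Sum.inl q.1 ∧ q.2.val < L q.1.1
  | Sum.inr _, Sum.inr _ => False

/-- the host with private leaves at the hubs. -/
def hl {b T : ℕ} (Lm : ℕ) {Z : Type*} (F : SimpleGraph ((Fin b × Fin T) ⊕ Z)) (L : Fin b → ℕ) :
    SimpleGraph (((Fin b × Fin T) ⊕ Z) ⊕ ((Fin b × Fin T) × Fin Lm)) where
  Adj := hlAdj F L
  symm := ⟨by
    rintro (x | q) (y | q') hh
    · exact F.symm.symm _ _ hh
    · exact hh
    · exact hh
    · exact hh⟩
  loopless := ⟨by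
    rintro (x | q) hh
    · exact F.loopless.irrefl x hh
    · exact hh⟩

theorem hl_edge_card_le {b T Lm : ℕ} {Z : Type*} [Fintype Z]
    (F : SimpleGraph ((Fin b × Fin T) ⊕ Z)) (L : Fin b → ℕ) :
    (hl Lm F L).edgeSet.ncard ≤ F.edgeSet.ncard + ∑ i, T * L i := by
  classical
  let P : Finset (Sym2 (((Fin b × Fin T) ⊕ Z) ⊕ ((Fin b × Fin T) × Fin Lm))) :=
    (univ : Finset (Fin b)).biUnion (fun i => ((univ : Finset (Fin T)) ×ˢ
      ((univ : Finset (Fin Lm)).filter (fun k => k.val < L i))).image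
      (fun p => s(Sum.inl (Sum.inl (i, p.1)), Sum.inr ((i, p.1), p.2))))
  let Q : Set (Sym2 (((Fin b × Fin T) ⊕ Z) ⊕ ((Fin b × Fin T) × Fin Lm))) :=
    (Sym2.map Sum.inl) '' F.edgeSet
  have hsub : (hl Lm F L).edgeSet ⊆ Q ∪ (P : Set _) := by
    intro e he
    induction e using Sym2.ind with
    | _ x y =>
      rw [SimpleGraph.mem_edgeSet] at he
      rcases x with x | q <;> rcases y with y | q'
      · left
        have hh : F.Adj x y := he
        exact ⟨s(x, y), (SimpleGraph.mem_edgeSet F).2 hh, rfl⟩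
      · right
        have hh : x = Sum.inl q'.1 ∧ q'.2.val < L q'.1.1 := he
        obtain ⟨⟨i, j⟩, k⟩ := q'
        obtain ⟨rfl, hk⟩ := hh
        rw [mem_coe, mem_biUnion]
        refine ⟨i, mem_univ _, mem_image.2 ⟨(j, k), ?_, rfl⟩⟩
        rw [mem_product]
        exact ⟨mem_univ _, mem_filter.2 ⟨mem_univ _, hk⟩⟩
      · right
        have hh : y = Sum.inl q.1 ∧ q.2.val < L q.1.1 := he
        obtain ⟨⟨i, j⟩, k⟩ := q
        obtain ⟨rfl, hk⟩ := hh
        rw [mem_coe, mem_biUnion]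
        refine ⟨i, mem_univ _, mem_image.2 ⟨(j, k), ?_, Sym2.eq_swap⟩⟩
        rw [mem_product]
        exact ⟨mem_univ _, mem_filter.2 ⟨mem_univ _, hk⟩⟩
      · exact absurd he id
  have hP : P.card ≤ ∑ i, T * L i := by
    refine card_biUnion_le.trans (Finset.sum_le_sum (fun i _ => ?_))
    refine card_image_le.trans ?_
    rw [card_product, card_univ, Fintype.card_fin]
    apply Nat.mul_le_mul_left
    have h1 : ((univ : Finset (Fin Lm)).filter (fun k => k.val < L i)).card ≤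
        (range (L i)).card := by
      refine card_le_card_of_injOn Fin.val ?_ ?_
      · intro k hk
        rw [mem_coe, mem_filter] at hk
        rw [mem_coe, mem_range]
        exact hk.2
      · intro k _ k' _ hkk
        exact Fin.ext hkk
    rwa [card_range] at h1
  calc (hl Lm F L).edgeSet.ncard
      ≤ (Q ∪ (P : Set (Sym2 (((Fin b × Fin T) ⊕ Z) ⊕ ((Fin b × Fin T) × Fin Lm))))).ncard :=
        Set.ncard_le_ncard hsub (Set.toFinite _)
    _ ≤ Q.ncard + (P : Set (Sym2 (((Fin b × Fin T) ⊕ Z) ⊕ ((Fin b × Fin T) × Fin Lm)))).ncard :=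
        Set.ncard_union_le _ _
    _ = Q.ncard + P.card := by rw [Set.ncard_coe_finset]
    _ ≤ F.edgeSet.ncard + ∑ i, T * L i :=
        Nat.add_le_add (Set.ncard_image_le (Set.toFinite _)) hP

/-- adding private leaves. -/
theorem hl_arrows {V Z : Type*} [Fintype V] [DecidableEq V] [Fintype Z] [DecidableEq Z]
    (G : SimpleGraph V) {b T : ℕ} (Lm t : ℕ) (F : SimpleGraph ((Fin b × Fin T) ⊕ Z))
    (hF : ∀ (j : Fin b) (i i' : Fin T), ¬ F.Adj (Sum.inl (j, i)) (Sum.inl (j, i')))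
    (L l : Fin b → ℕ) (hL : ∀ i, L i = l i + 2 * t) (hLm : ∀ i, L i ≤ Lm)
    (B Lf : Finset V) (nm : V → Fin b) (nb : V → V)
    (hLfB : ∀ v ∈ Lf, v ∉ B) (hnb : ∀ v ∈ Lf, nb v ∈ B)
    (hnb2 : ∀ v ∈ Lf, ∀ w, G.Adj v w → w = nb v)
    (hl' : ∀ u ∈ B, (Lf.filter (fun v => nb v = u)).card ≤ l (nm u))
    (hbase : ∀ S : Finset ((Fin b × Fin T) ⊕ Z), S.card + 2 ≤ 2 * t →
      (∀ j : Fin b, (univ.filter (fun i : Fin T =>
        (Sum.inl (j, i) : (Fin b × Fin T) ⊕ Z) ∈ S)).card + 1 ≤ t) →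
      ∃ Ψ : V → ((Fin b × Fin T) ⊕ Z), Function.Injective Ψ ∧ (∀ v, Ψ v ∉ S) ∧
        (∀ u v, u ∉ Lf → v ∉ Lf → G.Adj u v → F.Adj (Ψ u) (Ψ v)) ∧
        ∀ u ∈ B, ∃ c : Fin T, Ψ u = Sum.inl (nm u, c)) :
    Arrows (hl Lm F L) G (matchingGraph t) := by
  classical
  intro R hR
  by_cases hBm : matchingGraph t ⊑ (hl Lm F L \ R)
  · exact Or.inr hBm
  left
  obtain ⟨S, hS1, hS2, hcov⟩ := exists_cover3 hBm
  suffices hφ : ∃ φ : V → (((Fin b × Fin T) ⊕ Z) ⊕ ((Fin b × Fin T) × Fin Lm)),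
      Function.Injective φ ∧
      (∀ v, φ v ∉ S) ∧ ∀ u v, G.Adj u v → (hl Lm F L).Adj (φ u) (φ v) by
    obtain ⟨φ, hφ, hφS, hφadj⟩ := hφ
    refine ⟨⟨⟨φ, ?_⟩, hφ⟩⟩
    intro u v huv
    by_contra hcon
    have := hcov (φ u) (φ v) (by rw [SimpleGraph.sdiff_adj]; exact ⟨hφadj u v huv, hcon⟩)
    rcases this with h1 | h1
    · exact hφS _ h1
    · exact hφS _ h1
  let S1 : Finset ((Fin b × Fin T) ⊕ Z) := univ.filter (fun x =>
    (Sum.inl x : ((Fin b × Fin T) ⊕ Z) ⊕ ((Fin b × Fin T) × Fin Lm)) ∈ S)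
  have hS1c : S1.card ≤ S.card := by
    refine card_le_card_of_injOn Sum.inl ?_ ?_
    · intro x hx
      simpa [S1] using hx
    · intro x _ y _ hxy
      exact Sum.inl_injective hxy
  obtain ⟨Ψ, hΨi, hΨS, hΨadj, hΨB⟩ := hbase S1 (by omega) (by
    intro j
    let P : Finset (((Fin b × Fin T) ⊕ Z) ⊕ ((Fin b × Fin T) × Fin Lm)) :=
      (univ : Finset (Fin T)).image (fun i => Sum.inl (Sum.inl (j, i)))
    have h1 := hS2 P (by
      intro x hx y hy hxy
      obtain ⟨i, -, rfl⟩ := mem_image.1 hx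
      obtain ⟨i', -, rfl⟩ := mem_image.1 hy
      exact hF j i i' hxy.1)
    have h2 : (univ.filter (fun i : Fin T =>
        (Sum.inl (j, i) : (Fin b × Fin T) ⊕ Z) ∈ S1)).card ≤ (P ∩ S).card := by
      refine card_le_card_of_injOn (fun i => Sum.inl (Sum.inl (j, i))) ?_ ?_
      · intro i hi
        rw [mem_coe, mem_filter] at hi
        have hi2 := hi.2
        simp only [S1, mem_filter] at hi2
        rw [mem_coe, mem_inter]
        exact ⟨mem_image.2 ⟨i, mem_univ _, rfl⟩, hi2.2⟩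
      · intro i _ i' _ hii
        simpa using hii
    omega)
  have hex : ∀ u ∈ B, ∃ c : Fin T, Ψ u = Sum.inl (nm u, c) ∧ ∃ g : V → Fin Lm,
      (∀ v ∈ Lf.filter (fun v => nb v = u), ∀ v' ∈ Lf.filter (fun v => nb v = u),
        g v = g v' → v = v') ∧
      ∀ v ∈ Lf.filter (fun v => nb v = u), (g v).val < L (nm u) ∧
        (Sum.inr ((nm u, c), g v) : ((Fin b × Fin T) ⊕ Z) ⊕ ((Fin b × Fin T) × Fin Lm)) ∉ S := by
    intro u hu
    obtain ⟨c, hc⟩ := hΨB u hu
    refine ⟨c, hc, ?_⟩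
    let av : Finset (Fin Lm) := univ.filter (fun k => k.val < L (nm u) ∧
      (Sum.inr ((nm u, c), k) : ((Fin b × Fin T) ⊕ Z) ⊕ ((Fin b × Fin T) × Fin Lm)) ∉ S)
    have h1 : (range (L (nm u))).card ≤ av.card + S.card := by
      have h2 : (range (L (nm u))).card ≤
          ((univ : Finset (Fin Lm)).filter (fun k => k.val < L (nm u))).card := by
        refine card_le_card_of_surjOn Fin.val ?_
        intro k hk
        rw [mem_coe, mem_range] at hk
        refine ⟨⟨k, hk.trans_le (hLm _)⟩, ?_, rfl⟩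
        rw [mem_coe, mem_filter]
        exact ⟨mem_univ _, hk⟩
      have h3 := card_filter_add_card_filter_not
        (s := (univ : Finset (Fin Lm)).filter (fun k => k.val < L (nm u)))
        (fun k => (Sum.inr ((nm u, c), k) :
          ((Fin b × Fin T) ⊕ Z) ⊕ ((Fin b × Fin T) × Fin Lm)) ∈ S)
      have h4 : (((univ : Finset (Fin Lm)).filter (fun k => k.val < L (nm u))).filter
          (fun k => (Sum.inr ((nm u, c), k) :
            ((Fin b × Fin T) ⊕ Z) ⊕ ((Fin b × Fin T) × Fin Lm)) ∈ S)).card ≤ S.card := by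
        refine card_le_card_of_injOn (fun k => Sum.inr ((nm u, c), k)) ?_ ?_
        · intro k hk
          rw [mem_coe, mem_filter] at hk
          exact hk.2
        · intro k _ k' _ hkk
          simpa using hkk
      have h5 : (((univ : Finset (Fin Lm)).filter (fun k => k.val < L (nm u))).filter
          (fun k => ¬ (Sum.inr ((nm u, c), k) :
            ((Fin b × Fin T) ⊕ Z) ⊕ ((Fin b × Fin T) × Fin Lm)) ∈ S)).card ≤ av.card := by
        apply card_le_card
        intro k hk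
        rw [mem_filter, mem_filter] at hk
        simp only [av, mem_filter]
        exact ⟨mem_univ _, hk.1.2, hk.2⟩
      omega
    rw [card_range, hL] at h1
    have h2 : (Lf.filter (fun v => nb v = u)).card ≤ av.card := by
      have := hl' u hu
      omega
    obtain ⟨f⟩ : Nonempty (Lf.filter (fun v => nb v = u) ↪ av) :=
      Function.Embedding.nonempty_of_card_le (by
        rw [Fintype.card_coe, Fintype.card_coe]; exact h2)
    have hLpos : 0 < Lm := by
      have := hLm (nm u)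
      rw [hL] at this
      omega
    refine ⟨fun v => if hv : v ∈ Lf.filter (fun v => nb v = u) then (f ⟨v, hv⟩ : Fin Lm)
      else ⟨0, hLpos⟩, ?_, ?_⟩
    · intro v hv v' hv' heq
      simp only [dif_pos hv, dif_pos hv'] at heq
      exact congrArg Subtype.val (f.injective (Subtype.ext heq))
    · intro v hv
      simp only [dif_pos hv]
      have := (f ⟨v, hv⟩).2
      simp only [av, mem_filter] at this
      exact this.2
  choose c hc g hg1 hg2 using hex
  have hgcongr : ∀ u (hu : u ∈ B) u' (hu' : u' ∈ B), u = u' → g u hu = g u' hu' := by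
    intro u hu u' hu' h
    subst h
    rfl
  let φ : V → (((Fin b × Fin T) ⊕ Z) ⊕ ((Fin b × Fin T) × Fin Lm)) := fun v =>
    if hv : v ∈ Lf then Sum.inr ((nm (nb v), c (nb v) (hnb v hv)), g (nb v) (hnb v hv) v)
    else Sum.inl (Ψ v)
  have hφ1 : ∀ v (hv : v ∈ Lf), φ v =
      Sum.inr ((nm (nb v), c (nb v) (hnb v hv)), g (nb v) (hnb v hv) v) := by
    intro v hv
    simp only [φ, dif_pos hv]
  have hφ2 : ∀ v, v ∉ Lf → φ v = Sum.inl (Ψ v) := by
    intro v hv
    simp only [φ, dif_neg hv]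
  refine ⟨φ, ?_, ?_, ?_⟩
  · intro v v' heq
    by_cases hv : v ∈ Lf <;> by_cases hv' : v' ∈ Lf
    · rw [hφ1 v hv, hφ1 v' hv'] at heq
      have h1 := Sum.inr_injective heq
      rw [Prod.mk.injEq] at h1
      obtain ⟨h2, h3⟩ := h1
      have h4 : nb v = nb v' := by
        apply hΨi
        rw [hc _ (hnb v hv), hc _ (hnb v' hv'), h2]
      rw [← hgcongr _ (hnb v hv) _ (hnb v' hv') h4] at h3
      exact hg1 _ (hnb v hv) v (mem_filter.2 ⟨hv, rfl⟩) v' (mem_filter.2 ⟨hv', h4.symm⟩) h3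
    · rw [hφ1 v hv, hφ2 v' hv'] at heq
      simp at heq
    · rw [hφ2 v hv, hφ1 v' hv'] at heq
      simp at heq
    · rw [hφ2 v hv, hφ2 v' hv'] at heq
      exact hΨi (Sum.inl_injective heq)
  · intro v
    by_cases hv : v ∈ Lf
    · rw [hφ1 v hv]
      exact (hg2 _ (hnb v hv) v (mem_filter.2 ⟨hv, rfl⟩)).2
    · rw [hφ2 v hv]
      intro hcon
      apply hΨS v
      simp only [S1, mem_filter]
      exact ⟨mem_univ _, hcon⟩
  · have hkey : ∀ x y, x ∈ Lf → G.Adj x y → (hl Lm F L).Adj (φ x) (φ y) := by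
      intro x y hx hxy
      have hy := hnb2 x hx y hxy
      have hyB : y ∈ B := by rw [hy]; exact hnb x hx
      have hyL : y ∉ Lf := fun h => hLfB y h hyB
      rw [hφ1 x hx, hφ2 y hyL]
      subst hy
      refine ⟨hc _ hyB, ?_⟩
      exact (hg2 _ hyB x (mem_filter.2 ⟨hx, rfl⟩)).1
    intro x y hxy
    by_cases hx : x ∈ Lf
    · exact hkey x y hx hxy
    · by_cases hy : y ∈ Lf
      · exact (hkey y x hy hxy.symm).symm
      · rw [hφ2 x hx, hφ2 y hy]
        exact hΨadj x y hx hy hxy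

end Pool.Agent.H79.SR
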