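import Pool.Agent.H79.SR.Num

namespace Pool.Agent.H79.SR

open Finset SimpleGraph Pool.Agent.Helper539

universe u

theorem main_bound (w : ℕ) (hw : 1 ≤ w) : ∃ a m₀ : ℕ, 0 < a ∧ ∀ (V : Type u) [Fintype V]
    [DecidableEq V] (G : SimpleGraph V) [DecidableRel G.Adj] (B Lf : Finset V) (nb : V → V)
    (l : ℕ), m₀ ≤ G.edgeSet.ncard → Fintype.card V ≤ 2 * G.edgeSet.ncard → B.card ≤ 2 * a →
    (∀ v, v ∉ B → a * G.degree v ≤ G.edgeSet.ncard) →
    (∀ v ∈ Lf, v ∉ B) → (∀ v ∈ Lf, nb v ∈ B) → (∀ v ∈ Lf, ∀ w, G.Adj v w → w = nb v) →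
    (∀ u ∈ B, ∀ v ∈ B, ¬ G.Adj u v) →
    (∀ u ∈ B, (Lf.filter (fun v => nb v = u)).card ≤ l) → l ≤ G.edgeSet.ncard →
    ∃ t : ℕ, 1 ≤ t ∧ w * sizeRamsey G (matchingGraph t) ≤
      w * t * (l + (univ.filter (fun v => v ∉ B ∧ v ∉ Lf ∧ ∃ u ∈ B, G.Adj u v)).card) +
        8 * t * G.edgeSet.ncard := by
  classical
  obtain ⟨D, hD⟩ : ∃ D, D = 2048 * w * w := ⟨_, rfl⟩
  obtain ⟨q, hq⟩ : ∃ q, q = 2 * (D + 1) := ⟨_, rfl⟩
  obtain ⟨C, hC⟩ : ∃ C, C = 2 + 16 * q * w := ⟨_, rfl⟩
  obtain ⟨A, hA⟩ : ∃ A, A = 32 * q * w := ⟨_, rfl⟩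
  obtain ⟨k, hk⟩ : ∃ k, k = 64 * q * w * w * C * (C + 1) := ⟨_, rfl⟩
  have hqpos : 0 < q := by omega
  have hCpos : 0 < C := by omega
  have hDpos : 0 < D := by rw [hD]; positivity
  have hApos : 0 < A := by rw [hA]; positivity
  have hkpos : 0 < k := by rw [hk]; positivity
  have hk1 : (1 : ℝ) ≤ k := by exact_mod_cast hkpos
  have hkD : (0 : ℝ) < (k : ℝ) ^ D := by positivity
  obtain ⟨M, hM⟩ : ∃ M : ℕ, (1 - 1 / (k : ℝ) ^ D) ^ M < (1 / 2) ^ (C + 1) := by
    apply exists_pow_lt_of_lt_one (by positivity)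
    have : (0 : ℝ) < 1 / (k : ℝ) ^ D := by positivity
    linarith
  obtain ⟨n1, hn1⟩ := eventually_poly_lt_exp (k * q) ((C + 1) * (2 * A)) (M * D)
  obtain ⟨a, ha⟩ : ∃ a, a = 4 * A * (M * M * D + 1) := ⟨_, rfl⟩
  have hapos : 0 < a := by rw [ha]; positivity
  obtain ⟨T0, hT0⟩ : ∃ T0, T0 = max n1 (max (2 * (M * M + M * (q * (M * D))))
    (max (q * (M * D)) (max (14 * w * a) 1))) := ⟨_, rfl⟩
  refine ⟨a, A * T0, hapos, ?_⟩
  intro V _ _ G _ B Lf nb l hm0 hVm hBc hdeg hLfB hnb hnb2 hind hl hlm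
  set m := G.edgeSet.ncard with hmdef
  obtain ⟨t, ht⟩ : ∃ t, t = m / A := ⟨_, rfl⟩
  have htT : T0 ≤ t := by
    rw [ht, Nat.le_div_iff_mul_le hApos, mul_comm]
    exact hm0
  have htn1 : n1 ≤ t := (by rw [hT0]; exact le_max_left _ _ : n1 ≤ T0).trans htT
  have htM : 2 * (M * M + M * (q * (M * D))) ≤ t := by
    refine le_trans ?_ htT
    rw [hT0]
    exact (le_max_left _ _).trans (le_max_right _ _)
  have htq : q * (M * D) ≤ t := by
    refine le_trans ?_ htT
    rw [hT0]
    exact (le_max_left _ _).trans ((le_max_right _ _).trans (le_max_right _ _))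
  have hta : 14 * w * a ≤ t := by
    refine le_trans ?_ htT
    rw [hT0]
    exact (le_max_left _ _).trans ((le_max_right _ _).trans ((le_max_right _ _).trans
      (le_max_right _ _)))
  have ht1 : 1 ≤ t := by
    refine le_trans ?_ htT
    rw [hT0]
    exact (le_max_right _ _).trans ((le_max_right _ _).trans ((le_max_right _ _).trans
      (le_max_right _ _)))
  have hAt : A * t ≤ m := by rw [ht]; exact Nat.mul_div_le m A
  have hAt2 : m < A * (t + 1) := by rw [ht]; exact Nat.lt_mul_div_succ m hApos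
  have hAt' : m ≤ 2 * (A * t) := by
    have : A * 1 ≤ A * t := Nat.mul_le_mul_left _ ht1
    have h2 : A * (t + 1) = A * t + A * 1 := by ring
    omega
  -- the graph on the remaining vertices
  let P : V → Prop := fun v => ¬ (v ∈ B ∨ v ∈ Lf)
  let G' : SimpleGraph {v : V // ¬ (v ∈ B ∨ v ∈ Lf)} := G.comap Subtype.val
  have hadj' : ∀ u v : {v : V // ¬ (v ∈ B ∨ v ∈ Lf)}, G'.Adj u v ↔ G.Adj u.1 v.1 :=
    fun u v => Iff.rfl
  have hdeg' : ∀ v : {v : V // ¬ (v ∈ B ∨ v ∈ Lf)}, G'.degree v ≤ G.degree v.1 := by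
    intro v
    rw [← SimpleGraph.card_neighborFinset_eq_degree, ← SimpleGraph.card_neighborFinset_eq_degree]
    refine card_le_card_of_injOn Subtype.val ?_ ?_
    · intro u hu
      rw [mem_coe, SimpleGraph.mem_neighborFinset] at hu ⊢
      exact hu
    · intro u _ u' _ h
      exact Subtype.ext h
  have hsum : ∑ v, G'.degree v ≤ 2 * m := by
    calc ∑ v, G'.degree v ≤ ∑ v : {v : V // ¬ (v ∈ B ∨ v ∈ Lf)}, G.degree v.1 :=
          Finset.sum_le_sum (fun v _ => hdeg' v)
      _ = ∑ v ∈ (univ : Finset {v : V // ¬ (v ∈ B ∨ v ∈ Lf)}).map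
            (Function.Embedding.subtype _), G.degree v := by
          rw [Finset.sum_map]
          rfl
      _ ≤ ∑ v, G.degree v := Finset.sum_le_sum_of_subset (subset_univ _)
      _ = 2 * G.edgeFinset.card := G.sum_degrees_eq_twice_card_edges
      _ = 2 * m := by
          rw [hmdef, ← Set.ncard_coe_finset]
          simp
  obtain ⟨x, hxdef⟩ : ∃ x, x = 2 * m / D := ⟨_, rfl⟩
  have hx : D * x ≤ 2 * m := by rw [hxdef]; exact Nat.mul_div_le _ _
  have hhigh : (univ.filter (fun v => D < G'.degree v)).card ≤ x := by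
    rw [hxdef, Nat.le_div_iff_mul_le hDpos]
    calc (univ.filter (fun v => D < G'.degree v)).card * D
        ≤ ∑ v ∈ univ.filter (fun v => D < G'.degree v), G'.degree v := by
          rw [← smul_eq_mul]
          apply Finset.card_nsmul_le_sum
          intro v hv
          rw [mem_filter] at hv
          exact hv.2.le
      _ ≤ ∑ v, G'.degree v := Finset.sum_le_sum_of_subset (filter_subset _ _)
      _ ≤ 2 * m := hsum
  obtain ⟨H, hH⟩ : ∃ H, H = x + 3 * t := ⟨_, rfl⟩
  obtain ⟨Δ, hΔdef⟩ : ∃ Δ, Δ = m / a := ⟨_, rfl⟩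
  have hΔ : ∀ v, G'.degree v ≤ Δ := by
    intro v
    rw [hΔdef, Nat.le_div_iff_mul_le hapos, mul_comm]
    refine (Nat.mul_le_mul_left _ (hdeg' v)).trans (hdeg v.1 (fun h => v.2 (Or.inl h)))
  have hΔt : 2 * (M * M * D * Δ) ≤ t := by
    have h1 : a * Δ ≤ m := by rw [hΔdef]; exact Nat.mul_div_le _ _
    have h2 : (2 * A) * (2 * ((M * M * D + 1) * Δ)) ≤ (2 * A) * t := by
      calc (2 * A) * (2 * ((M * M * D + 1) * Δ)) = a * Δ := by rw [ha]; ring
        _ ≤ m := h1
        _ ≤ 2 * (A * t) := hAt'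
        _ = (2 * A) * t := by ring
    have h3 := Nat.le_of_mul_le_mul_left h2 (by positivity)
    have h4 : 2 * ((M * M * D + 1) * Δ) = 2 * (M * M * D * Δ) + 2 * Δ := by ring
    omega
  have hP2 : M * (M * (D * Δ + 1) + q * (M * D)) ≤ t := by
    have h1 : M * (M * (D * Δ + 1) + q * (M * D)) =
      M * M * D * Δ + (M * M + M * (q * (M * D))) := by ring
    rw [h1]
    omega
  have hP3 : M * (D * Δ + 1) ≤ t := by
    rcases Nat.eq_zero_or_pos M with h0 | h0
    · rw [h0]; omega
    · have h1 : M * (D * Δ + 1) ≤ M * (M * (D * Δ + 1) + q * (M * D)) := by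
        apply Nat.mul_le_mul_left
        exact (Nat.le_mul_of_pos_left _ h0).trans (Nat.le_add_right _ _)
      omega
  obtain ⟨N, hN⟩ : ∃ N, N = C * (8 * t) := ⟨_, rfl⟩
  have hNpos : 0 < N := by rw [hN]; positivity
  -- colouring
  obtain ⟨col0, hcol0⟩ := exists_low_coloring G' D
  let U' : {v : V // ¬ (v ∈ B ∨ v ∈ Lf)} → Prop := fun v => ∃ u ∈ B, G.Adj u v.1
  let col : {v : V // ¬ (v ∈ B ∨ v ∈ Lf)} → Fin q := fun v =>
    if U' v then ⟨(col0 v).1, by have := (col0 v).2; omega⟩
    else ⟨D + 1 + (col0 v).1, by have := (col0 v).2; omega⟩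
  have hcolU : ∀ v, U' v → (col v).1 = (col0 v).1 := by
    intro v hv
    simp only [col, if_pos hv]
  have hcolN : ∀ v, ¬ U' v → (col v).1 = D + 1 + (col0 v).1 := by
    intro v hv
    simp only [col, if_neg hv]
  have hcol : ∀ u v, G'.Adj u v → G'.degree u ≤ D → G'.degree v ≤ D → col u ≠ col v := by
    intro u v huv hu hv heq
    have h1 := hcol0 u v huv hu hv
    have h2 := congrArg Fin.val heq
    by_cases hUu : U' u <;> by_cases hUv : U' v
    · rw [hcolU u hUu, hcolU v hUv] at h2
      exact h1 (Fin.ext h2)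
    · rw [hcolU u hUu, hcolN v hUv] at h2
      have := (col0 u).2
      omega
    · rw [hcolN u hUu, hcolU v hUv] at h2
      have := (col0 v).2
      omega
    · rw [hcolN u hUu, hcolN v hUv] at h2
      exact h1 (Fin.ext (by omega))
  -- allowed sets
  have hRc : Fintype.card {v : V // ¬ (v ∈ B ∨ v ∈ Lf)} ≤ 2 * m :=
    (Fintype.card_subtype_le _).trans hVm
  let Ij : Fin q → Finset {v : V // ¬ (v ∈ B ∨ v ∈ Lf)} := fun j =>
    univ.filter (fun v => ¬ D < G'.degree v ∧ col v = j)
  have hcapN : ∀ j, (Ij j).card + 16 * t ≤ N := by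
    intro j
    have h1 : (Ij j).card ≤ 2 * m := (card_le_univ _).trans hRc
    have h2 : N = 16 * t + 4 * (A * t) := by rw [hN, hC, hA]; ring
    omega
  obtain ⟨allowed, hallowed⟩ := exists_allowed (fun j => (Ij j).card + 16 * t) hcapN
  -- the random colouring
  have hXcard : Fintype.card (Fin H ⊕ (Fin q × Fin N)) = H + q * N := by
    simp
  have hqt8 : q * (8 * t) ≤ m := by
    have h1 : q * (8 * t) ≤ A * t := by
      rw [hA]
      have : q * (8 * t) ≤ q * (8 * t) * (4 * w) := Nat.le_mul_of_pos_right _ (by omega)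
      calc q * (8 * t) ≤ q * (8 * t) * (4 * w) := this
        _ = 32 * q * w * t := by ring
    omega
  have hqN : q * N ≤ C * m := by
    calc q * N = C * (q * (8 * t)) := by rw [hN]; ring
      _ ≤ C * m := Nat.mul_le_mul_left _ hqt8
  have hHm : H ≤ m := by
    have h1 : 2048 * x ≤ 2 * m := by
      refine le_trans ?_ hx
      apply Nat.mul_le_mul_right
      rw [hD]
      have : 1 ≤ w * w := Nat.mul_le_mul hw hw
      nlinarith
    have h2 : 8 * t ≤ m := (Nat.le_mul_of_pos_left _ hqpos).trans hqt8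
    omega
  have hXle : H + q * N ≤ (C + 1) * m := by
    have : (C + 1) * m = C * m + m := by ring
    omega
  have hbig : k * q * (Fintype.card (Fin H ⊕ (Fin q × Fin (C * (8 * t))))) ^ (M * D) <
      2 ^ (8 * t) := by
    have h0 : Fintype.card (Fin H ⊕ (Fin q × Fin (C * (8 * t)))) = H + q * N := by
      rw [hN]; simp
    rw [h0]
    have h1 : H + q * N ≤ (C + 1) * (2 * A) * t := by
      refine hXle.trans ?_
      calc (C + 1) * m ≤ (C + 1) * (2 * (A * t)) := Nat.mul_le_mul_left _ hAt'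
        _ = (C + 1) * (2 * A) * t := by ring
    calc k * q * (H + q * N) ^ (M * D) ≤ k * q * ((C + 1) * (2 * A) * t) ^ (M * D) :=
          Nat.mul_le_mul_left _ (Nat.pow_le_pow_left h1 _)
      _ < 2 ^ t := hn1 t htn1
      _ ≤ 2 ^ (8 * t) := Nat.pow_le_pow_right (by norm_num) (by omega)
  obtain ⟨c, hc⟩ := exists_coloring_gen (X := Fin H ⊕ (Fin q × Fin (C * (8 * t)))) C k q D M
    (8 * t) hkpos hM.le hbig
  subst hN
  obtain ⟨κ, hκ⟩ := exists_sparse_color hkpos c
  let W : Finset (Fin H ⊕ (Fin q × Fin (C * (8 * t)))) :=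
    (univ : Finset (Fin H)).image Sum.inl ∪
    (univ.filter (fun j : Fin q => j.1 < D + 1)).biUnion (fun j =>
      (allowed j).image (fun b => Sum.inr (j, b)))
  obtain ⟨U, hU⟩ : ∃ U, U = (univ.filter (fun v => v ∉ B ∧ v ∉ Lf ∧ ∃ u ∈ B, G.Adj u v)).card :=
    ⟨_, rfl⟩
  have hWc : W.card ≤ H + (U + 16 * t * q) := by
    have h1 : ((univ : Finset (Fin H)).image
        (Sum.inl : Fin H → Fin H ⊕ (Fin q × Fin (C * (8 * t))))).card ≤ H := by
      refine card_image_le.trans ?_
      simp
    have h2 : ((univ.filter (fun j : Fin q => j.1 < D + 1)).biUnion (fun j =>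
      (allowed j).image (fun b => (Sum.inr (j, b) : Fin H ⊕ (Fin q × Fin (C * (8 * t))))))).card ≤
        U + 16 * t * q := by
      calc _ ≤ ∑ j ∈ univ.filter (fun j : Fin q => j.1 < D + 1), ((Ij j).card + 16 * t) := by
            refine card_biUnion_le.trans (Finset.sum_le_sum (fun j _ => ?_))
            exact card_image_le.trans (hallowed j).le
        _ = ∑ j ∈ univ.filter (fun j : Fin q => j.1 < D + 1), (Ij j).card +
            (univ.filter (fun j : Fin q => j.1 < D + 1)).card * (16 * t) := by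
            rw [Finset.sum_add_distrib, Finset.sum_const, smul_eq_mul]
        _ ≤ U + q * (16 * t) := by
            apply Nat.add_le_add
            · rw [← Finset.card_biUnion]
              · rw [hU]
                refine card_le_card_of_injOn Subtype.val ?_ ?_
                · intro v hv
                  rw [mem_coe, mem_biUnion] at hv
                  obtain ⟨j, hj, hvj⟩ := hv
                  rw [mem_filter] at hj
                  simp only [Ij, mem_filter] at hvj
                  rw [mem_coe, mem_filter]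
                  refine ⟨mem_univ _, fun h => v.2 (Or.inl h), fun h => v.2 (Or.inr h), ?_⟩
                  by_contra hcon
                  have h3 := hcolN v hcon
                  rw [hvj.2.2] at h3
                  omega
                · intro u _ v _ huv
                  exact Subtype.ext huv
              · intro j _ j' _ hjj
                rw [Function.onFun, Finset.disjoint_left]
                intro v hv hv'
                simp only [Ij, mem_filter] at hv hv'
                exact hjj (hv.2.2.symm.trans hv'.2.2)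
            · apply Nat.mul_le_mul_right
              refine (card_filter_le _ _).trans ?_
              simp
        _ = U + 16 * t * q := by ring
    exact (card_union_le _ _).trans (Nat.add_le_add h1 h2)
  -- the arrow
  have hArr : Arrows (big (t + B.card) (l + 2 * t) (host c κ) W) G (matchingGraph t) := by
    refine big_arrows G (host c κ) W (t + B.card) (l + 2 * t) t (by omega) B Lf nb hLfB hnb hnb2
      hind (fun u hu => Nat.add_le_add_right (hl u hu) _) le_rfl ?_
    intro S hS
    obtain ⟨φ, h1, h2, h3, h4, h5⟩ := host_robust_gen (t := t) (n := 8 * t) G' c κ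
      (fun j a ha => hc κ j a ha)
      col hcol hΔ (by positivity) allowed
      (fun j => by
        rw [hallowed j]
        show (Ij j).card + 8 * t + (2 * t + q * (M * D)) ≤ (Ij j).card + 16 * t
        omega)
      (by omega)
      (fun j => by
        rw [hallowed j]
        omega)
      (fun j => by
        rw [hallowed j]
        omega) S hS
    refine ⟨φ, h1, h2, fun u v huv => h3 u v huv, ?_⟩
    intro v hv
    by_cases hvD : D < G'.degree v
    · obtain ⟨b, hb⟩ := h4 v hvD
      rw [hb]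
      exact mem_union_left _ (mem_image.2 ⟨b, mem_univ _, rfl⟩)
    · obtain ⟨b, hb, hb2⟩ := h5 v hvD
      rw [hb2]
      refine mem_union_right _ (mem_biUnion.2 ⟨col v, ?_, mem_image.2 ⟨b, hb, rfl⟩⟩)
      rw [mem_filter]
      refine ⟨mem_univ _, ?_⟩
      rw [hcolU v hv]
      exact (col0 v).2
  refine ⟨t, ht1, ?_⟩
  have hfin1 := sizeRamsey_le hArr
  have hfin2 := big_edge_card_le (h := t + B.card) (L := l + 2 * t) (host c κ) W
  have hfin3 := host_edge_card_le c κ
  set E := (univ.filter (fun p : (Fin q × Fin (C * (8 * t))) ×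
    (Fin H ⊕ (Fin q × Fin (C * (8 * t)))) => c p.1 p.2 = κ)).card with hE
  have hkE : k * E ≤ (C * m) * ((C + 1) * m) := by
    refine hκ.trans ?_
    rw [hXcard]
    have h1 : Fintype.card (Fin q × Fin (C * (8 * t))) = q * (C * (8 * t)) := by simp
    rw [h1]
    exact Nat.mul_le_mul hqN hXle
  have hfin : sizeRamsey G (matchingGraph t) ≤
      (t + B.card) * ((l + 2 * t) + W.card) + (H * H + E) := by
    refine hfin1.trans (hfin2.trans ?_)
    omega
  have harith := arith w q D C k A t m x H E B.card l U W.card (t + B.card) (l + 2 * t)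
    hw hq hD hk hC hA hAt hAt' hx hH hkE (by
      have : 7 * w * B.card ≤ 7 * w * (2 * a) := Nat.mul_le_mul_left _ hBc
      have h2 : 7 * w * (2 * a) = 14 * w * a := by ring
      omega) hlm (by
      rw [hU]
      exact (card_le_univ _).trans hVm) hWc rfl rfl
  rw [← hU]
  exact (Nat.mul_le_mul_left _ hfin).trans harith

end Pool.Agent.H79.SR
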