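import Mathlib

namespace Pool.Agent.H79.SR

open Finset

/-- the arithmetic of the parameters, with `b` classes of hubs. -/
theorem arith2 (w v P q D C k A t m x H E b h s : ℕ) (hv : 1 ≤ v) (hw : w = v * (b + 3) ^ 2)
    (hP : 1 ≤ P)
    (hq : q = P * (D + 1)) (hD : D = 1024 * P * w * w)
    (hk : k = 64 * q * w * w * C * (C + 1)) (hC : C = 2 + 16 * q * w)
    (hA : A = 32 * q * w) (hAt : A * t ≤ m) (hAt' : m ≤ 2 * (A * t)) (hx : D * x ≤ 2 * m)
    (hH : H = x + 3 * t) (hE : k * E ≤ (C * m) * ((C + 1) * m)) (hh : h ≤ 3 * t) :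
    v * ((b * t + h) * (b * t + h) + b * (t * (H + 16 * t * q)) + h * (H + s + 16 * t * q) +
      (H * H + E)) ≤ 7 * t * m + 3 * v * t * s := by
  have hw1 : 1 ≤ w := by
    rw [hw]
    exact Nat.one_le_iff_ne_zero.2 (by positivity)
  have hDpos : 0 < D := by rw [hD]; positivity
  have hq1 : 1 ≤ q := by rw [hq]; exact Nat.one_le_iff_ne_zero.2 (by positivity)
  have hA1 : 32 * (q * w * t) ≤ m := by
    have : 32 * (q * w * t) = A * t := by rw [hA]; ring
    omega
  have hwt : 32 * (w * t) ≤ m := by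
    have : w * t ≤ q * (w * t) := Nat.le_mul_of_pos_left _ hq1
    have h2 : q * (w * t) = q * w * t := by ring
    omega
  have hwx : 512 * (w * (w * x)) ≤ m := by
    have h1 : D * x = P * (2 * (512 * (w * (w * x)))) := by rw [hD]; ring
    have h2 : 2 * (512 * (w * (w * x))) ≤ P * (2 * (512 * (w * (w * x)))) :=
      Nat.le_mul_of_pos_left _ hP
    omega
  have hwx1 : w * x ≤ m := by
    have : w * x ≤ w * (w * x) := Nat.le_mul_of_pos_left _ hw1
    omega
  have hCpos : 0 < C := by omega
  have hE' : w * E ≤ m * t := by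
    have h1 : k * E ≤ (C * (C + 1)) * (m * (2 * (A * t))) := by
      calc k * E ≤ (C * m) * ((C + 1) * m) := hE
        _ = (C * (C + 1)) * (m * m) := by ring
        _ ≤ (C * (C + 1)) * (m * (2 * (A * t))) :=
          Nat.mul_le_mul_left _ (Nat.mul_le_mul_left _ hAt')
    have h2 : k * E = (64 * q * w * C * (C + 1)) * (w * E) := by rw [hk]; ring
    have h3 : (C * (C + 1)) * (m * (2 * (A * t))) = (64 * q * w * C * (C + 1)) * (m * t) := by
      rw [hA]; ring
    rw [h2, h3] at h1
    exact Nat.le_of_mul_le_mul_left h1 (by positivity)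
  have hx2 : 2 * (w * (x * x)) ≤ m * t := by
    have h1 : (D * x) * (D * x) ≤ (2 * m) * (2 * m) := Nat.mul_le_mul hx hx
    have h2 : (2 * m) * (2 * m) ≤ 4 * (m * (2 * (A * t))) := by
      have : m * m ≤ m * (2 * (A * t)) := Nat.mul_le_mul_left _ hAt'
      nlinarith
    have h3 : 4 * (m * (2 * (A * t))) = 256 * q * w * (m * t) := by rw [hA]; ring
    have hqD : q ≤ 2 * (P * D) := by
      rw [hq]
      have : P * (D + 1) ≤ P * (2 * D) := Nat.mul_le_mul_left _ (by omega)
      calc P * (D + 1) ≤ P * (2 * D) := this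
        _ = 2 * (P * D) := by ring
    have h4 : 256 * q * w * (m * t) ≤ 256 * (2 * (P * D)) * w * (m * t) := by
      apply Nat.mul_le_mul_right
      apply Nat.mul_le_mul_right
      exact Nat.mul_le_mul_left _ hqD
    have h5 : D * (D * (x * x)) ≤ D * (512 * P * w * (m * t)) := by
      calc D * (D * (x * x)) = (D * x) * (D * x) := by ring
        _ ≤ 256 * (2 * (P * D)) * w * (m * t) := by omega
        _ = D * (512 * P * w * (m * t)) := by ring
    have h6 := Nat.le_of_mul_le_mul_left h5 hDpos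
    have h7 : D * (x * x) = (512 * P * w) * (2 * (w * (x * x))) := by rw [hD]; ring
    have h8 : 512 * P * w * (m * t) = (512 * P * w) * (m * t) := by ring
    rw [h7, h8] at h6
    exact Nat.le_of_mul_le_mul_left h6 (by positivity)
  have hHH : w * (H * H) ≤ 2 * (m * t) := by
    have h1 : H * H ≤ 2 * (x * x) + 18 * (t * t) := by
      rw [hH]
      zify
      nlinarith [sq_nonneg ((x : ℤ) - 3 * t)]
    have h2 : w * (18 * (t * t)) ≤ m * t := by
      calc w * (18 * (t * t)) = (18 * (w * t)) * t := by ring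
        _ ≤ m * t := Nat.mul_le_mul_right _ (by omega)
    calc w * (H * H) ≤ w * (2 * (x * x) + 18 * (t * t)) := Nat.mul_le_mul_left _ h1
      _ = 2 * (w * (x * x)) + w * (18 * (t * t)) := by ring
      _ ≤ m * t + m * t := Nat.add_le_add hx2 h2
      _ = 2 * (m * t) := by ring
  have hlin : w * (H + 16 * t * q) ≤ 2 * m := by
    have h1 : w * (H + 16 * t * q) = 3 * (w * t) + w * x + 16 * (q * w * t) := by
      rw [hH]; ring
    have h2 : w * x ≤ w * (w * x) := Nat.le_mul_of_pos_left _ hw1
    omega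
  -- the factor `c = (b + 3) ^ 2`
  obtain ⟨c, hc⟩ : ∃ c, c = (b + 3) ^ 2 := ⟨_, rfl⟩
  have hwc : w = v * c := by rw [hw, hc]
  have hc9 : 9 ≤ c := by
    rw [hc]
    have := Nat.pow_le_pow_left (by omega : 3 ≤ b + 3) 2
    omega
  have hcpos : 0 < c := by omega
  -- multiply everything by `c`
  have hsq : (b * t + h) * (b * t + h) ≤ c * (t * t) := by
    have h1 : b * t + h ≤ (b + 3) * t := by
      have : (b + 3) * t = b * t + 3 * t := by ring
      omega
    calc (b * t + h) * (b * t + h) ≤ ((b + 3) * t) * ((b + 3) * t) := Nat.mul_le_mul h1 h1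
      _ = c * (t * t) := by rw [hc]; ring
  have hg1 : v * ((b * t + h) * (b * t + h)) ≤ m * t := by
    calc v * ((b * t + h) * (b * t + h)) ≤ v * (c * (t * t)) := Nat.mul_le_mul_left _ hsq
      _ = (w * t) * t := by rw [hwc]; ring
      _ ≤ m * t := Nat.mul_le_mul_right _ (by omega)
  have hbc : b + 3 ≤ c := by
    rw [hc, sq]
    exact Nat.le_mul_of_pos_left _ (by omega)
  have hg2 : v * (b * (t * (H + 16 * t * q)) + h * (H + 16 * t * q)) ≤ 2 * (m * t) := by
    calc v * (b * (t * (H + 16 * t * q)) + h * (H + 16 * t * q))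
        ≤ v * (b * (t * (H + 16 * t * q)) + (3 * t) * (H + 16 * t * q)) := by
          apply Nat.mul_le_mul_left
          exact Nat.add_le_add_left (Nat.mul_le_mul_right _ hh) _
      _ = (v * (b + 3)) * (t * (H + 16 * t * q)) := by ring
      _ ≤ (v * c) * (t * (H + 16 * t * q)) :=
          Nat.mul_le_mul_right _ (Nat.mul_le_mul_left _ hbc)
      _ = t * (w * (H + 16 * t * q)) := by rw [hwc]; ring
      _ ≤ t * (2 * m) := Nat.mul_le_mul_left _ hlin
      _ = 2 * (m * t) := by ring
  have hvw : v ≤ w := by rw [hwc]; exact Nat.le_mul_of_pos_right _ hcpos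
  have hg3 : v * (H * H + E) ≤ 3 * (m * t) := by
    calc v * (H * H + E) ≤ w * (H * H + E) := Nat.mul_le_mul_right _ hvw
      _ = w * (H * H) + w * E := by ring
      _ ≤ 3 * (m * t) := by omega
  have hg4 : v * (h * s) ≤ 3 * v * t * s := by
    calc v * (h * s) ≤ v * ((3 * t) * s) := Nat.mul_le_mul_left _ (Nat.mul_le_mul_right _ hh)
      _ = 3 * v * t * s := by ring
  calc v * ((b * t + h) * (b * t + h) + b * (t * (H + 16 * t * q)) + h * (H + s + 16 * t * q) +
      (H * H + E))
      = v * ((b * t + h) * (b * t + h)) +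
        v * (b * (t * (H + 16 * t * q)) + h * (H + 16 * t * q)) + v * (H * H + E) +
        v * (h * s) := by ring
    _ ≤ m * t + 2 * (m * t) + 3 * (m * t) + 3 * v * t * s := by omega
    _ ≤ 7 * t * m + 3 * v * t * s := by
        have : m * t + 2 * (m * t) + 3 * (m * t) = 6 * t * m := by ring
        rw [this]
        have h2 : 6 * t * m ≤ 7 * t * m := by
          apply Nat.mul_le_mul_right
          omega
        omega

end Pool.Agent.H79.SR
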