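import Pool.Agent.H79.SR.Main2
import Pool.Agent.H79.SR.Emb4
import Pool.Agent.H79.SR.Leaf

namespace Pool.Agent.H79.SR

open Finset SimpleGraph Pool.Agent.Helper539

universe u

/-- the host with several non-adjacent hubs in a common class and private leaves. -/
theorem main4 (v b : ℕ) (hv : 1 ≤ v) (hb : 1 ≤ b) : ∃ a m₀ : ℕ, 0 < a ∧ b ≤ 2 * a ∧
    ∀ (V : Type u) [Fintype V] [DecidableEq V] (G : SimpleGraph V) [DecidableRel G.Adj]
    (B I Lf : Finset V) (nb : V → V) (nm : V → Fin b) (Nn l : Fin b → ℕ), m₀ ≤ G.edgeSet.ncard → Fintype.card V ≤ 2 * G.edgeSet.ncard →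
    Disjoint B I → B.card ≤ b → I.card ≤ 2 * a →
    (∀ x, x ∉ B → x ∉ I → a * G.degree x ≤ G.edgeSet.ncard) →
    (∀ u ∈ B, ∀ v ∈ B, G.Adj u v → nm u ≠ nm v) →
    (∀ i, (univ.filter (fun x => x ∉ Lf ∧ ∃ u ∈ B, nm u = i ∧ G.Adj u x)).card ≤ Nn i) →
    ∑ i, Nn i ≤ 2 * G.edgeSet.ncard →
    (∀ x ∈ Lf, x ∉ B) → (∀ x ∈ Lf, nb x ∈ B) → (∀ x ∈ Lf, ∀ y, G.Adj x y → y = nb x) →
    (∀ u ∈ B, (Lf.filter (fun x => nb x = u)).card ≤ l (nm u)) →
    ∑ i, l i ≤ 2 * G.edgeSet.ncard →
    ∃ t : ℕ, 1 ≤ t ∧ v * sizeRamsey G (matchingGraph t) ≤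
      v * (t * (∑ i, Nn i + ∑ i, l i)) + (10 * t * G.edgeSet.ncard +
        3 * v * t * ∑ u ∈ I, G.degree u) := by
  classical
  obtain ⟨w, hw⟩ : ∃ w, w = v * (2 * b + 3) ^ 2 := ⟨_, rfl⟩
  have hw1 : 1 ≤ w := by
    rw [hw]
    exact Nat.one_le_iff_ne_zero.2 (by positivity)
  obtain ⟨P, hP⟩ : ∃ P, P = 2 ^ b * 2 := ⟨_, rfl⟩
  have hP1 : 1 ≤ P := by
    rw [hP]
    exact Nat.one_le_iff_ne_zero.2 (by positivity)
  obtain ⟨D, hD⟩ : ∃ D, D = 1024 * P * w * w := ⟨_, rfl⟩
  obtain ⟨q, hq⟩ : ∃ q, q = P * (D + 1) := ⟨_, rfl⟩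
  obtain ⟨C, hC⟩ : ∃ C, C = 2 + 16 * q * w := ⟨_, rfl⟩
  obtain ⟨A, hA⟩ : ∃ A, A = 32 * q * w := ⟨_, rfl⟩
  obtain ⟨k, hk⟩ : ∃ k, k = 64 * q * w * w * C * (C + 1) := ⟨_, rfl⟩
  have hqpos : 0 < q := by rw [hq]; positivity
  have hCpos : 0 < C := by omega
  have hDpos : 0 < D := by rw [hD]; positivity
  have hApos : 0 < A := by rw [hA]; positivity
  have hkpos : 0 < k := by rw [hk]; positivity
  have hk1 : (1 : ℝ) ≤ k := by exact_mod_cast hkpos
  have hkD : (0 : ℝ) < (k : ℝ) ^ D := by positivity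
  obtain ⟨M, hM⟩ : ∃ M : ℕ, (1 - 1 / (k : ℝ) ^ D) ^ M < (1 / 2) ^ (C + 1) := by
    apply exists_pow_lt_of_lt_one (by positivity)
    have : (0 : ℝ) < 1 / (k : ℝ) ^ D := by positivity
    linarith
  obtain ⟨n1, hn1⟩ := eventually_poly_lt_exp (k * q) ((C + 1) * (2 * A)) (M * D)
  obtain ⟨a, ha⟩ : ∃ a, a = 4 * A * (M * M * D + 1) := ⟨_, rfl⟩
  have hapos : 0 < a := by rw [ha]; positivity
  obtain ⟨T0, hT0⟩ : ∃ T0, T0 = max n1 (max (2 * (M * M + M * (q * (M * D))))
    (max (q * (M * D)) (max (2 * a + 2 * v * b) 1))) := ⟨_, rfl⟩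
  have hba : b ≤ 2 * a := by
    have h1 : b ≤ w := by
      rw [hw]
      calc b ≤ (2 * b + 3) ^ 2 := by nlinarith
        _ ≤ v * (2 * b + 3) ^ 2 := Nat.le_mul_of_pos_left _ hv
    have h2 : w ≤ A := by
      rw [hA]
      exact Nat.le_mul_of_pos_left _ (by positivity)
    have h3 : A ≤ a := by
      rw [ha]
      calc A ≤ A * (4 * (M * M * D + 1)) := Nat.le_mul_of_pos_right _ (by positivity)
        _ = 4 * A * (M * M * D + 1) := by ring
    omega
  refine ⟨a, A * T0, hapos, hba, ?_⟩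
  intro V _ _ G _ B I Lf nb nm Nn l hm0 hVm hBI hBc hIc hdeg hnm hNn hNs hLfB hnb hnb2 hlf hls
  set m := G.edgeSet.ncard with hmdef
  obtain ⟨t, ht⟩ : ∃ t, t = m / A := ⟨_, rfl⟩
  have htT : T0 ≤ t := by
    rw [ht, Nat.le_div_iff_mul_le hApos, mul_comm]
    exact hm0
  have htn1 : n1 ≤ t := (by rw [hT0]; exact le_max_left _ _ : n1 ≤ T0).trans htT
  have htM : 2 * (M * M + M * (q * (M * D))) ≤ t := by
    refine le_trans ?_ htT
    rw [hT0]
    exact (le_max_left _ _).trans (le_max_right _ _)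
  have htq : q * (M * D) ≤ t := by
    refine le_trans ?_ htT
    rw [hT0]
    exact (le_max_left _ _).trans ((le_max_right _ _).trans (le_max_right _ _))
  have hta : 2 * a + 2 * v * b ≤ t := by
    refine le_trans ?_ htT
    rw [hT0]
    exact (le_max_left _ _).trans ((le_max_right _ _).trans ((le_max_right _ _).trans
      (le_max_right _ _)))
  have ht1 : 1 ≤ t := by
    refine le_trans ?_ htT
    rw [hT0]
    exact (le_max_right _ _).trans ((le_max_right _ _).trans ((le_max_right _ _).trans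
      (le_max_right _ _)))
  have hAt : A * t ≤ m := by rw [ht]; exact Nat.mul_div_le m A
  have hAt2 : m < A * (t + 1) := by rw [ht]; exact Nat.lt_mul_div_succ m hApos
  have hAt' : m ≤ 2 * (A * t) := by
    have : A * 1 ≤ A * t := Nat.mul_le_mul_left _ ht1
    have h2 : A * (t + 1) = A * t + A * 1 := by ring
    omega
  -- the graph on the remaining vertices
  let G' : SimpleGraph {v : V // ¬ (v ∈ B ∨ v ∈ I)} := G.comap Subtype.val
  have hadj' : ∀ u v : {v : V // ¬ (v ∈ B ∨ v ∈ I)}, G'.Adj u v ↔ G.Adj u.1 v.1 :=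
    fun u v => Iff.rfl
  have hdeg' : ∀ v : {v : V // ¬ (v ∈ B ∨ v ∈ I)}, G'.degree v ≤ G.degree v.1 := by
    intro v
    rw [← SimpleGraph.card_neighborFinset_eq_degree, ← SimpleGraph.card_neighborFinset_eq_degree]
    refine card_le_card_of_injOn Subtype.val ?_ ?_
    · intro u hu
      rw [mem_coe, SimpleGraph.mem_neighborFinset] at hu ⊢
      exact hu
    · intro u _ u' _ h
      exact Subtype.ext h
  have hsum : ∑ v, G'.degree v ≤ 2 * m := by
    calc ∑ v, G'.degree v ≤ ∑ v : {v : V // ¬ (v ∈ B ∨ v ∈ I)}, G.degree v.1 :=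
          Finset.sum_le_sum (fun v _ => hdeg' v)
      _ = ∑ v ∈ (univ : Finset {v : V // ¬ (v ∈ B ∨ v ∈ I)}).map
            (Function.Embedding.subtype _), G.degree v := by
          rw [Finset.sum_map]
          rfl
      _ ≤ ∑ v, G.degree v := Finset.sum_le_sum_of_subset (subset_univ _)
      _ = 2 * G.edgeFinset.card := G.sum_degrees_eq_twice_card_edges
      _ = 2 * m := by
          rw [hmdef, ← Set.ncard_coe_finset]
          simp
  obtain ⟨x, hxdef⟩ : ∃ x, x = 2 * m / D := ⟨_, rfl⟩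
  have hx : D * x ≤ 2 * m := by rw [hxdef]; exact Nat.mul_div_le _ _
  have hhigh : (univ.filter (fun v => D < G'.degree v)).card ≤ x := by
    rw [hxdef, Nat.le_div_iff_mul_le hDpos]
    calc (univ.filter (fun v => D < G'.degree v)).card * D
        ≤ ∑ v ∈ univ.filter (fun v => D < G'.degree v), G'.degree v := by
          rw [← smul_eq_mul]
          apply Finset.card_nsmul_le_sum
          intro v hv
          rw [mem_filter] at hv
          exact hv.2.le
      _ ≤ ∑ v, G'.degree v := Finset.sum_le_sum_of_subset (filter_subset _ _)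
      _ ≤ 2 * m := hsum
  obtain ⟨H, hH⟩ : ∃ H, H = x + 3 * t := ⟨_, rfl⟩
  obtain ⟨Δ, hΔdef⟩ : ∃ Δ, Δ = m / a := ⟨_, rfl⟩
  have hΔ : ∀ v, G'.degree v ≤ Δ := by
    intro v
    rw [hΔdef, Nat.le_div_iff_mul_le hapos, mul_comm]
    refine (Nat.mul_le_mul_left _ (hdeg' v)).trans (hdeg v.1 (fun h => v.2 (Or.inl h)) (fun h => v.2 (Or.inr h)))
  have hΔt : 2 * (M * M * D * Δ) ≤ t := by
    have h1 : a * Δ ≤ m := by rw [hΔdef]; exact Nat.mul_div_le _ _
    have h2 : (2 * A) * (2 * ((M * M * D + 1) * Δ)) ≤ (2 * A) * t := by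
      calc (2 * A) * (2 * ((M * M * D + 1) * Δ)) = a * Δ := by rw [ha]; ring
        _ ≤ m := h1
        _ ≤ 2 * (A * t) := hAt'
        _ = (2 * A) * t := by ring
    have h3 := Nat.le_of_mul_le_mul_left h2 (by positivity)
    have h4 : 2 * ((M * M * D + 1) * Δ) = 2 * (M * M * D * Δ) + 2 * Δ := by ring
    omega
  have hP2 : M * (M * (D * Δ + 1) + q * (M * D)) ≤ t := by
    have h1 : M * (M * (D * Δ + 1) + q * (M * D)) =
      M * M * D * Δ + (M * M + M * (q * (M * D))) := by ring
    rw [h1]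
    omega
  have hP3 : M * (D * Δ + 1) ≤ t := by
    rcases Nat.eq_zero_or_pos M with h0 | h0
    · rw [h0]; omega
    · have h1 : M * (D * Δ + 1) ≤ M * (M * (D * Δ + 1) + q * (M * D)) := by
        apply Nat.mul_le_mul_left
        exact (Nat.le_mul_of_pos_left _ h0).trans (Nat.le_add_right _ _)
      omega
  obtain ⟨N, hN⟩ : ∃ N, N = C * (8 * t) := ⟨_, rfl⟩
  have hNpos : 0 < N := by rw [hN]; positivity
  -- colouring
  obtain ⟨col0, hcol0⟩ := exists_low_coloring G' D
  have hcardT : Fintype.card (((Fin b → Bool) × Bool) × Fin (D + 1)) = q := by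
    rw [hq, hP]
    simp
  let e : (((Fin b → Bool) × Bool) × Fin (D + 1)) ≃ Fin q := Fintype.equivFinOfCardEq hcardT
  let col : {v : V // ¬ (v ∈ B ∨ v ∈ I)} → Fin q := fun v =>
    e ((fun i => decide (v.1 ∉ Lf ∧ ∃ u ∈ B.filter (fun u => nm u = i), G.Adj u v.1),
      decide (∃ u ∈ I, G.Adj u v.1)), col0 v)
  have hcol1 : ∀ v i, (e.symm (col v)).1.1 i = true ↔
      (v.1 ∉ Lf ∧ ∃ u ∈ B.filter (fun u => nm u = i), G.Adj u v.1) := by
    intro v i
    simp only [col, Equiv.symm_apply_apply, decide_eq_true_eq]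
  have hcol2 : ∀ v, (e.symm (col v)).1.2 = true ↔ ∃ u ∈ I, G.Adj u v.1 := by
    intro v
    simp only [col, Equiv.symm_apply_apply, decide_eq_true_eq]
  have hcol : ∀ u v, G'.Adj u v → G'.degree u ≤ D → G'.degree v ≤ D → col u ≠ col v := by
    intro u v huv hu hv heq
    have h1 := hcol0 u v huv hu hv
    have h2 := e.injective heq
    rw [Prod.mk.injEq] at h2
    exact h1 h2.2
  -- allowed sets
  have hRc : Fintype.card {v : V // ¬ (v ∈ B ∨ v ∈ I)} ≤ 2 * m :=
    (Fintype.card_subtype_le _).trans hVm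
  let Ij : Fin q → Finset {v : V // ¬ (v ∈ B ∨ v ∈ I)} := fun j =>
    univ.filter (fun v => ¬ D < G'.degree v ∧ col v = j)
  have hcapN : ∀ j, (Ij j).card + 16 * t ≤ N := by
    intro j
    have h1 : (Ij j).card ≤ 2 * m := (card_le_univ _).trans hRc
    have h2 : N = 16 * t + 4 * (A * t) := by rw [hN, hC, hA]; ring
    omega
  obtain ⟨allowed, hallowed⟩ := exists_allowed (fun j => (Ij j).card + 16 * t) hcapN
  -- the random colouring
  have hXcard : Fintype.card (Fin H ⊕ (Fin q × Fin N)) = H + q * N := by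
    simp
  have hqt8 : q * (8 * t) ≤ m := by
    have h1 : q * (8 * t) ≤ A * t := by
      rw [hA]
      have : q * (8 * t) ≤ q * (8 * t) * (4 * w) := Nat.le_mul_of_pos_right _ (by positivity)
      calc q * (8 * t) ≤ q * (8 * t) * (4 * w) := this
        _ = 32 * q * w * t := by ring
    omega
  have hqN : q * N ≤ C * m := by
    calc q * N = C * (q * (8 * t)) := by rw [hN]; ring
      _ ≤ C * m := Nat.mul_le_mul_left _ hqt8
  have hHm : H ≤ m := by
    have h1 : 1024 * x ≤ 2 * m := by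
      refine le_trans ?_ hx
      apply Nat.mul_le_mul_right
      rw [hD]
      calc 1024 ≤ 1024 * (P * w * w) := Nat.le_mul_of_pos_right _ (by positivity)
        _ = 1024 * P * w * w := by ring
    have h2 : 8 * t ≤ m := (Nat.le_mul_of_pos_left _ hqpos).trans hqt8
    omega
  have hXle : H + q * N ≤ (C + 1) * m := by
    have : (C + 1) * m = C * m + m := by ring
    omega
  have hbig : k * q * (Fintype.card (Fin H ⊕ (Fin q × Fin (C * (8 * t))))) ^ (M * D) <
      2 ^ (8 * t) := by
    have h0 : Fintype.card (Fin H ⊕ (Fin q × Fin (C * (8 * t)))) = H + q * N := by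
      rw [hN]; simp
    rw [h0]
    have h1 : H + q * N ≤ (C + 1) * (2 * A) * t := by
      refine hXle.trans ?_
      calc (C + 1) * m ≤ (C + 1) * (2 * (A * t)) := Nat.mul_le_mul_left _ hAt'
        _ = (C + 1) * (2 * A) * t := by ring
    calc k * q * (H + q * N) ^ (M * D) ≤ k * q * ((C + 1) * (2 * A) * t) ^ (M * D) :=
          Nat.mul_le_mul_left _ (Nat.pow_le_pow_left h1 _)
      _ < 2 ^ t := hn1 t htn1
      _ ≤ 2 ^ (8 * t) := Nat.pow_le_pow_right (by norm_num) (by omega)
  obtain ⟨c, hc⟩ := exists_coloring_gen (X := Fin H ⊕ (Fin q × Fin (C * (8 * t)))) C k q D M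
    (8 * t) hkpos hM.le hbig
  subst hN
  obtain ⟨κ, hκ⟩ := exists_sparse_color hkpos c
  let WW : (Fin q → Bool) → Finset (Fin H ⊕ (Fin q × Fin (C * (8 * t)))) := fun p =>
    (univ : Finset (Fin H)).image Sum.inl ∪
    (univ.filter (fun j : Fin q => p j = true)).biUnion (fun j =>
      (allowed j).image (fun b => Sum.inr (j, b)))
  have hWW : ∀ (p : Fin q → Bool) (s : ℕ), (univ.filter (fun v => p (col v) = true)).card ≤ s →
      (WW p).card ≤ H + (s + 16 * t * q) := by
    intro p s hs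
    have h1 : ((univ : Finset (Fin H)).image
        (Sum.inl : Fin H → Fin H ⊕ (Fin q × Fin (C * (8 * t))))).card ≤ H := by
      refine card_image_le.trans ?_
      simp
    have h2 : ((univ.filter (fun j : Fin q => p j = true)).biUnion (fun j =>
      (allowed j).image (fun b => (Sum.inr (j, b) : Fin H ⊕ (Fin q × Fin (C * (8 * t))))))).card ≤
        s + 16 * t * q := by
      calc _ ≤ ∑ j ∈ univ.filter (fun j : Fin q => p j = true), ((Ij j).card + 16 * t) := by
            refine card_biUnion_le.trans (Finset.sum_le_sum (fun j _ => ?_))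
            exact card_image_le.trans (hallowed j).le
        _ = ∑ j ∈ univ.filter (fun j : Fin q => p j = true), (Ij j).card +
            (univ.filter (fun j : Fin q => p j = true)).card * (16 * t) := by
            rw [Finset.sum_add_distrib, Finset.sum_const, smul_eq_mul]
        _ ≤ s + q * (16 * t) := by
            apply Nat.add_le_add
            · rw [← Finset.card_biUnion]
              · refine le_trans (card_le_card ?_) hs
                intro v hv
                rw [mem_biUnion] at hv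
                obtain ⟨j, hj, hvj⟩ := hv
                rw [mem_filter] at hj
                simp only [Ij, mem_filter] at hvj
                rw [mem_filter]
                refine ⟨mem_univ _, ?_⟩
                rw [hvj.2.2]
                exact hj.2
              · intro j _ j' _ hjj
                rw [Function.onFun, Finset.disjoint_left]
                intro v hv hv'
                simp only [Ij, mem_filter] at hv hv'
                exact hjj (hv.2.2.symm.trans hv'.2.2)
            · apply Nat.mul_le_mul_right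
              refine (card_filter_le _ _).trans ?_
              simp
        _ = s + 16 * t * q := by ring
    exact (card_union_le _ _).trans (Nat.add_le_add h1 h2)
  let W : Fin b → Finset (Fin H ⊕ (Fin q × Fin (C * (8 * t)))) := fun i =>
    WW (fun j => (e.symm j).1.1 i)
  let WI : Finset (Fin H ⊕ (Fin q × Fin (C * (8 * t)))) := WW (fun j => (e.symm j).1.2)
  have hWc : ∀ i, (W i).card ≤ H + (Nn i + 16 * t * q) := by
    intro i
    apply hWW
    refine le_trans ?_ (hNn i)
    refine card_le_card_of_injOn Subtype.val ?_ ?_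
    · intro v hv
      rw [mem_coe, mem_filter] at hv ⊢
      obtain ⟨hvL, u, hu, huv⟩ := (hcol1 v i).1 hv.2
      rw [mem_filter] at hu
      exact ⟨mem_univ _, hvL, u, hu.1, hu.2, huv⟩
    · intro u _ v _ huv
      exact Subtype.ext huv
  have hWIc : WI.card ≤ H + ((∑ u ∈ I, G.degree u) + 16 * t * q) := by
    apply hWW
    refine le_trans (card_le_card ?_) (card_nbrs_le G (fun v => ¬ (v ∈ B ∨ v ∈ I)) _)
    intro v hv
    rw [mem_filter] at hv ⊢
    exact ⟨mem_univ _, (hcol2 v).1 hv.2⟩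
  -- the arrow
  have hArr : Arrows (hl ((∑ i, l i) + 2 * t) (bl b (t + b) (2 * t + I.card) (host c κ) W WI)
      (fun i => l i + 2 * t)) G (matchingGraph t) := by
    refine hl_arrows G ((∑ i, l i) + 2 * t) t (bl b (t + b) (2 * t + I.card) (host c κ) W WI)
      (fun j i i' hh => (show j ≠ j from hh) rfl) (fun i => l i + 2 * t) l (fun i => rfl)
      (fun i => Nat.add_le_add_right
        (Finset.single_le_sum (f := l) (fun _ _ => Nat.zero_le _) (mem_univ i)) _)
      B Lf nm nb hLfB hnb hnb2 hlf ?_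
    intro S0 hS01 hS02
    refine bl_embed4 G (host c κ) b t b (2 * t + I.card) W WI B I Lf hBI nm hnm hBc le_rfl ?_
      S0 hS01 hS02
    intro S hS
    obtain ⟨φ, h1, h2, h3, h4, h5⟩ := host_robust_gen (t := t) (n := 8 * t) G' c κ
      (fun j a ha => hc κ j a ha)
      col hcol hΔ (by positivity) allowed
      (fun j => by
        rw [hallowed j]
        show (Ij j).card + 8 * t + (2 * t + q * (M * D)) ≤ (Ij j).card + 16 * t
        omega)
      (by omega)
      (fun j => by
        rw [hallowed j]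
        omega)
      (fun j => by
        rw [hallowed j]
        omega) S hS
    have hmem : ∀ (p : Fin q → Bool) v, p (col v) = true → φ v ∈ WW p := by
      intro p v hv
      by_cases hvD : D < G'.degree v
      · obtain ⟨b, hb⟩ := h4 v hvD
        rw [hb]
        exact mem_union_left _ (mem_image.2 ⟨b, mem_univ _, rfl⟩)
      · obtain ⟨b, hb, hb2⟩ := h5 v hvD
        rw [hb2]
        refine mem_union_right _ (mem_biUnion.2 ⟨col v, ?_, mem_image.2 ⟨b, hb, rfl⟩⟩)
        rw [mem_filter]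
        exact ⟨mem_univ _, hv⟩
    refine ⟨φ, h1, h2, fun u v huv => h3 u v huv, ?_, ?_⟩
    · intro v hvL u hu huv
      apply hmem
      rw [hcol1]
      exact ⟨hvL, u, mem_filter.2 ⟨hu, rfl⟩, huv⟩
    · intro v hv
      apply hmem
      rw [hcol2]
      exact hv
  refine ⟨t, ht1, ?_⟩
  have hfin1 := sizeRamsey_le hArr
  have hfin0 := hl_edge_card_le (Lm := (∑ i, l i) + 2 * t)
    (bl b (t + b) (2 * t + I.card) (host c κ) W WI) (fun i => l i + 2 * t)
  have hfin2 := bl_edge_card_le (b := b) (t := t + b) (h := 2 * t + I.card) (host c κ) W WI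
  have hfin3 := host_edge_card_le c κ
  set E := (univ.filter (fun p : (Fin q × Fin (C * (8 * t))) ×
    (Fin H ⊕ (Fin q × Fin (C * (8 * t)))) => c p.1 p.2 = κ)).card with hE
  have hkE : k * E ≤ (C * m) * ((C + 1) * m) := by
    refine hκ.trans ?_
    rw [hXcard]
    have h1 : Fintype.card (Fin q × Fin (C * (8 * t))) = q * (C * (8 * t)) := by simp
    rw [h1]
    exact Nat.mul_le_mul hqN hXle
  obtain ⟨h, hh⟩ : ∃ h, h = 2 * t + I.card := ⟨_, rfl⟩
  obtain ⟨s, hs⟩ : ∃ s, s = ∑ u ∈ I, G.degree u := ⟨_, rfl⟩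
  obtain ⟨σ, hσ⟩ : ∃ σ, σ = ∑ i, Nn i := ⟨_, rfl⟩
  obtain ⟨lam, hlam⟩ : ∃ lam, lam = ∑ i, l i := ⟨_, rfl⟩
  rw [← hh] at hfin2 hfin1 hfin0
  rw [← hs] at hWIc ⊢
  rw [← hσ] at hNs ⊢
  rw [← hlam] at hls hfin1 hfin0 ⊢
  have h2vb : 2 * v * b ≤ t := by omega
  have hbt : b ≤ t := by
    have : b ≤ 2 * v * b := Nat.le_mul_of_pos_left _ (by positivity)
    omega
  have hsumW : ∑ i, (t + b) * (W i).card ≤ (t + b) * σ + 2 * b * (t * (H + 16 * t * q)) := by
    calc ∑ i, (t + b) * (W i).card
        ≤ ∑ i : Fin b, ((t + b) * Nn i + (t + b) * (H + 16 * t * q)) := by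
          apply Finset.sum_le_sum
          intro i _
          rw [← Nat.mul_add]
          apply Nat.mul_le_mul_left
          have := hWc i
          omega
      _ = (t + b) * σ + b * ((t + b) * (H + 16 * t * q)) := by
          rw [Finset.sum_add_distrib, ← Finset.mul_sum, Finset.sum_const, card_univ,
            Fintype.card_fin, smul_eq_mul, hσ]
      _ ≤ (t + b) * σ + b * ((2 * t) * (H + 16 * t * q)) := by
          apply Nat.add_le_add_left
          apply Nat.mul_le_mul_left
          exact Nat.mul_le_mul_right _ (by omega)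
      _ = (t + b) * σ + 2 * b * (t * (H + 16 * t * q)) := by ring
  have hsumL : ∑ i, (t + b) * (l i + 2 * t) ≤ (t + b) * lam + b * (4 * (t * t)) := by
    rw [← Finset.mul_sum, Finset.sum_add_distrib, ← hlam, Finset.sum_const, card_univ,
      Fintype.card_fin, smul_eq_mul, Nat.mul_add]
    apply Nat.add_le_add_left
    calc (t + b) * (b * (2 * t)) ≤ (2 * t) * (b * (2 * t)) :=
          Nat.mul_le_mul_right _ (by omega)
      _ = b * (4 * (t * t)) := by ring
  have hWI2 : h * WI.card ≤ h * (H + s + 16 * t * q) := by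
    apply Nat.mul_le_mul_left
    omega
  have hsq : (b * (t + b) + h) * (b * (t + b) + h) ≤
      (2 * b * t + h) * (2 * b * t + h) := by
    have h1 : b * (t + b) + h ≤ 2 * b * t + h := by
      have : b * (t + b) ≤ b * (2 * t) := Nat.mul_le_mul_left _ (by omega)
      have h2 : b * (2 * t) = 2 * b * t := by ring
      omega
    exact Nat.mul_le_mul h1 h1
  have hfin : sizeRamsey G (matchingGraph t) ≤ (t + b) * σ + ((t + b) * lam +
      b * (4 * (t * t))) + ((2 * b * t + h) * (2 * b * t + h) + 2 * b * (t * (H + 16 * t * q)) +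
        h * (H + s + 16 * t * q) + (H * H + E)) := by
    have hA1 := Nat.add_le_add (Nat.add_le_add (Nat.add_le_add hsq hsumW) hWI2) hfin3
    refine (hfin1.trans hfin0).trans ((Nat.add_le_add (hfin2.trans hA1) hsumL).trans
      (le_of_eq ?_))
    ring
  have harith := arith2 w v P q D C k A t m x H E (2 * b) h s hv hw hP1 hq hD hk hC hA hAt hAt'
    hx hH hkE (by omega)
  have hextra : v * (b * σ) ≤ t * m := by
    calc v * (b * σ) ≤ v * (b * (2 * m)) := Nat.mul_le_mul_left _ (Nat.mul_le_mul_left _ hNs)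
      _ = (2 * v * b) * m := by ring
      _ ≤ t * m := Nat.mul_le_mul_right _ h2vb
  have hextra2 : v * (b * lam) ≤ t * m := by
    calc v * (b * lam) ≤ v * (b * (2 * m)) := Nat.mul_le_mul_left _ (Nat.mul_le_mul_left _ hls)
      _ = (2 * v * b) * m := by ring
      _ ≤ t * m := Nat.mul_le_mul_right _ h2vb
  have hextra3 : v * (b * (4 * (t * t))) ≤ t * m := by
    have h1 : v * (4 * b) ≤ w := by
      rw [hw]
      apply Nat.mul_le_mul_left
      calc 4 * b ≤ 4 * b + (4 * b * b + 8 * b + 9) := Nat.le_add_right _ _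
        _ = (2 * b + 3) ^ 2 := by ring
    have h2 : w * t ≤ m := by
      have h3 : w * t ≤ (32 * q) * (w * t) := Nat.le_mul_of_pos_left _ (by positivity)
      have h4 : (32 * q) * (w * t) = A * t := by rw [hA]; ring
      omega
    calc v * (b * (4 * (t * t))) = (v * (4 * b)) * (t * t) := by ring
      _ ≤ w * (t * t) := Nat.mul_le_mul_right _ h1
      _ = t * (w * t) := by ring
      _ ≤ t * m := Nat.mul_le_mul_left _ h2
  calc v * sizeRamsey G (matchingGraph t) ≤ v * ((t + b) * σ + ((t + b) * lam +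
      b * (4 * (t * t))) + ((2 * b * t + h) * (2 * b * t + h) + 2 * b * (t * (H + 16 * t * q)) +
        h * (H + s + 16 * t * q) + (H * H + E))) := Nat.mul_le_mul_left _ hfin
    _ = v * (t * (σ + lam)) + v * (b * σ) + v * (b * lam) + v * (b * (4 * (t * t))) +
        v * ((2 * b * t + h) * (2 * b * t + h) +
        2 * b * (t * (H + 16 * t * q)) + h * (H + s + 16 * t * q) + (H * H + E)) := by ring
    _ ≤ v * (t * (σ + lam)) + t * m + t * m + t * m + (7 * t * m + 3 * v * t * s) := by
        exact Nat.add_le_add (Nat.add_le_add (Nat.add_le_add (Nat.add_le_add le_rfl hextra)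
          hextra2) hextra3) harith
    _ = v * (t * (σ + lam)) + (10 * t * m + 3 * v * t * s) := by ring

end Pool.Agent.H79.SR
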