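import Pool.Agent.H79.SR.Main2

namespace Pool.Agent.H79.SR

open Finset SimpleGraph Pool.Agent.Helper539

universe u

/-- the sequence of scales. -/
theorem exists_scales (v : ℕ) (hv : 1 ≤ v) : ∃ a m₀ : ℕ → ℕ, (∀ s, 0 < a s) ∧
    (∀ s, a s ≤ a (s + 1)) ∧ ∀ s, ∀ (V : Type u) [Fintype V] [DecidableEq V]
    (G : SimpleGraph V) [DecidableRel G.Adj] (B I : Finset V), m₀ s ≤ G.edgeSet.ncard →
    Fintype.card V ≤ 2 * G.edgeSet.ncard →
    Disjoint B I → B.card ≤ 2 * a s → I.card ≤ 2 * a (s + 1) →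
    (∀ x, x ∉ B → x ∉ I → a (s + 1) * G.degree x ≤ G.edgeSet.ncard) →
    ∃ t : ℕ, 1 ≤ t ∧ v * sizeRamsey G (matchingGraph t) ≤
      v * (t * ∑ u ∈ B, G.degree u) + (7 * t * G.edgeSet.ncard +
        3 * v * t * ∑ u ∈ I, G.degree u) := by
  have h : ∀ b : ℕ, ∃ a m₀ : ℕ, 0 < a ∧ b ≤ 2 * a ∧
    ∀ (V : Type u) [Fintype V] [DecidableEq V] (G : SimpleGraph V) [DecidableRel G.Adj]
    (B I : Finset V), m₀ ≤ G.edgeSet.ncard → Fintype.card V ≤ 2 * G.edgeSet.ncard →
    Disjoint B I → B.card ≤ b → I.card ≤ 2 * a →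
    (∀ x, x ∉ B → x ∉ I → a * G.degree x ≤ G.edgeSet.ncard) →
    ∃ t : ℕ, 1 ≤ t ∧ v * sizeRamsey G (matchingGraph t) ≤
      v * (t * ∑ u ∈ B, G.degree u) + (7 * t * G.edgeSet.ncard +
        3 * v * t * ∑ u ∈ I, G.degree u) := by
    intro b
    obtain ⟨a, m₀, ha, hb, h⟩ := main2.{u} v (max b 1) hv (le_max_right _ _)
    refine ⟨a, m₀, ha, (le_max_left _ _).trans hb, ?_⟩
    intro V _ _ G _ B I h1 h2 h3 h4 h5 h6
    exact h V G B I h1 h2 h3 (h4.trans (le_max_left _ _)) h5 h6
  choose f g hf1 hf2 hf3 using h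
  let a : ℕ → ℕ := fun s => Nat.rec 1 (fun _ x => f (2 * x)) s
  have ha0 : a 0 = 1 := rfl
  have ha1 : ∀ s, a (s + 1) = f (2 * a s) := fun s => rfl
  refine ⟨a, fun s => g (2 * a s), ?_, ?_, ?_⟩
  · intro s
    cases s with
    | zero => rw [ha0]; exact one_pos
    | succ s => rw [ha1]; exact hf1 _
  · intro s
    rw [ha1]
    have := hf2 (2 * a s)
    omega
  · intro s V _ _ G _ B I h1 h2 h3 h4 h5 h6
    exact hf3 (2 * a s) V G B I h1 h2 h3 h4 h5 h6

/-- for all graphs: the limit is at most the quotient total degree of the vertices of large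
degree / number of edges, up to `δ`. -/
theorem upper_all (δ : ℝ) (hδ : 0 < δ) : ∃ ε : ℝ, 0 < ε ∧
    ∀ (V : Type u) [Fintype V] [DecidableEq V] (G : SimpleGraph V) [DecidableRel G.Adj],
      G.edgeSet.Nonempty → (∀ v, ∃ w, G.Adj v w) →
      ∃ t : ℕ, 1 ≤ t ∧ (sizeRamsey G (matchingGraph t) : ℝ) ≤
        t * ((∑ v ∈ univ.filter (fun v => ε * G.edgeSet.ncard < (G.degree v : ℝ)),
          (G.degree v : ℝ)) + δ * G.edgeSet.ncard) := by
  obtain ⟨v, hv1, hv2⟩ : ∃ v : ℕ, 1 ≤ v ∧ 8 ≤ δ * v := by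
    obtain ⟨v, hv⟩ := exists_nat_gt (8 / δ)
    refine ⟨v + 1, by omega, ?_⟩
    rw [div_lt_iff₀ hδ] at hv
    push_cast
    nlinarith
  obtain ⟨a, m₀, ha, hmono, hmain⟩ := exists_scales.{u} v hv1
  obtain ⟨K, hK⟩ : ∃ K, K = 6 * v := ⟨_, rfl⟩
  obtain ⟨Λ, hΛ⟩ : ∃ Λ : ℕ, Λ = a K + ∑ s ∈ range K, m₀ s := ⟨_, rfl⟩
  have haK : 0 < a K := ha K
  have hΛpos : 0 < Λ := by omega
  have hΛR : (0 : ℝ) < Λ := by exact_mod_cast hΛpos
  refine ⟨1 / Λ, by positivity, ?_⟩
  intro V _ _ G _ hedge hiso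
  classical
  obtain ⟨m, hmdef⟩ : ∃ m, m = G.edgeSet.ncard := ⟨_, rfl⟩
  have hm : 0 < m := by rw [hmdef]; exact (Set.ncard_pos (Set.toFinite _)).2 hedge
  have hmR : (0 : ℝ) < m := by exact_mod_cast hm
  have hiso' : ∀ x, 1 ≤ G.degree x := fun x => (G.degree_pos_iff_exists_adj x).2 (hiso x)
  have hsumdeg : ∑ x, G.degree x = 2 * m := by
    rw [G.sum_degrees_eq_twice_card_edges, hmdef, ← Set.ncard_coe_finset]
    simp
  have hVm : Fintype.card V ≤ 2 * m := by
    rw [← hsumdeg]
    calc Fintype.card V = ∑ _x : V, 1 := by simp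
      _ ≤ ∑ x, G.degree x := Finset.sum_le_sum (fun x _ => hiso' x)
  rw [← hmdef]
  by_cases hsmall : m < Λ
  · -- few edges
    refine ⟨1, le_rfl, ?_⟩
    have h1 := sizeRamsey_le (arrows_one G)
    rw [← hmdef] at h1
    have h2 : (univ.filter (fun x => 1 / (Λ : ℝ) * m < (G.degree x : ℝ))) = univ := by
      rw [Finset.filter_eq_self]
      intro x _
      have h3 : (1 : ℝ) ≤ G.degree x := by exact_mod_cast hiso' x
      have h4 : (m : ℝ) < Λ := by exact_mod_cast hsmall
      have h5 : 1 / (Λ : ℝ) * m < 1 := by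
        rw [one_div, inv_mul_eq_div, div_lt_one hΛR]
        exact h4
      linarith
    rw [h2]
    have h3 : ∑ x, (G.degree x : ℝ) = 2 * m := by exact_mod_cast hsumdeg
    rw [h3]
    have h4 : (sizeRamsey G (matchingGraph 1) : ℝ) ≤ m := by exact_mod_cast h1
    push_cast
    have h5 : 0 < δ * m := by positivity
    linarith
  · push Not at hsmall
    let B : ℕ → Finset V := fun s => univ.filter (fun x => m < a s * G.degree x)
    have hmemB : ∀ s x, x ∈ B s ↔ m < a s * G.degree x := fun s x => by simp [B]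
    have hBmono : ∀ s, B s ⊆ B (s + 1) := by
      intro s x hx
      rw [hmemB] at hx ⊢
      exact hx.trans_le (Nat.mul_le_mul_right _ (hmono s))
    have hBcard : ∀ s, (B s).card ≤ 2 * a s := by
      intro s
      have h1 : (B s).card * m ≤ (2 * a s) * m := by
        calc (B s).card * m ≤ ∑ x ∈ B s, a s * G.degree x := by
              rw [← smul_eq_mul]
              apply Finset.card_nsmul_le_sum
              intro x hx
              rw [hmemB] at hx
              exact hx.le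
          _ ≤ ∑ x, a s * G.degree x := Finset.sum_le_sum_of_subset (subset_univ _)
          _ = a s * (2 * m) := by rw [← Finset.mul_sum, hsumdeg]
          _ = (2 * a s) * m := by ring
      exact Nat.le_of_mul_le_mul_right h1 hm
    have htel : ∀ n, ∑ s ∈ range n, (∑ x ∈ B (s + 1) \ B s, G.degree x) +
        ∑ x ∈ B 0, G.degree x = ∑ x ∈ B n, G.degree x := by
      intro n
      induction n with
      | zero => simp
      | succ n ih =>
        rw [Finset.sum_range_succ, ← Finset.sum_sdiff (hBmono n), ← ih]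
        ring
    have htot : ∑ s ∈ range K, (∑ x ∈ B (s + 1) \ B s, G.degree x) ≤ 2 * m := by
      have h1 := htel K
      have h2 : ∑ x ∈ B K, G.degree x ≤ 2 * m := by
        rw [← hsumdeg]
        exact Finset.sum_le_sum_of_subset (subset_univ _)
      omega
    have hKpos : 0 < K := by omega
    obtain ⟨s, hsK, hs⟩ : ∃ s ∈ range K, K * ∑ x ∈ B (s + 1) \ B s, G.degree x ≤ 2 * m := by
      apply Finset.exists_le_of_sum_le (s := range K) ⟨0, by simpa using hKpos⟩
      rw [← Finset.mul_sum, Finset.sum_const, card_range, smul_eq_mul]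
      exact Nat.mul_le_mul_left _ htot
    have hmono' : ∀ n s, a s ≤ a (s + n) := by
      intro n s
      induction n with
      | zero => simp
      | succ n ih => exact ih.trans (hmono (s + n))
    have hsK' : s < K := by simpa using hsK
    have hasK : a s ≤ a K := by
      have h1 := hmono' (K - s) s
      have h2 : s + (K - s) = K := by omega
      rwa [h2] at h1
    have hm0s : m₀ s ≤ m := by
      have h1 : m₀ s ≤ ∑ s ∈ range K, m₀ s :=
        Finset.single_le_sum (f := m₀) (fun _ _ => Nat.zero_le _) hsK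
      omega
    obtain ⟨t, ht1, ht⟩ := hmain s V G (B s) (B (s + 1) \ B s) (by rw [← hmdef]; exact hm0s)
      (by rw [← hmdef]; exact hVm) disjoint_sdiff (hBcard s)
      ((card_le_card sdiff_subset).trans (hBcard (s + 1))) (by
        intro x hx1 hx2
        have hx3 : x ∉ B (s + 1) := by
          intro hx3
          exact hx2 (mem_sdiff.2 ⟨hx3, hx1⟩)
        rw [hmemB] at hx3
        rw [← hmdef]
        omega)
    rw [← hmdef] at ht
    refine ⟨t, ht1, ?_⟩
    have h3 : 3 * v * ∑ x ∈ B (s + 1) \ B s, G.degree x ≤ m := by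
      rw [hK] at hs
      have : 6 * v * ∑ x ∈ B (s + 1) \ B s, G.degree x =
        2 * (3 * v * ∑ x ∈ B (s + 1) \ B s, G.degree x) := by ring
      omega
    have h4 : v * sizeRamsey G (matchingGraph t) ≤ v * (t * ∑ u ∈ B s, G.degree u) +
        8 * t * m := by
      refine ht.trans ?_
      apply Nat.add_le_add_left
      have h5 : 3 * v * t * ∑ x ∈ B (s + 1) \ B s, G.degree x ≤ t * m := by
        calc 3 * v * t * ∑ x ∈ B (s + 1) \ B s, G.degree x
            = t * (3 * v * ∑ x ∈ B (s + 1) \ B s, G.degree x) := by ring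
          _ ≤ t * m := Nat.mul_le_mul_left _ h3
      have h6 : 7 * t * m + t * m = 8 * t * m := by ring
      omega
    have h5 : (∑ u ∈ B s, (G.degree u : ℝ)) ≤
        ∑ x ∈ univ.filter (fun x => 1 / (Λ : ℝ) * m < (G.degree x : ℝ)), (G.degree x : ℝ) := by
      apply Finset.sum_le_sum_of_subset_of_nonneg
      · intro x hx
        rw [hmemB] at hx
        rw [mem_filter]
        refine ⟨mem_univ _, ?_⟩
        rw [one_div, inv_mul_eq_div, div_lt_iff₀ hΛR]
        have h6 : m < G.degree x * Λ := by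
          refine hx.trans_le ?_
          rw [mul_comm]
          apply Nat.mul_le_mul_left
          omega
        exact_mod_cast h6
      · intro x _ _
        positivity
    have hvR : (0 : ℝ) < v := by
      have : 0 < v := by omega
      exact_mod_cast this
    have h6 : (v : ℝ) * sizeRamsey G (matchingGraph t) ≤
        v * (t * ∑ u ∈ B s, (G.degree u : ℝ)) + 8 * t * m := by exact_mod_cast h4
    have ht0 : (0 : ℝ) ≤ t := Nat.cast_nonneg _
    have h7 : 8 * (t : ℝ) * m ≤ v * (t * (δ * m)) := by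
      have : (8 : ℝ) * (t * m) ≤ (δ * v) * (t * m) :=
        mul_le_mul_of_nonneg_right hv2 (by positivity)
      linarith
    have h8 : (v : ℝ) * sizeRamsey G (matchingGraph t) ≤
        v * (t * ((∑ x ∈ univ.filter (fun x => 1 / (Λ : ℝ) * m < (G.degree x : ℝ)),
          (G.degree x : ℝ)) + δ * m)) := by
      have h9 : (v : ℝ) * (t * ∑ u ∈ B s, (G.degree u : ℝ)) ≤
          v * (t * (∑ x ∈ univ.filter (fun x => 1 / (Λ : ℝ) * m < (G.degree x : ℝ)),
            (G.degree x : ℝ))) :=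
        mul_le_mul_of_nonneg_left (mul_le_mul_of_nonneg_left h5 ht0) hvR.le
      calc (v : ℝ) * sizeRamsey G (matchingGraph t) ≤
          v * (t * ∑ u ∈ B s, (G.degree u : ℝ)) + 8 * t * m := h6
        _ ≤ v * (t * (∑ x ∈ univ.filter (fun x => 1 / (Λ : ℝ) * m < (G.degree x : ℝ)),
            (G.degree x : ℝ))) + v * (t * (δ * m)) := add_le_add h9 h7
        _ = _ := by ring
    exact le_of_mul_le_mul_left h8 hvR

end Pool.Agent.H79.SR
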