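import Pool.Agent.H79.SR.Main4

namespace Pool.Agent.H79.SR

open Finset SimpleGraph Pool.Agent.Helper539

universe u

/-- the sequence of scales, for hosts with classes. -/
theorem exists_scales4 (v : ℕ) (hv : 1 ≤ v) : ∃ a m₀ : ℕ → ℕ, (∀ s, 0 < a s) ∧
    (∀ s, a s ≤ a (s + 1)) ∧ ∀ s, ∀ (V : Type u) [Fintype V] [DecidableEq V]
    (G : SimpleGraph V) [DecidableRel G.Adj] (B I Lf : Finset V) (nb : V → V)
    (nm : V → Fin (2 * a s)) (Nn l : Fin (2 * a s) → ℕ), m₀ s ≤ G.edgeSet.ncard →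
    Fintype.card V ≤ 2 * G.edgeSet.ncard →
    Disjoint B I → B.card ≤ 2 * a s → I.card ≤ 2 * a (s + 1) →
    (∀ x, x ∉ B → x ∉ I → a (s + 1) * G.degree x ≤ G.edgeSet.ncard) →
    (∀ u ∈ B, ∀ v ∈ B, G.Adj u v → nm u ≠ nm v) →
    (∀ i, (univ.filter (fun x => x ∉ Lf ∧ ∃ u ∈ B, nm u = i ∧ G.Adj u x)).card ≤ Nn i) →
    ∑ i, Nn i ≤ 2 * G.edgeSet.ncard →
    (∀ x ∈ Lf, x ∉ B) → (∀ x ∈ Lf, nb x ∈ B) → (∀ x ∈ Lf, ∀ y, G.Adj x y → y = nb x) →
    (∀ u ∈ B, (Lf.filter (fun x => nb x = u)).card ≤ l (nm u)) →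
    ∑ i, l i ≤ 2 * G.edgeSet.ncard →
    ∃ t : ℕ, 1 ≤ t ∧ v * sizeRamsey G (matchingGraph t) ≤
      v * (t * (∑ i, Nn i + ∑ i, l i)) + (10 * t * G.edgeSet.ncard +
        3 * v * t * ∑ u ∈ I, G.degree u) := by
  have h : ∀ b : ℕ, ∃ a m₀ : ℕ, 1 ≤ b → (0 < a ∧ b ≤ 2 * a ∧
    ∀ (V : Type u) [Fintype V] [DecidableEq V] (G : SimpleGraph V) [DecidableRel G.Adj]
    (B I Lf : Finset V) (nb : V → V) (nm : V → Fin b) (Nn l : Fin b → ℕ), m₀ ≤ G.edgeSet.ncard →
    Fintype.card V ≤ 2 * G.edgeSet.ncard →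
    Disjoint B I → B.card ≤ b → I.card ≤ 2 * a →
    (∀ x, x ∉ B → x ∉ I → a * G.degree x ≤ G.edgeSet.ncard) →
    (∀ u ∈ B, ∀ v ∈ B, G.Adj u v → nm u ≠ nm v) →
    (∀ i, (univ.filter (fun x => x ∉ Lf ∧ ∃ u ∈ B, nm u = i ∧ G.Adj u x)).card ≤ Nn i) →
    ∑ i, Nn i ≤ 2 * G.edgeSet.ncard →
    (∀ x ∈ Lf, x ∉ B) → (∀ x ∈ Lf, nb x ∈ B) → (∀ x ∈ Lf, ∀ y, G.Adj x y → y = nb x) →
    (∀ u ∈ B, (Lf.filter (fun x => nb x = u)).card ≤ l (nm u)) →
    ∑ i, l i ≤ 2 * G.edgeSet.ncard →
    ∃ t : ℕ, 1 ≤ t ∧ v * sizeRamsey G (matchingGraph t) ≤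
      v * (t * (∑ i, Nn i + ∑ i, l i)) + (10 * t * G.edgeSet.ncard +
        3 * v * t * ∑ u ∈ I, G.degree u)) := by
    intro b
    by_cases hb : 1 ≤ b
    · obtain ⟨a, m₀, h⟩ := main4.{u} v b hv hb
      exact ⟨a, m₀, fun _ => h⟩
    · exact ⟨1, 1, fun hb' => absurd hb' hb⟩
  choose f g hf using h
  let a : ℕ → ℕ := fun s => Nat.rec 1 (fun _ x => f (2 * x)) s
  have ha0 : a 0 = 1 := rfl
  have ha1 : ∀ s, a (s + 1) = f (2 * a s) := fun s => rfl
  have hapos : ∀ s, 0 < a s := by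
    intro s
    induction s with
    | zero => rw [ha0]; exact one_pos
    | succ s ih => rw [ha1]; exact (hf _ (by omega)).1
  refine ⟨a, fun s => g (2 * a s), hapos, ?_, ?_⟩
  · intro s
    rw [ha1]
    have := (hf (2 * a s) (by have := hapos s; omega)).2.1
    omega
  · intro s V _ _ G _ B I Lf nb nm Nn l
    exact (hf (2 * a s) (by have := hapos s; omega)).2.2 V G B I Lf nb nm Nn l

/-- for all graphs with many edges and all proper colourings of the vertices of large degree: the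
limit is at most the quotient (sum over the colours of the number of neighbours of degree at least
two of the vertices of large degree of this colour, plus the maximal number of leaves at one of
them) / number of edges, up to `δ`. -/
theorem upper_col4 (δ : ℝ) (hδ : 0 < δ) : ∃ ε : ℝ, 0 < ε ∧ ∃ M : ℕ,
    ∀ (V : Type u) [Fintype V] [DecidableEq V] (G : SimpleGraph V) [DecidableRel G.Adj],
      M ≤ G.edgeSet.ncard → G.edgeSet.Nonempty → (∀ v, ∃ w, G.Adj v w) →
      ∀ (k : ℕ) (κ : V → Fin k) (F l : Fin k → ℕ),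
      (∀ u v, ε * G.edgeSet.ncard < (G.degree u : ℝ) → ε * G.edgeSet.ncard < (G.degree v : ℝ) →
        G.Adj u v → κ u ≠ κ v) →
      (∀ i, ∀ B : Finset V, (∀ u ∈ B, ε * G.edgeSet.ncard < (G.degree u : ℝ)) →
        (univ.filter (fun x => G.degree x ≠ 1 ∧ ∃ u ∈ B, κ u = i ∧ G.Adj u x)).card ≤ F i) →
      (∀ u, ε * G.edgeSet.ncard < (G.degree u : ℝ) →
        (univ.filter (fun x => G.degree x = 1 ∧ G.Adj u x)).card ≤ l (κ u)) →
      ∑ i, l i ≤ 2 * G.edgeSet.ncard →
      ∃ t : ℕ, 1 ≤ t ∧ (sizeRamsey G (matchingGraph t) : ℝ) ≤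
        t * ((∑ i, (F i : ℝ)) + (∑ i, (l i : ℝ)) + δ * G.edgeSet.ncard) := by
  obtain ⟨v, hv1, hv2⟩ : ∃ v : ℕ, 1 ≤ v ∧ 11 ≤ δ * v := by
    obtain ⟨v, hv⟩ := exists_nat_gt (11 / δ)
    refine ⟨v + 1, by omega, ?_⟩
    rw [div_lt_iff₀ hδ] at hv
    push_cast
    nlinarith
  obtain ⟨a, m₀, ha, hmono, hmain⟩ := exists_scales4.{u} v hv1
  obtain ⟨K, hK⟩ : ∃ K, K = 6 * v := ⟨_, rfl⟩
  obtain ⟨Λ, hΛ⟩ : ∃ Λ : ℕ, Λ = a K + ∑ s ∈ range K, m₀ s := ⟨_, rfl⟩
  have haK : 0 < a K := ha K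
  have hΛpos : 0 < Λ := by omega
  have hΛR : (0 : ℝ) < Λ := by exact_mod_cast hΛpos
  refine ⟨1 / Λ, by positivity, Λ, ?_⟩
  intro V _ _ G _ hΛm hedge hiso k κ F l hκ hF hlf hls
  classical
  obtain ⟨m, hmdef⟩ : ∃ m, m = G.edgeSet.ncard := ⟨_, rfl⟩
  have hm : 0 < m := by rw [hmdef]; exact (Set.ncard_pos (Set.toFinite _)).2 hedge
  have hmR : (0 : ℝ) < m := by exact_mod_cast hm
  have hiso' : ∀ x, 1 ≤ G.degree x := fun x => (G.degree_pos_iff_exists_adj x).2 (hiso x)
  have hsumdeg : ∑ x, G.degree x = 2 * m := by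
    rw [G.sum_degrees_eq_twice_card_edges, hmdef, ← Set.ncard_coe_finset]
    simp
  have hVm : Fintype.card V ≤ 2 * m := by
    rw [← hsumdeg]
    calc Fintype.card V = ∑ _x : V, 1 := by simp
      _ ≤ ∑ x, G.degree x := Finset.sum_le_sum (fun x _ => hiso' x)
  rw [← hmdef] at hΛm hκ hF hlf hls ⊢
  let B : ℕ → Finset V := fun s => univ.filter (fun x => m < a s * G.degree x)
  have hmemB : ∀ s x, x ∈ B s ↔ m < a s * G.degree x := fun s x => by simp [B]
  have hBmono : ∀ s, B s ⊆ B (s + 1) := by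
    intro s x hx
    rw [hmemB] at hx ⊢
    exact hx.trans_le (Nat.mul_le_mul_right _ (hmono s))
  have hBcard : ∀ s, (B s).card ≤ 2 * a s := by
    intro s
    have h1 : (B s).card * m ≤ (2 * a s) * m := by
      calc (B s).card * m ≤ ∑ x ∈ B s, a s * G.degree x := by
            rw [← smul_eq_mul]
            apply Finset.card_nsmul_le_sum
            intro x hx
            rw [hmemB] at hx
            exact hx.le
        _ ≤ ∑ x, a s * G.degree x := Finset.sum_le_sum_of_subset (subset_univ _)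
        _ = a s * (2 * m) := by rw [← Finset.mul_sum, hsumdeg]
        _ = (2 * a s) * m := by ring
    exact Nat.le_of_mul_le_mul_right h1 hm
  have htel : ∀ n, ∑ s ∈ range n, (∑ x ∈ B (s + 1) \ B s, G.degree x) +
      ∑ x ∈ B 0, G.degree x = ∑ x ∈ B n, G.degree x := by
    intro n
    induction n with
    | zero => simp
    | succ n ih =>
      rw [Finset.sum_range_succ, ← Finset.sum_sdiff (hBmono n), ← ih]
      ring
  have htot : ∑ s ∈ range K, (∑ x ∈ B (s + 1) \ B s, G.degree x) ≤ 2 * m := by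
    have h1 := htel K
    have h2 : ∑ x ∈ B K, G.degree x ≤ 2 * m := by
      rw [← hsumdeg]
      exact Finset.sum_le_sum_of_subset (subset_univ _)
    omega
  have hKpos : 0 < K := by omega
  obtain ⟨s, hsK, hs⟩ : ∃ s ∈ range K, K * ∑ x ∈ B (s + 1) \ B s, G.degree x ≤ 2 * m := by
    apply Finset.exists_le_of_sum_le (s := range K) ⟨0, by simpa using hKpos⟩
    rw [← Finset.mul_sum, Finset.sum_const, card_range, smul_eq_mul]
    exact Nat.mul_le_mul_left _ htot
  have hmono' : ∀ n s, a s ≤ a (s + n) := by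
    intro n s
    induction n with
    | zero => simp
    | succ n ih => exact ih.trans (hmono (s + n))
  have hsK' : s < K := by simpa using hsK
  have hasK : a s ≤ a K := by
    have h1 := hmono' (K - s) s
    have h2 : s + (K - s) = K := by omega
    rwa [h2] at h1
  have hm0s : m₀ s ≤ m := by
    have h1 : m₀ s ≤ ∑ s ∈ range K, m₀ s :=
      Finset.single_le_sum (f := m₀) (fun _ _ => Nat.zero_le _) hsK
    omega
  have hlarge : ∀ u ∈ B s, 1 / (Λ : ℝ) * m < (G.degree u : ℝ) := by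
    intro x hx
    rw [hmemB] at hx
    rw [one_div, inv_mul_eq_div, div_lt_iff₀ hΛR]
    have h6 : m < G.degree x * Λ := by
      refine hx.trans_le ?_
      rw [mul_comm]
      apply Nat.mul_le_mul_left
      omega
    exact_mod_cast h6
  -- the names of the classes
  obtain ⟨g, hg⟩ : ∃ g : Fin k → Fin (2 * a s), ∀ c ∈ (B s).image κ, ∀ c' ∈ (B s).image κ,
      g c = g c' → c = c' := by
    have h1 : ((B s).image κ).card ≤ 2 * a s := card_image_le.trans (hBcard s)
    obtain ⟨f⟩ : Nonempty ((B s).image κ ↪ Fin (2 * a s)) :=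
      Function.Embedding.nonempty_of_card_le (by
        rw [Fintype.card_coe, Fintype.card_fin]; exact h1)
    have h0 : 0 < 2 * a s := by have := ha s; omega
    refine ⟨fun c => if hc : c ∈ (B s).image κ then f ⟨c, hc⟩ else ⟨0, h0⟩, ?_⟩
    intro c hc c' hc' heq
    simp only [dif_pos hc, dif_pos hc'] at heq
    exact congrArg Subtype.val (f.injective heq)
  let FB : Fin k → ℕ := fun c => (univ.filter (fun x => G.degree x ≠ 1 ∧
    ∃ u ∈ B s, κ u = c ∧ G.Adj u x)).card
  let Nn : Fin (2 * a s) → ℕ := fun j => ∑ c ∈ (univ : Finset (Fin k)).filter (fun c => g c = j),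
    FB c
  have hNsum : ∑ j, Nn j = ∑ c, FB c := by
    simp only [Nn]
    exact Finset.sum_fiberwise _ _ _
  have hFB : ∑ c, FB c ≤ 2 * m := by
    calc ∑ c, FB c ≤ ∑ c, ∑ u ∈ (B s).filter (fun u => κ u = c), G.degree u := by
          apply Finset.sum_le_sum
          intro c _
          calc FB c ≤ (((B s).filter (fun u => κ u = c)).biUnion
                (fun u => G.neighborFinset u)).card := by
                apply card_le_card
                intro x hx
                rw [mem_filter] at hx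
                obtain ⟨-, -, u, hu, huc, hux⟩ := hx
                rw [mem_biUnion]
                exact ⟨u, mem_filter.2 ⟨hu, huc⟩, by
                  rw [SimpleGraph.mem_neighborFinset]; exact hux⟩
            _ ≤ ∑ u ∈ (B s).filter (fun u => κ u = c), (G.neighborFinset u).card :=
                card_biUnion_le
            _ = ∑ u ∈ (B s).filter (fun u => κ u = c), G.degree u := by
                apply Finset.sum_congr rfl
                intro u _
                exact SimpleGraph.card_neighborFinset_eq_degree G u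
      _ = ∑ u ∈ B s, G.degree u := Finset.sum_fiberwise _ _ _
      _ ≤ ∑ u, G.degree u := Finset.sum_le_sum_of_subset (subset_univ _)
      _ = 2 * m := hsumdeg
  let Lf : Finset V := univ.filter (fun x => x ∉ B s ∧ G.degree x = 1 ∧ ∃ u ∈ B s, G.Adj u x)
  have hmemLf : ∀ x, x ∈ Lf ↔ x ∉ B s ∧ G.degree x = 1 ∧ ∃ u ∈ B s, G.Adj u x :=
    fun x => by simp [Lf]
  have hnbex : ∃ nb : V → V, ∀ x ∈ Lf, nb x ∈ B s ∧ G.Adj (nb x) x := by
    refine ⟨fun x => if h : ∃ u ∈ B s, G.Adj u x then h.choose else x, ?_⟩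
    intro x hx
    have h := ((hmemLf x).1 hx).2.2
    simp only [dif_pos h]
    exact h.choose_spec
  obtain ⟨nb, hnb⟩ := hnbex
  let l' : Fin (2 * a s) → ℕ := fun j => ∑ c ∈ (univ : Finset (Fin k)).filter (fun c => g c = j),
    l c
  have hlsum : ∑ j, l' j = ∑ c, l c := by
    simp only [l']
    exact Finset.sum_fiberwise _ _ _
  obtain ⟨t, ht1, ht⟩ := hmain s V G (B s) (B (s + 1) \ B s) Lf nb (fun u => g (κ u)) Nn l'
    (by rw [← hmdef]; exact hm0s)
    (by rw [← hmdef]; exact hVm) disjoint_sdiff (hBcard s)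
    ((card_le_card sdiff_subset).trans (hBcard (s + 1))) (by
      intro x hx1 hx2
      have hx3 : x ∉ B (s + 1) := by
        intro hx3
        exact hx2 (mem_sdiff.2 ⟨hx3, hx1⟩)
      rw [hmemB] at hx3
      rw [← hmdef]
      omega)
    (by
      intro u hu w hw huw heq
      exact hκ u w (hlarge u hu) (hlarge w hw) huw
        (hg _ (mem_image_of_mem _ hu) _ (mem_image_of_mem _ hw) heq))
    (by
      intro j
      calc (univ.filter (fun x => x ∉ Lf ∧ ∃ u ∈ B s, g (κ u) = j ∧ G.Adj u x)).card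
          ≤ (((univ : Finset (Fin k)).filter (fun c => g c = j)).biUnion (fun c =>
              univ.filter (fun x => G.degree x ≠ 1 ∧ ∃ u ∈ B s, κ u = c ∧ G.Adj u x))).card := by
            apply card_le_card
            intro x hx
            rw [mem_filter] at hx
            obtain ⟨-, hxL, u, hu, huj, hux⟩ := hx
            rw [mem_biUnion]
            refine ⟨κ u, mem_filter.2 ⟨mem_univ _, huj⟩,
              mem_filter.2 ⟨mem_univ _, ?_, u, hu, rfl, hux⟩⟩
            intro hx1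
            by_cases hxB : x ∈ B s
            · rw [hmemB, hx1] at hxB
              omega
            · exact hxL ((hmemLf x).2 ⟨hxB, hx1, u, hu, hux⟩)
        _ ≤ Nn j := card_biUnion_le)
    (by rw [hNsum, ← hmdef]; exact hFB)
    (fun x hx => ((hmemLf x).1 hx).1)
    (fun x hx => (hnb x hx).1)
    (by
      intro x hx y hxy
      have h1 := (G.degree_eq_one_iff_existsUnique_adj (v := x)).1 ((hmemLf x).1 hx).2.1
      exact h1.unique hxy (hnb x hx).2.symm)
    (by
      intro u hu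
      calc (Lf.filter (fun x => nb x = u)).card
          ≤ (univ.filter (fun x => G.degree x = 1 ∧ G.Adj u x)).card := by
            apply card_le_card
            intro x hx
            rw [mem_filter] at hx
            rw [mem_filter]
            refine ⟨mem_univ _, ((hmemLf x).1 hx.1).2.1, ?_⟩
            rw [← hx.2]
            exact (hnb x hx.1).2
        _ ≤ l (κ u) := hlf u (hlarge u hu)
        _ ≤ l' (g (κ u)) := Finset.single_le_sum (f := l) (fun _ _ => Nat.zero_le _)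
            (mem_filter.2 ⟨mem_univ _, rfl⟩))
    (by rw [hlsum, ← hmdef]; exact hls)
  rw [← hmdef, hNsum, hlsum] at ht
  refine ⟨t, ht1, ?_⟩
  have h3 : 3 * v * ∑ x ∈ B (s + 1) \ B s, G.degree x ≤ m := by
    rw [hK] at hs
    have : 6 * v * ∑ x ∈ B (s + 1) \ B s, G.degree x =
      2 * (3 * v * ∑ x ∈ B (s + 1) \ B s, G.degree x) := by ring
    omega
  have h4 : v * sizeRamsey G (matchingGraph t) ≤ v * (t * (∑ c, FB c + ∑ c, l c)) +
      11 * t * m := by
    refine ht.trans ?_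
    apply Nat.add_le_add_left
    have h5 : 3 * v * t * ∑ x ∈ B (s + 1) \ B s, G.degree x ≤ t * m := by
      calc 3 * v * t * ∑ x ∈ B (s + 1) \ B s, G.degree x
          = t * (3 * v * ∑ x ∈ B (s + 1) \ B s, G.degree x) := by ring
        _ ≤ t * m := Nat.mul_le_mul_left _ h3
    have h6 : 10 * t * m + t * m = 11 * t * m := by ring
    omega
  have h5 : ∑ c, FB c ≤ ∑ c, F c := Finset.sum_le_sum (fun c _ => hF c (B s) hlarge)
  have h5R : (∑ c, (FB c : ℝ)) ≤ ∑ c, (F c : ℝ) := by exact_mod_cast h5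
  have hvR : (0 : ℝ) < v := by
    have : 0 < v := by omega
    exact_mod_cast this
  have h6 : (v : ℝ) * sizeRamsey G (matchingGraph t) ≤
      v * (t * ((∑ c, (FB c : ℝ)) + ∑ c, (l c : ℝ))) + 11 * t * m := by exact_mod_cast h4
  have ht0 : (0 : ℝ) ≤ t := Nat.cast_nonneg _
  have h7 : 11 * (t : ℝ) * m ≤ v * (t * (δ * m)) := by
    have : (11 : ℝ) * (t * m) ≤ (δ * v) * (t * m) :=
      mul_le_mul_of_nonneg_right hv2 (by positivity)
    linarith
  have h8 : (v : ℝ) * sizeRamsey G (matchingGraph t) ≤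
      v * (t * ((∑ c, (F c : ℝ)) + (∑ c, (l c : ℝ)) + δ * m)) := by
    have h9 : (v : ℝ) * (t * ((∑ c, (FB c : ℝ)) + ∑ c, (l c : ℝ))) ≤
        v * (t * ((∑ c, (F c : ℝ)) + ∑ c, (l c : ℝ))) :=
      mul_le_mul_of_nonneg_left (mul_le_mul_of_nonneg_left (by linarith) ht0) hvR.le
    calc (v : ℝ) * sizeRamsey G (matchingGraph t) ≤
        v * (t * ((∑ c, (FB c : ℝ)) + ∑ c, (l c : ℝ))) + 11 * t * m := h6
      _ ≤ v * (t * ((∑ c, (F c : ℝ)) + ∑ c, (l c : ℝ))) + v * (t * (δ * m)) :=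
        add_le_add h9 h7
      _ = _ := by ring
  exact le_of_mul_le_mul_left h8 hvR

end Pool.Agent.H79.SR
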