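import Pool.Graph.R_seed8.Helper539.Random

namespace Pool.Agent.H79.SR

open Finset Pool.Agent.Helper539

/-- Existence of a pseudorandom colouring. -/
theorem exists_coloring_gen {X : Type*} [Fintype X] [DecidableEq X] (C k q D M n : ℕ)
    (hk : 0 < k) (hM : (1 - 1 / (k : ℝ) ^ D) ^ M ≤ (1 / 2) ^ (C + 1))
    (hbig : k * q * (Fintype.card X) ^ (M * D) < 2 ^ n) :
    ∃ c : (Fin q × Fin (C * n)) → X → Fin k, ∀ (κ : Fin k) (j : Fin q) (a : Fin M → Fin D → X),
      (∀ l l', l ≠ l' → ∀ d d', a l d ≠ a l' d') →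
      (univ.filter (fun b : Fin (C * n) => ∀ l, ∃ d, c (j, b) (a l d) ≠ κ)).card < n := by
  classical
  have hk1 : (1 : ℝ) ≤ k := by exact_mod_cast hk
  have hkD : (0 : ℝ) < (k : ℝ) ^ D := by positivity
  have hr : (0 : ℝ) ≤ 1 - 1 / (k : ℝ) ^ D := by
    rw [sub_nonneg, div_le_one hkD]
    exact one_le_pow₀ hk1
  by_contra hcon
  push Not at hcon
  -- index set of bad events
  let I := Fin k × Fin q × (Fin M → Fin D → X) × Finset (Fin (C * n))
  let good : I → Prop := fun i => (∀ l l', l ≠ l' → ∀ d d', i.2.2.1 l d ≠ i.2.2.1 l' d') ∧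
    i.2.2.2.card = n
  let Sf : I → Finset (X → Fin k) := fun i =>
    univ.filter (fun f : X → Fin k => ∀ l, ∃ d, f (i.2.2.1 l d) ≠ i.1)
  let bad : I → Finset ((Fin q × Fin (C * n)) → X → Fin k) := fun i =>
    if good i then Fintype.piFinset (fun w => if w.1 = i.2.1 ∧ w.2 ∈ i.2.2.2 then Sf i else univ)
    else ∅
  have hcover : (univ : Finset ((Fin q × Fin (C * n)) → X → Fin k)) ⊆
      (univ : Finset I).biUnion bad := by
    intro c _
    obtain ⟨κ, j, a, ha, hcard⟩ := hcon c
    obtain ⟨B, hB, hBn⟩ := Finset.exists_subset_card_eq hcard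
    rw [mem_biUnion]
    refine ⟨(κ, j, a, B), mem_univ _, ?_⟩
    have hg : good (κ, j, a, B) := ⟨ha, hBn⟩
    simp only [bad]
    rw [if_pos hg, Fintype.mem_piFinset]
    rintro ⟨j', b⟩
    by_cases hw : j' = j ∧ b ∈ B
    · rw [if_pos hw]
      obtain ⟨rfl, hb⟩ := hw
      have := hB hb
      rw [mem_filter] at this
      simp only [Sf, mem_filter, mem_univ, true_and]
      exact this.2
    · rw [if_neg hw]
      exact mem_univ _
  have hbad : ∀ i : I, ((bad i).card : ℝ) ≤
      ((1 / 2) ^ (C + 1)) ^ n * ((k : ℝ) ^ (Fintype.card X)) ^ (q * (C * n)) := by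
    intro i
    by_cases hg : good i
    · simp only [bad]
      rw [if_pos hg, Fintype.card_piFinset]
      have h1 : ∏ w : Fin q × Fin (C * n),
          ((if w.1 = i.2.1 ∧ w.2 ∈ i.2.2.2 then Sf i else univ : Finset (X → Fin k)).card) =
          ∏ w : Fin q × Fin (C * n),
            (if w ∈ (({i.2.1} : Finset (Fin q)) ×ˢ i.2.2.2) then (Sf i).card
              else k ^ (Fintype.card X)) := by
        apply Finset.prod_congr rfl
        rintro ⟨j', b⟩ _
        by_cases hw : j' = i.2.1 ∧ b ∈ i.2.2.2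
        · rw [if_pos hw, if_pos]
          simp [hw.1, hw.2]
        · rw [if_neg hw, if_neg]
          · simp
          · rw [mem_product, mem_singleton]
            exact hw
      rw [h1]
      rw [Finset.prod_ite]
      simp only [prod_const]
      have hf1 : (univ.filter (fun w : Fin q × Fin (C * n) =>
          w ∈ (({i.2.1} : Finset (Fin q)) ×ˢ i.2.2.2))).card = n := by
        rw [filter_mem_eq_inter, univ_inter, card_product, card_singleton, one_mul]
        exact hg.2
      have hf2 : (univ.filter (fun w : Fin q × Fin (C * n) =>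
          ¬ w ∈ (({i.2.1} : Finset (Fin q)) ×ˢ i.2.2.2))).card = q * (C * n) - n := by
        have := card_filter_add_card_filter_not (s := (univ : Finset (Fin q × Fin (C * n))))
          (fun w => w ∈ (({i.2.1} : Finset (Fin q)) ×ˢ i.2.2.2))
        rw [hf1] at this
        simp only [card_univ, Fintype.card_prod, Fintype.card_fin] at this
        omega
      rw [hf1, hf2]
      have hle : n ≤ q * (C * n) := by
        have h2 := card_filter_add_card_filter_not (s := (univ : Finset (Fin q × Fin (C * n))))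
          (fun w => w ∈ (({i.2.1} : Finset (Fin q)) ×ˢ i.2.2.2))
        rw [hf1] at h2
        simp only [card_univ, Fintype.card_prod, Fintype.card_fin] at h2
        omega
      have hS := card_avoid_le (X := X) i.1 M i.2.2.1 hg.1
      have hS' : ((Sf i).card : ℝ) ≤ ((1 / 2) ^ (C + 1)) * (k : ℝ) ^ (Fintype.card X) :=
        hS.trans (mul_le_mul_of_nonneg_right hM (by positivity))
      push_cast
      calc ((Sf i).card : ℝ) ^ n * ((k : ℝ) ^ (Fintype.card X)) ^ (q * (C * n) - n)
          ≤ (((1 / 2) ^ (C + 1)) * (k : ℝ) ^ (Fintype.card X)) ^ n *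
            ((k : ℝ) ^ (Fintype.card X)) ^ (q * (C * n) - n) := by
            apply mul_le_mul_of_nonneg_right _ (by positivity)
            exact pow_le_pow_left₀ (Nat.cast_nonneg _) hS' n
        _ = ((1 / 2) ^ (C + 1)) ^ n * (((k : ℝ) ^ (Fintype.card X)) ^ n *
            ((k : ℝ) ^ (Fintype.card X)) ^ (q * (C * n) - n)) := by
            rw [mul_pow]; ring
        _ = ((1 / 2) ^ (C + 1)) ^ n * ((k : ℝ) ^ (Fintype.card X)) ^ (q * (C * n)) := by
            rw [← pow_add]
            congr 2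
            omega
    · simp only [bad]
      rw [if_neg hg]
      simp only [card_empty, Nat.cast_zero]
      positivity
  have hcount : ((univ : Finset ((Fin q × Fin (C * n)) → X → Fin k)).card : ℝ) ≤
      ((univ : Finset I).card : ℝ) *
        (((1 / 2) ^ (C + 1)) ^ n * ((k : ℝ) ^ (Fintype.card X)) ^ (q * (C * n))) := by
    calc ((univ : Finset ((Fin q × Fin (C * n)) → X → Fin k)).card : ℝ)
        ≤ (((univ : Finset I).biUnion bad).card : ℝ) := by
          exact_mod_cast card_le_card hcover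
      _ ≤ ((∑ i : I, (bad i).card : ℕ) : ℝ) := by
          exact_mod_cast card_biUnion_le
      _ = ∑ i : I, ((bad i).card : ℝ) := by push_cast; rfl
      _ ≤ ∑ _i : I, (((1 / 2) ^ (C + 1)) ^ n * ((k : ℝ) ^ (Fintype.card X)) ^ (q * (C * n))) :=
          Finset.sum_le_sum (fun i _ => hbad i)
      _ = _ := by
          rw [sum_const, nsmul_eq_mul]
  have hI : ((univ : Finset I).card : ℝ) =
      k * q * (Fintype.card X : ℝ) ^ (M * D) * 2 ^ (C * n) := by
    have : (univ : Finset I).card = k * (q * (((Fintype.card X) ^ D) ^ M * 2 ^ (C * n))) := by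
      simp [I, Fintype.card_prod, Fintype.card_finset, card_univ]
    rw [this]
    push_cast
    rw [← pow_mul, mul_comm D M]
    ring
  have hU : ((univ : Finset ((Fin q × Fin (C * n)) → X → Fin k)).card : ℝ) =
      ((k : ℝ) ^ (Fintype.card X)) ^ (q * (C * n)) := by
    simp [card_univ]
  rw [hI, hU] at hcount
  have hpos : (0 : ℝ) < ((k : ℝ) ^ (Fintype.card X)) ^ (q * (C * n)) := by positivity
  have h1 : (1 : ℝ) ≤ k * q * (Fintype.card X : ℝ) ^ (M * D) * 2 ^ (C * n) * ((1 / 2) ^ (C + 1)) ^ n := by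
    by_contra hlt
    push Not at hlt
    have : k * q * (Fintype.card X : ℝ) ^ (M * D) * 2 ^ (C * n) * ((1 / 2) ^ (C + 1)) ^ n *
        ((k : ℝ) ^ (Fintype.card X)) ^ (q * (C * n)) <
        1 * ((k : ℝ) ^ (Fintype.card X)) ^ (q * (C * n)) :=
      mul_lt_mul_of_pos_right hlt hpos
    rw [one_mul] at this
    have h3 : k * q * (Fintype.card X : ℝ) ^ (M * D) * 2 ^ (C * n) * ((1 / 2) ^ (C + 1)) ^ n *
        ((k : ℝ) ^ (Fintype.card X)) ^ (q * (C * n)) =
        k * q * (Fintype.card X : ℝ) ^ (M * D) * 2 ^ (C * n) *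
        (((1 / 2) ^ (C + 1)) ^ n * ((k : ℝ) ^ (Fintype.card X)) ^ (q * (C * n))) := by ring
    rw [h3] at this
    exact absurd hcount (not_le.2 this)
  have h2 : (2 : ℝ) ^ (C * n) * ((1 / 2) ^ (C + 1)) ^ n = 1 / 2 ^ n := by
    have h20 : (2 : ℝ) ^ C * (1 / 2) ^ (C + 1) = 1 / 2 := by
      rw [pow_succ, ← mul_assoc, ← mul_pow]
      norm_num
    rw [pow_mul, ← mul_pow, h20, div_pow, one_pow]
  have h4 : (k * q * (Fintype.card X) ^ (M * D) : ℝ) < 2 ^ n := by exact_mod_cast hbig
  have h5 : k * q * (Fintype.card X : ℝ) ^ (M * D) * 2 ^ (C * n) * ((1 / 2) ^ (C + 1)) ^ n =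
      k * q * (Fintype.card X : ℝ) ^ (M * D) / 2 ^ n := by
    rw [mul_assoc, h2]
    ring
  rw [h5, le_div_iff₀ (by positivity), one_mul] at h1
  linarith

end Pool.Agent.H79.SR
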