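import Pool.Graph.R_seed8.Helper539.General

namespace Pool.Agent.H79.SR

open Finset Pool.Agent.Helper539

theorem host_robust_gen {V : Type*} [Fintype V] [DecidableEq V] (G : SimpleGraph V)
    [DecidableRel G.Adj] {H q k D M Δ n N t : ℕ}
    (c : (Fin q × Fin N) → (Fin H ⊕ (Fin q × Fin N)) → Fin k) (κ : Fin k)
    (hP : ∀ (j : Fin q) (a : Fin M → Fin D → (Fin H ⊕ (Fin q × Fin N))),
      (∀ l l', l ≠ l' → ∀ d d', a l d ≠ a l' d') →
      (univ.filter (fun b : Fin N => ∀ l, ∃ d, c (j, b) (a l d) ≠ κ)).card < n)
    (col : V → Fin q)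
    (hcol : ∀ u v, G.Adj u v → G.degree u ≤ D → G.degree v ≤ D → col u ≠ col v)
    (hΔ : ∀ v, G.degree v ≤ Δ) (hN : 0 < N) (allowed : Fin q → Finset (Fin N))
    (hcap : ∀ j, (univ.filter (fun v => ¬ D < G.degree v ∧ col v = j)).card + n +
      (2 * t + q * (M * D)) ≤ (allowed j).card)
    (hHi : (univ.filter (fun v => D < G.degree v)).card + 2 * t + q * (M * D) ≤ H)
    (hA3 : ∀ j, n + M * (M * (D * Δ + 1) + q * (M * D)) + 2 * t ≤ (allowed j).card)
    (hA4 : ∀ j, M * (D * Δ + 1) + (2 * t + q * (M * D)) ≤ (allowed j).card)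
    (S : Finset (Fin H ⊕ (Fin q × Fin N))) (hS : S.card ≤ 2 * t) :
    ∃ φ : V → (Fin H ⊕ (Fin q × Fin N)), Function.Injective φ ∧ (∀ v, φ v ∉ S) ∧
      (∀ u v, G.Adj u v → (host c κ).Adj (φ u) (φ v)) ∧
      (∀ v, D < G.degree v → ∃ a, φ v = Sum.inl a) ∧
      (∀ v, ¬ D < G.degree v → ∃ b ∈ allowed (col v), φ v = Sum.inr (col v, b)) := by
  classical
  by_cases hV : Nonempty V
  swap
  · rw [not_nonempty_iff] at hV
    exact ⟨fun v => isEmptyElim v, fun v => isEmptyElim v, fun v => isEmptyElim v,
      fun v => isEmptyElim v, fun v => isEmptyElim v, fun v => isEmptyElim v⟩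
  have hVpos : 0 < Fintype.card V := Fintype.card_pos
  have hnpos : 0 < N := hN
  -- the sets removed from one class
  have hclass : ∀ (j : Fin q) (R : Finset (Fin H ⊕ (Fin q × Fin N))),
      (univ.filter (fun b : Fin N => (Sum.inr (j, b) : Fin H ⊕ (Fin q × Fin N)) ∈ R)).card
        ≤ R.card := by
    intro j R
    refine card_le_card_of_injOn (fun b => Sum.inr (j, b)) ?_ ?_
    · intro b hb
      simpa using hb
    · intro b _ b' _ h
      simpa using h
  have hlive : ∀ (j : Fin q) (R : Finset (Fin H ⊕ (Fin q × Fin N))),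
      (allowed j).card ≤ ((allowed j).filter (fun b : Fin N =>
        (Sum.inr (j, b) : Fin H ⊕ (Fin q × Fin N)) ∉ R)).card + R.card := by
    intro j R
    have h1 := card_filter_add_card_filter_not (s := allowed j)
      (fun b => (Sum.inr (j, b) : Fin H ⊕ (Fin q × Fin N)) ∈ R)
    have h2 := hclass j R
    have h3 : ((allowed j).filter (fun b : Fin N =>
        (Sum.inr (j, b) : Fin H ⊕ (Fin q × Fin N)) ∈ R)).card ≤
        (univ.filter (fun b : Fin N =>
        (Sum.inr (j, b) : Fin H ⊕ (Fin q × Fin N)) ∈ R)).card :=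
      card_le_card (filter_subset_filter _ (subset_univ _))
    omega
  -- hitting sets
  have hZex : ∀ j : Fin q, ∃ Z : Finset (Fin H ⊕ (Fin q × Fin N)), Z.card ≤ M * D ∧
      ∀ A : Finset (Fin H ⊕ (Fin q × Fin N)), A.Nonempty → A.card ≤ D →
      (((allowed j).filter (fun b : Fin N =>
        (Sum.inr (j, b) : Fin H ⊕ (Fin q × Fin N)) ∉ S)).filter
          (fun b => ∀ x ∈ A, c (j, b) x = κ)).card < M * (D * Δ + 1) + q * (M * D) →
        ¬ Disjoint A Z := by
    intro j
    refine exists_hitting (hP j) _ _ ?_
    have := hlive j S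
    have := hA3 j
    omega
  choose Z hZcard hZ using hZex
  let ZZ : Finset (Fin H ⊕ (Fin q × Fin N)) := univ.biUnion Z
  have hZZ : ZZ.card ≤ q * (M * D) := by
    refine (card_biUnion_le_card_mul _ _ (M * D) (fun j _ => hZcard j)).trans ?_
    simp
  have hZsub : ∀ j, Z j ⊆ ZZ := fun j => subset_biUnion_of_mem Z (mem_univ j)
  have hSZ : (S ∪ ZZ).card ≤ 2 * t + q * (M * D) := (card_union_le _ _).trans (by omega)
  -- high degree vertices
  obtain ⟨h, hinj, hh⟩ : ∃ h : {v // D < G.degree v} → Fin H, Function.Injective h ∧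
      ∀ v, (Sum.inl (h v) : Fin H ⊕ (Fin q × Fin N)) ∉ S ∪ ZZ := by
    let av : Finset (Fin H) := univ.filter (fun a =>
      (Sum.inl a : Fin H ⊕ (Fin q × Fin N)) ∉ S ∪ ZZ)
    have hav : H ≤ av.card + (S ∪ ZZ).card := by
      have h1 := card_filter_add_card_filter_not (s := (univ : Finset (Fin H)))
        (fun a => (Sum.inl a : Fin H ⊕ (Fin q × Fin N)) ∈ S ∪ ZZ)
      have h2 : (univ.filter (fun a : Fin H =>
          (Sum.inl a : Fin H ⊕ (Fin q × Fin N)) ∈ S ∪ ZZ)).card ≤ (S ∪ ZZ).card := by
        refine card_le_card_of_injOn (fun b => Sum.inl b) ?_ ?_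
        · intro b hb
          simpa using hb
        · intro b _ b' _ h
          simpa using h
      rw [card_univ, Fintype.card_fin] at h1
      simp only [av]
      omega
    have hcard : Fintype.card {v // D < G.degree v} ≤ Fintype.card av := by
      rw [Fintype.card_subtype, Fintype.card_coe]
      omega
    obtain ⟨e⟩ := Function.Embedding.nonempty_of_card_le hcard
    refine ⟨fun v => (e v : Fin H), fun u v huv => e.injective (Subtype.ext huv), fun v => ?_⟩
    have := (e v).2
    simp only [av, mem_filter] at this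
    exact this.2
  let Φ : (V → Fin N) → V → (Fin H ⊕ (Fin q × Fin N)) := fun f v =>
    if hv : D < G.degree v then Sum.inl (h ⟨v, hv⟩) else Sum.inr (col v, f v)
  have hΦhi : ∀ f v (hv : D < G.degree v), Φ f v = Sum.inl (h ⟨v, hv⟩) := by
    intro f v hv
    simp only [Φ, dif_pos hv]
  have hΦlo : ∀ f v, ¬ D < G.degree v → Φ f v = Sum.inr (col v, f v) := by
    intro f v hv
    simp only [Φ, dif_neg hv]
  -- main induction
  have main : ∀ j : ℕ, j ≤ q → ∃ f : V → Fin N,
      (∀ v, ¬ D < G.degree v → (col v).1 < j →
        (Sum.inr (col v, f v) : Fin H ⊕ (Fin q × Fin N)) ∉ S ∪ ZZ ∧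
          f v ∈ allowed (col v)) ∧
      (∀ u v, ¬ D < G.degree u → ¬ D < G.degree v → col u = col v → (col v).1 < j →
        f u = f v → u = v) ∧
      (∀ v, ¬ D < G.degree v → (col v).1 < j → ∀ u, G.Adj v u →
        (D < G.degree u ∨ col u < col v) → c (col v, f v) (Φ f u) = κ) := by
    intro j
    induction j with
    | zero =>
      intro _
      refine ⟨fun _ => ⟨0, hnpos⟩, ?_, ?_, ?_⟩
      · intro v _ hv
        exact absurd hv (Nat.not_lt_zero _)
      · intro u v _ _ _ hv
        exact absurd hv (Nat.not_lt_zero _)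
      · intro v _ hv
        exact absurd hv (Nat.not_lt_zero _)
    | succ j ih =>
      intro hj
      obtain ⟨f, hf1, hf2, hf3⟩ := ih (by omega)
      let jj : Fin q := ⟨j, by omega⟩
      let I : Finset V := univ.filter (fun v => ¬ D < G.degree v ∧ col v = jj)
      let A : V → Finset (Fin H ⊕ (Fin q × Fin N)) := fun v =>
        ((G.neighborFinset v).filter (fun u => D < G.degree u ∨ col u < jj)).image (Φ f)
      let live : Finset (Fin N) := (allowed jj).filter (fun b : Fin N =>
        (Sum.inr (jj, b) : Fin H ⊕ (Fin q × Fin N)) ∉ S ∪ ZZ)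
      have hlive2 : I.card + n ≤ live.card := by
        have h1 := hlive jj (S ∪ ZZ)
        have h2 := hcap jj
        simp only [live, I]
        omega
      have hlive4 : M * (D * Δ + 1) ≤ live.card := by
        have h1 := hlive jj (S ∪ ZZ)
        have h2 := hA4 jj
        simp only [live]
        omega
      -- injectivity on placed vertices
      have hplaced : ∀ u u', (D < G.degree u ∨ col u < jj) → (D < G.degree u' ∨ col u' < jj) →
          Φ f u = Φ f u' → u = u' := by
        intro u u' hu hu' heq
        by_cases h1 : D < G.degree u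
        · by_cases h2 : D < G.degree u'
          · rw [hΦhi f u h1, hΦhi f u' h2] at heq
            have := hinj (Sum.inl_injective heq)
            exact congrArg Subtype.val this
          · rw [hΦhi f u h1, hΦlo f u' h2] at heq
            exact absurd heq (by simp)
        · by_cases h2 : D < G.degree u'
          · rw [hΦlo f u h1, hΦhi f u' h2] at heq
            exact absurd heq (by simp)
          · rw [hΦlo f u h1, hΦlo f u' h2] at heq
            have h3 := Sum.inr_injective heq
            simp only [Prod.mk.injEq] at h3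
            rcases hu' with hu' | hu'
            · exact absurd hu' h2
            · exact hf2 u u' h1 h2 h3.1 hu' h3.2
      have hplacedSZ : ∀ u, (D < G.degree u ∨ col u < jj) → Φ f u ∉ S ∪ ZZ := by
        intro u hu
        by_cases h1 : D < G.degree u
        · rw [hΦhi f u h1]
          exact hh _
        · rcases hu with hu | hu
          · exact absurd hu h1
          · rw [hΦlo f u h1]
            exact (hf1 u h1 hu).1
      have hAD : ∀ v ∈ I, (A v).card ≤ D := by
        intro v hv
        simp only [I, mem_filter, mem_univ, true_and] at hv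
        refine card_image_le.trans ((card_filter_le _ _).trans ?_)
        rw [SimpleGraph.card_neighborFinset_eq_degree]
        omega
      have hA1 : ∀ v ∈ I, M * (D * Δ + 1) ≤
          (live.filter (fun b => ∀ x ∈ A v, c (jj, b) x = κ)).card := by
        intro v hv
        by_cases hAe : A v = ∅
        · have : live.filter (fun b => ∀ x ∈ A v, c (jj, b) x = κ) = live := by
            apply filter_true_of_mem
            intro b _ x hx
            rw [hAe] at hx
            exact absurd hx (notMem_empty x)
          rw [this]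
          exact hlive4
        · have hdisj : Disjoint (A v) (Z jj) := by
            rw [Finset.disjoint_left]
            intro x hx hxZ
            simp only [A, mem_image, mem_filter] at hx
            obtain ⟨u, ⟨_, hu⟩, rfl⟩ := hx
            exact hplacedSZ u hu (mem_union_right _ (hZsub jj hxZ))
          have h1 : ¬ (((allowed jj).filter (fun b : Fin N =>
              (Sum.inr (jj, b) : Fin H ⊕ (Fin q × Fin N)) ∉ S)).filter
              (fun b => ∀ x ∈ A v, c (jj, b) x = κ)).card < M * (D * Δ + 1) + q * (M * D) :=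
            fun hlt => hZ jj (A v) (Finset.nonempty_iff_ne_empty.2 hAe) (hAD v hv) hlt hdisj
          have h2 : ((allowed jj).filter (fun b : Fin N =>
              (Sum.inr (jj, b) : Fin H ⊕ (Fin q × Fin N)) ∉ S)).filter
              (fun b => ∀ x ∈ A v, c (jj, b) x = κ) ⊆
              (live.filter (fun b => ∀ x ∈ A v, c (jj, b) x = κ)) ∪
              (univ.filter (fun b : Fin N =>
                (Sum.inr (jj, b) : Fin H ⊕ (Fin q × Fin N)) ∈ ZZ)) := by
            intro b hb
            simp only [mem_filter, mem_univ, true_and, mem_union, live] at hb ⊢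
            by_cases hbZ : (Sum.inr (jj, b) : Fin H ⊕ (Fin q × Fin N)) ∈ ZZ
            · exact Or.inr hbZ
            · exact Or.inl ⟨⟨hb.1.1, by rintro (h | h); exacts [hb.1.2 h, hbZ h]⟩, hb.2⟩
          have h3 := (card_le_card h2).trans (card_union_le _ _)
          have h4 := hclass jj ZZ
          omega
      have hfar : ∀ T ⊆ I, M * (D * Δ + 1) ≤ T.card → ∃ s : Fin M → V, (∀ l, s l ∈ T) ∧
          ∀ l l', l ≠ l' → Disjoint (A (s l)) (A (s l')) := by
        intro T hT hTc
        obtain ⟨s, hsT, hs⟩ := exists_far G hΔ T (fun v hv => by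
          have := hT hv
          simp only [I, mem_filter, mem_univ, true_and] at this
          omega) M hTc
        refine ⟨s, hsT, fun l l' hll' => ?_⟩
        rw [Finset.disjoint_left]
        intro x hx hx'
        simp only [A, mem_image, mem_filter, SimpleGraph.mem_neighborFinset] at hx hx'
        obtain ⟨u, ⟨hu1, hu2⟩, rfl⟩ := hx
        obtain ⟨u', ⟨hu1', hu2'⟩, heq⟩ := hx'
        have := hplaced u' u hu2' hu2 heq
        subst this
        exact hs l l' hll' _ ⟨hu1, hu1'⟩
      obtain ⟨g, hginj, hg⟩ := hall_step (cj := fun b x => c (jj, b) x) (hP jj) I A live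
        (M * (D * Δ + 1)) hlive2 hA1 hAD hfar
      let f' : V → Fin N := fun v => if hv : v ∈ I then g ⟨v, hv⟩ else f v
      have hf'I : ∀ v (hv : v ∈ I), f' v = g ⟨v, hv⟩ := fun v hv => by simp only [f', dif_pos hv]
      have hf'n : ∀ v, v ∉ I → f' v = f v := fun v hv => by simp only [f', dif_neg hv]
      have hmemI : ∀ v, v ∈ I ↔ ¬ D < G.degree v ∧ col v = jj := fun v => by
        simp only [I, mem_filter, mem_univ, true_and]
      have hΦ' : ∀ u, (D < G.degree u ∨ col u < jj) → Φ f' u = Φ f u := by
        intro u hu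
        by_cases h1 : D < G.degree u
        · rw [hΦhi f' u h1, hΦhi f u h1]
        · rcases hu with hu | hu
          · exact absurd hu h1
          · rw [hΦlo f' u h1, hΦlo f u h1, hf'n]
            rw [hmemI]
            rintro ⟨_, h3⟩
            rw [h3] at hu
            exact lt_irrefl _ hu
      refine ⟨f', ?_, ?_, ?_⟩
      · intro v hv hvj
        by_cases hvI : v ∈ I
        · rw [hf'I v hvI]
          have := hg ⟨v, hvI⟩
          simp only [live, mem_filter] at this
          rw [((hmemI v).1 hvI).2]
          exact ⟨this.1.2, this.1.1⟩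
        · rw [hf'n v hvI]
          apply hf1 v hv
          have : (col v).1 ≠ j := fun h => hvI ((hmemI v).2 ⟨hv, Fin.ext h⟩)
          omega
      · intro u v hu hv huv hvj heq
        by_cases hvI : v ∈ I
        · have huI : u ∈ I := (hmemI u).2 ⟨hu, huv.trans ((hmemI v).1 hvI).2⟩
          rw [hf'I v hvI, hf'I u huI] at heq
          exact congrArg Subtype.val (hginj heq)
        · have huI : u ∉ I := fun h => hvI ((hmemI v).2 ⟨hv, huv.symm.trans ((hmemI u).1 h).2⟩)
          rw [hf'n v hvI, hf'n u huI] at heq
          apply hf2 u v hu hv huv _ heq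
          have : (col v).1 ≠ j := fun h => hvI ((hmemI v).2 ⟨hv, Fin.ext h⟩)
          omega
      · intro v hv hvj u hvu hu
        by_cases hvI : v ∈ I
        · have hcv : col v = jj := ((hmemI v).1 hvI).2
          rw [hcv] at hu ⊢
          rw [hΦ' u hu, hf'I v hvI]
          have := hg ⟨v, hvI⟩
          simp only [mem_filter] at this
          apply this.2
          simp only [A, mem_image, mem_filter, SimpleGraph.mem_neighborFinset]
          exact ⟨u, ⟨hvu, hu⟩, rfl⟩
        · have hvj' : (col v).1 < j := by
            have : (col v).1 ≠ j := fun h => hvI ((hmemI v).2 ⟨hv, Fin.ext h⟩)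
            omega
          rw [hf'n v hvI, hΦ' u]
          · exact hf3 v hv hvj' u hvu hu
          · rcases hu with hu | hu
            · exact Or.inl hu
            · right
              exact lt_trans hu (by exact hvj')
  obtain ⟨f, hf1, hf2, hf3⟩ := main q le_rfl
  refine ⟨Φ f, ?_, ?_, ?_, fun v hv => ⟨_, hΦhi f v hv⟩,
    fun v hv => ⟨f v, (hf1 v hv (col v).2).2, hΦlo f v hv⟩⟩
  · intro u v huv
    by_cases h1 : D < G.degree u
    · by_cases h2 : D < G.degree v
      · rw [hΦhi f u h1, hΦhi f v h2] at huv
        have := hinj (Sum.inl_injective huv)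
        exact congrArg Subtype.val this
      · rw [hΦhi f u h1, hΦlo f v h2] at huv
        exact absurd huv (by simp)
    · by_cases h2 : D < G.degree v
      · rw [hΦlo f u h1, hΦhi f v h2] at huv
        exact absurd huv (by simp)
      · rw [hΦlo f u h1, hΦlo f v h2] at huv
        have h3 := Sum.inr_injective huv
        simp only [Prod.mk.injEq] at h3
        exact hf2 u v h1 h2 h3.1 (col v).2 h3.2
  · intro v hvS
    by_cases h1 : D < G.degree v
    · rw [hΦhi f v h1] at hvS
      exact hh _ (mem_union_left _ hvS)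
    · rw [hΦlo f v h1] at hvS
      exact (hf1 v h1 (col v).2).1 (mem_union_left _ hvS)
  · intro u v huv
    by_cases h1 : D < G.degree u
    · by_cases h2 : D < G.degree v
      · rw [hΦhi f u h1, hΦhi f v h2]
        intro heq
        have := hinj heq
        exact huv.ne (congrArg Subtype.val this)
      · have := hf3 v h2 (col v).2 u huv.symm (Or.inl h1)
        rw [hΦhi f u h1] at this
        rw [hΦhi f u h1, hΦlo f v h2]
        exact this
    · by_cases h2 : D < G.degree v
      · have := hf3 u h1 (col u).2 v huv (Or.inl h2)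
        rw [hΦhi f v h2] at this
        rw [hΦlo f u h1, hΦhi f v h2]
        exact this
      · have hne := hcol u v huv (not_lt.1 h1) (not_lt.1 h2)
        rcases lt_or_gt_of_ne hne with hlt | hlt
        · have := hf3 v h2 (col v).2 u huv.symm (Or.inr hlt)
          rw [hΦlo f u h1] at this
          rw [hΦlo f u h1, hΦlo f v h2]
          exact Or.inl ⟨hlt, this⟩
        · have := hf3 u h1 (col u).2 v huv (Or.inr hlt)
          rw [hΦlo f v h2] at this
          rw [hΦlo f u h1, hΦlo f v h2]
          exact Or.inr ⟨hlt, this⟩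

end Pool.Agent.H79.SR
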