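import Pool.Agent.H79.SR.Emb
import Pool.Agent.H79.SR.Rob
import Pool.Agent.H79.SR.Rand

namespace Pool.Agent.H79.SR

open Finset SimpleGraph Pool.Agent.Helper539

universe u

/-- sets of vertices of classes with prescribed cardinalities. -/
theorem exists_allowed {q N : ℕ} (cap : Fin q → ℕ) (h : ∀ j, cap j ≤ N) :
    ∃ allowed : Fin q → Finset (Fin N), ∀ j, (allowed j).card = cap j := by
  have : ∀ j, ∃ s : Finset (Fin N), s.card = cap j := by
    intro j
    obtain ⟨s, -, hs⟩ := Finset.exists_subset_card_eq (s := (univ : Finset (Fin N)))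
      (n := cap j) (by simpa using h j)
    exact ⟨s, hs⟩
  choose f hf using this
  exact ⟨f, hf⟩

/-- the arithmetic of the parameters. -/
theorem arith (w q D C k A t m x H E b l U Wc h L : ℕ)
    (hw : 1 ≤ w) (hq : q = 2 * (D + 1)) (hD : D = 2048 * w * w) (hk : k = 64 * q * w * w * C * (C + 1))
    (hC : C = 2 + 16 * q * w)
    (hA : A = 32 * q * w) (hAt : A * t ≤ m) (hAt' : m ≤ 2 * (A * t)) (hx : D * x ≤ 2 * m)
    (hH : H = x + 3 * t) (hE : k * E ≤ (C * m) * ((C + 1) * m)) (hb : 7 * w * b ≤ t)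
    (hl : l ≤ m) (hU : U ≤ 2 * m) (hW : Wc ≤ H + (U + 16 * t * q)) (hh : h = t + b)
    (hL : L = l + 2 * t) :
    w * (h * (L + Wc) + (H * H + E)) ≤ w * t * (l + U) + 8 * t * m := by
  have hq2 : 1 ≤ q := by omega
  have hA1 : 32 * (q * w * t) ≤ m := by
    have : 32 * (q * w * t) = A * t := by rw [hA]; ring
    omega
  have hqt : q * w * t ≤ m := by omega
  have hwt : 32 * (w * t) ≤ m := by
    have : w * t ≤ q * (w * t) := Nat.le_mul_of_pos_left _ hq2
    have h2 : q * (w * t) = q * w * t := by ring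
    omega
  have htm : t ≤ m := by nlinarith
  -- the term with `x`
  have hwx : 1024 * (w * (w * x)) ≤ m := by
    have h1 : D * x = 2 * (1024 * (w * (w * x))) := by rw [hD]; ring
    omega
  have hwx1 : w * x ≤ m := by
    have : w * x ≤ w * (w * x) := Nat.le_mul_of_pos_left _ hw
    omega
  -- E
  have hCpos : 0 < C := by omega
  have hE' : w * E ≤ m * t := by
    have h1 : k * E ≤ (C * (C + 1)) * (m * (2 * (A * t))) := by
      calc k * E ≤ (C * m) * ((C + 1) * m) := hE
        _ = (C * (C + 1)) * (m * m) := by ring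
        _ ≤ (C * (C + 1)) * (m * (2 * (A * t))) :=
          Nat.mul_le_mul_left _ (Nat.mul_le_mul_left _ hAt')
    have h2 : k * E = (64 * q * w * C * (C + 1)) * (w * E) := by rw [hk]; ring
    have h3 : (C * (C + 1)) * (m * (2 * (A * t))) = (64 * q * w * C * (C + 1)) * (m * t) := by
      rw [hA]; ring
    rw [h2, h3] at h1
    exact Nat.le_of_mul_le_mul_left h1 (by positivity)
  -- x ^ 2
  have hx2 : 2 * (w * (x * x)) ≤ m * t := by
    have h1 : (D * x) * (D * x) ≤ (2 * m) * (2 * m) := Nat.mul_le_mul hx hx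
    have h2 : (2 * m) * (2 * m) ≤ 4 * (m * (2 * (A * t))) := by
      have : m * m ≤ m * (2 * (A * t)) := Nat.mul_le_mul_left _ hAt'
      nlinarith
    have h3 : 4 * (m * (2 * (A * t))) = 256 * q * w * (m * t) := by rw [hA]; ring
    have hqD : q ≤ 4 * D := by
      have : 1 ≤ D := by rw [hD]; exact Nat.one_le_iff_ne_zero.2 (by positivity)
      omega
    have h4 : 256 * q * w * (m * t) ≤ 1024 * D * w * (m * t) := by
      apply Nat.mul_le_mul_right
      apply Nat.mul_le_mul_right
      omega
    have hDpos : 0 < D := by rw [hD]; positivity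
    have h5 : D * (D * (x * x)) ≤ D * (1024 * w * (m * t)) := by
      calc D * (D * (x * x)) = (D * x) * (D * x) := by ring
        _ ≤ 1024 * D * w * (m * t) := by omega
        _ = D * (1024 * w * (m * t)) := by ring
    have h6 := Nat.le_of_mul_le_mul_left h5 hDpos
    have h7 : D * (x * x) = (1024 * w) * (2 * (w * (x * x))) := by rw [hD]; ring
    have h8 : 1024 * w * (m * t) = (1024 * w) * (m * t) := by ring
    rw [h7, h8] at h6
    exact Nat.le_of_mul_le_mul_left h6 (by positivity)
  have hHH : w * (H * H) ≤ 2 * (m * t) := by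
    have h1 : H * H ≤ 2 * (x * x) + 18 * (t * t) := by
      rw [hH]
      have : (x + 3 * t) * (x + 3 * t) ≤ 2 * (x * x) + 18 * (t * t) := by
        zify
        nlinarith [sq_nonneg ((x : ℤ) - 3 * t)]
      exact this
    have h2 : w * (18 * (t * t)) ≤ m * t := by
      calc w * (18 * (t * t)) = (18 * (w * t)) * t := by ring
        _ ≤ m * t := Nat.mul_le_mul_right _ (by omega)
    calc w * (H * H) ≤ w * (2 * (x * x) + 18 * (t * t)) := Nat.mul_le_mul_left _ h1
      _ = 2 * (w * (x * x)) + w * (18 * (t * t)) := by ring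
      _ ≤ m * t + m * t := Nat.add_le_add hx2 h2
      _ = 2 * (m * t) := by ring
  -- linear terms
  have hlin : w * (2 * t + (H + 16 * t * q)) ≤ 4 * m := by
    have h1 : w * (2 * t + (H + 16 * t * q)) = 5 * (w * t) + w * x + 16 * (q * w * t) := by
      rw [hH]; ring
    omega
  have hLW : w * (L + Wc) ≤ w * (l + U) + 4 * m := by
    calc w * (L + Wc) ≤ w * ((l + U) + (2 * t + (H + 16 * t * q))) :=
          Nat.mul_le_mul_left _ (by omega)
      _ = w * (l + U) + w * (2 * t + (H + 16 * t * q)) := by ring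
      _ ≤ w * (l + U) + 4 * m := by omega
  have hbt : b * (w * (l + U) + 4 * m) ≤ t * m := by
    have h1 : w * (l + U) + 4 * m ≤ 7 * w * m := by
      have h2 : w * (l + U) ≤ w * (3 * m) := Nat.mul_le_mul_left _ (by omega)
      have h3 : 4 * m ≤ 4 * (w * m) := Nat.mul_le_mul_left _ (Nat.le_mul_of_pos_left _ hw)
      have h4 : w * (3 * m) + 4 * (w * m) = 7 * w * m := by ring
      omega
    calc b * (w * (l + U) + 4 * m) ≤ b * (7 * w * m) := Nat.mul_le_mul_left _ h1
      _ = (7 * w * b) * m := by ring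
      _ ≤ t * m := Nat.mul_le_mul_right _ hb
  calc w * (h * (L + Wc) + (H * H + E))
      = h * (w * (L + Wc)) + (w * (H * H) + w * E) := by ring
    _ ≤ h * (w * (l + U) + 4 * m) + (2 * (m * t) + m * t) := by
        have := Nat.mul_le_mul_left h hLW
        omega
    _ = t * (w * (l + U)) + 4 * (t * m) + b * (w * (l + U) + 4 * m) + 3 * (m * t) := by
        rw [hh]; ring
    _ ≤ t * (w * (l + U)) + 4 * (t * m) + t * m + 3 * (m * t) := by omega
    _ = w * t * (l + U) + 8 * t * m := by ring

end Pool.Agent.H79.SR
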