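import Pool.Agent.H79.SR.Multi

/-!
# Size Ramsey numbers of a graph versus large matchings: a condition for all sequences

Question 2 asks for all sequences `(G n)` for which the limit ratios `ρ n` of
`r̂(G n, t K₂) / (t |E(G n)|)` tend to `1`.

For all sequences of graphs without isolated vertices, `ρ n` is, up to an arbitrarily small error
`δ`, at most the quotient total degree of the vertices of degree `> ε |E(G n)|` / number of edges,
where `ε > 0` depends on `δ`. So if `ρ n → 1`, then for every `δ > 0` there is `ε > 0` such that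
for all large `n` the vertices of degree `> ε |E(G n)|` (at most `2 / ε` many) have total degree
at least `(1 - δ) |E(G n)|`.
-/

namespace Pool.Agent.Results.MP_1cfd87_co.TotalDegree

open SimpleGraph Filter Topology Pool.Agent.Helper539 Pool.Agent.H79.SR

universe u

theorem result (V : ℕ → Type u) [∀ n, Fintype (V n)] (G : ∀ n, SimpleGraph (V n))
    [∀ n, DecidableRel (G n).Adj]
    (hedge : ∀ n, (G n).edgeSet.Nonempty)
    (hiso : ∀ n v, ∃ w, (G n).Adj v w) :
    ∃ ρ : ℕ → ℝ,
      (∀ n, Tendsto (fun t : ℕ =>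
        (sizeRamsey (G n) (matchingGraph t) : ℝ) / (t * (G n).edgeSet.ncard))
        atTop (𝓝 (ρ n))) ∧
      (∀ δ : ℝ, 0 < δ → ∃ ε : ℝ, 0 < ε ∧ ∀ n, ρ n ≤
        (∑ v ∈ Finset.univ.filter
          (fun v => ε * (G n).edgeSet.ncard < ((G n).degree v : ℝ)), ((G n).degree v : ℝ)) /
            (G n).edgeSet.ncard + δ) ∧
      (Tendsto ρ atTop (𝓝 1) → ∀ δ : ℝ, 0 < δ → ∃ ε : ℝ, 0 < ε ∧ ∀ᶠ n in atTop,
        ((Finset.univ.filter (fun v => ε * (G n).edgeSet.ncard < ((G n).degree v : ℝ))).card : ℝ)
          ≤ 2 / ε ∧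
        (1 - δ) * (G n).edgeSet.ncard ≤ ∑ v ∈ Finset.univ.filter
          (fun v => ε * (G n).edgeSet.ncard < ((G n).degree v : ℝ)), ((G n).degree v : ℝ)) := by
  classical
  choose ρ hρ hρ0 hρle using fun n => exists_limit (G n)
  have hm : ∀ n, (0 : ℝ) < (G n).edgeSet.ncard := by
    intro n
    have : 0 < (G n).edgeSet.ncard := (Set.ncard_pos (Set.toFinite _)).2 (hedge n)
    exact_mod_cast this
  have hbound : ∀ n (c : ℝ) (t : ℕ), 1 ≤ t →
      (sizeRamsey (G n) (matchingGraph t) : ℝ) ≤ t * (c * (G n).edgeSet.ncard) → ρ n ≤ c := by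
    intro n c t ht h
    refine (hρle n t (by omega)).trans ?_
    have ht0 : (0 : ℝ) < t := by exact_mod_cast ht
    rw [div_le_iff₀ (by have := hm n; positivity)]
    calc (sizeRamsey (G n) (matchingGraph t) : ℝ) ≤ t * (c * (G n).edgeSet.ncard) := h
      _ = c * (t * (G n).edgeSet.ncard) := by ring
  have hall : ∀ δ : ℝ, 0 < δ → ∃ ε : ℝ, 0 < ε ∧ ∀ n, ρ n ≤
        (∑ v ∈ Finset.univ.filter
          (fun v => ε * (G n).edgeSet.ncard < ((G n).degree v : ℝ)), ((G n).degree v : ℝ)) /
            (G n).edgeSet.ncard + δ := by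
    intro δ hδ
    obtain ⟨ε, hε, h⟩ := upper_all.{u} δ hδ
    refine ⟨ε, hε, fun n => ?_⟩
    obtain ⟨t, ht1, ht⟩ := h (V n) (G n) (hedge n) (hiso n)
    refine hbound n _ t ht1 (ht.trans (le_of_eq ?_))
    have := (hm n).ne'
    field_simp
  refine ⟨ρ, hρ, hall, ?_⟩
  intro h1 δ hδ
  obtain ⟨ε, hε, h⟩ := hall (δ / 2) (half_pos hδ)
  refine ⟨ε, hε, ?_⟩
  filter_upwards [(tendsto_order.1 h1).1 (1 - δ / 2) (by linarith)] with n hn
  constructor
  · have h2 : ((Finset.univ.filter
        (fun v => ε * (G n).edgeSet.ncard < ((G n).degree v : ℝ))).card : ℝ) *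
        (ε * (G n).edgeSet.ncard) ≤ 2 * (G n).edgeSet.ncard := by
      calc ((Finset.univ.filter
          (fun v => ε * (G n).edgeSet.ncard < ((G n).degree v : ℝ))).card : ℝ) *
          (ε * (G n).edgeSet.ncard)
          ≤ ∑ v ∈ Finset.univ.filter
            (fun v => ε * (G n).edgeSet.ncard < ((G n).degree v : ℝ)), ((G n).degree v : ℝ) := by
            rw [← nsmul_eq_mul]
            apply Finset.card_nsmul_le_sum
            intro v hv
            rw [Finset.mem_filter] at hv
            exact hv.2.le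
        _ ≤ ∑ v, ((G n).degree v : ℝ) :=
            Finset.sum_le_sum_of_subset_of_nonneg (Finset.subset_univ _)
              (fun _ _ _ => Nat.cast_nonneg _)
        _ = 2 * (G n).edgeSet.ncard := by
            have h3 := (G n).sum_degrees_eq_twice_card_edges
            have h4 : (G n).edgeFinset.card = (G n).edgeSet.ncard := by
              rw [← Set.ncard_coe_finset]
              simp
            rw [h4] at h3
            exact_mod_cast h3
    rw [le_div_iff₀ hε]
    have h3 : (((Finset.univ.filter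
        (fun v => ε * (G n).edgeSet.ncard < ((G n).degree v : ℝ))).card : ℝ) * ε) *
        (G n).edgeSet.ncard ≤ 2 * (G n).edgeSet.ncard := by linarith
    exact le_of_mul_le_mul_right h3 (hm n)
  · have h2 := h n
    have h3 : 1 - δ ≤ (∑ v ∈ Finset.univ.filter
          (fun v => ε * (G n).edgeSet.ncard < ((G n).degree v : ℝ)), ((G n).degree v : ℝ)) /
            (G n).edgeSet.ncard := by linarith
    rwa [le_div_iff₀ (hm n)] at h3

end Pool.Agent.Results.MP_1cfd87_co.TotalDegree
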