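import Pool.Agent.H79.SR.Cnt

namespace Pool.Agent.H79.SR

open Finset SimpleGraph Pool.Agent.Helper539

universe u

/-- the maximal number of leaves at a vertex of `B`. -/
noncomputable def maxLeaves {V : Type u} [Fintype V] [DecidableEq V] (G : SimpleGraph V)
    [DecidableRel G.Adj] (B : Finset V) : ℕ :=
  B.sup (fun u => ((leaves G B).filter (fun v => nbr G B v = u)).card)

/-- graphs without an edge joining two vertices of large degree: if no vertex covers almost all
edges, the limit is at most `1 - δ / 8`. -/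
theorem upper_indep (δ : ℝ) (hδ : 0 < δ) (hδ1 : δ ≤ 1) : ∃ ε : ℝ, 0 < ε ∧
    ∀ (V : Type u) [Fintype V] [DecidableEq V] (G : SimpleGraph V) [DecidableRel G.Adj],
      G.edgeSet.Nonempty → (∀ v, ∃ w, G.Adj v w) →
      (∀ u v, G.Adj u v → min (G.degree u : ℝ) (G.degree v) ≤ ε * G.edgeSet.ncard) →
      (∀ v, (G.degree v : ℝ) ≤ (1 - δ) * G.edgeSet.ncard) →
      ∃ t : ℕ, 1 ≤ t ∧ (sizeRamsey G (matchingGraph t) : ℝ) ≤
        t * ((1 - δ / 8) * G.edgeSet.ncard) := by
  obtain ⟨a, ha, ε, hε, -, h⟩ := basic.{u} (δ / 8) (by positivity)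
  refine ⟨ε, hε, ?_⟩
  intro V _ _ G _ hedge hiso hmin hmax
  classical
  have hm : 0 < G.edgeSet.ncard := (Set.ncard_pos (Set.toFinite _)).2 hedge
  have hmR : (0 : ℝ) < G.edgeSet.ncard := by exact_mod_cast hm
  have hiso' : ∀ v, 1 ≤ G.degree v := by
    intro v
    exact (G.degree_pos_iff_exists_adj v).2 (hiso v)
  let B : Finset V := univ.filter (fun v => G.edgeSet.ncard < a * G.degree v)
  have hl1 : (maxLeaves G B : ℝ) ≤ (1 - δ) * G.edgeSet.ncard := by
    by_cases hBe : B.Nonempty
    · obtain ⟨u, hu, hu2⟩ := Finset.exists_mem_eq_sup B hBe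
        (fun u => ((leaves G B).filter (fun v => nbr G B v = u)).card)
      have h1 : maxLeaves G B ≤ G.degree u := by
        simp only [maxLeaves]
        rw [hu2]
        exact leaves_at_le G B u
      have h2 : (maxLeaves G B : ℝ) ≤ G.degree u := by exact_mod_cast h1
      exact h2.trans (hmax u)
    · rw [Finset.not_nonempty_iff_eq_empty] at hBe
      have h1 : maxLeaves G B = 0 := by
        simp only [maxLeaves]
        rw [hBe]
        simp
      rw [h1]
      push_cast
      have : (0 : ℝ) ≤ 1 - δ := by linarith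
      positivity
  have hl2 : maxLeaves G B ≤ (leaves G B).card := by
    simp only [maxLeaves]
    apply Finset.sup_le
    intro u _
    exact card_filter_le _ _
  have hcount := count G B hiso'
  obtain ⟨t, ht1, ht⟩ := h V G hedge hiso hmin B (fun v => by simp [B]) (maxLeaves G B)
    (fun u hu => by
      simp only [maxLeaves]
      exact Finset.le_sup (f := fun u => ((leaves G B).filter (fun v => nbr G B v = u)).card) hu)
    (by
      have h1 : (maxLeaves G B : ℝ) ≤ G.edgeSet.ncard := by
        refine hl1.trans ?_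
        nlinarith
      exact_mod_cast h1)
  refine ⟨t, ht1, ht.trans ?_⟩
  apply mul_le_mul_of_nonneg_left _ (Nat.cast_nonneg _)
  have hcR : 2 * ((leaves G B).card : ℝ) + 3 * (rest G B).card ≤ 2 * G.edgeSet.ncard := by
    exact_mod_cast hcount
  have hl2R : (maxLeaves G B : ℝ) ≤ (leaves G B).card := by exact_mod_cast hl2
  by_cases hr : ((rest G B).card : ℝ) ≤ δ / 2 * G.edgeSet.ncard
  · nlinarith
  · push Not at hr
    nlinarith

/-- graphs with at most one vertex of large degree: the limit is at most the quotient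
maximum degree / number of edges, up to `δ`. -/
theorem upper_single (δ : ℝ) (hδ : 0 < δ) : ∃ ε : ℝ, 0 < ε ∧
    ∀ (V : Type u) [Fintype V] [DecidableEq V] (G : SimpleGraph V) [DecidableRel G.Adj],
      G.edgeSet.Nonempty → (∀ v, ∃ w, G.Adj v w) →
      (∀ u v, u ≠ v → min (G.degree u : ℝ) (G.degree v) ≤ ε * G.edgeSet.ncard) →
      ∃ t : ℕ, 1 ≤ t ∧ (sizeRamsey G (matchingGraph t) : ℝ) ≤
        t * ((G.maxDegree : ℝ) + δ * G.edgeSet.ncard) := by
  obtain ⟨a, ha, ε, hε, hεa, h⟩ := basic.{u} δ hδ
  refine ⟨ε, hε, ?_⟩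
  intro V _ _ G _ hedge hiso hmin
  classical
  have hm : 0 < G.edgeSet.ncard := (Set.ncard_pos (Set.toFinite _)).2 hedge
  have hmR : (0 : ℝ) < G.edgeSet.ncard := by exact_mod_cast hm
  have haR : (0 : ℝ) < a := by exact_mod_cast ha
  let B : Finset V := univ.filter (fun v => G.edgeSet.ncard < a * G.degree v)
  have hmemB : ∀ v, v ∈ B ↔ G.edgeSet.ncard < a * G.degree v := fun v => by simp [B]
  have hB1 : ∀ u ∈ B, ∀ v ∈ B, u = v := by
    intro u hu v hv
    by_contra hne
    rw [hmemB] at hu hv
    have h1 := hmin u v hne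
    have h2 : min (G.degree u : ℝ) (G.degree v) ≤ 1 / a * G.edgeSet.ncard :=
      h1.trans (mul_le_mul_of_nonneg_right hεa hmR.le)
    have hu' : (G.edgeSet.ncard : ℝ) < a * G.degree u := by exact_mod_cast hu
    have hv' : (G.edgeSet.ncard : ℝ) < a * G.degree v := by exact_mod_cast hv
    have h3 : (G.edgeSet.ncard : ℝ) / a < min (G.degree u : ℝ) (G.degree v) := by
      rw [lt_min_iff, div_lt_iff₀ haR, div_lt_iff₀ haR]
      exact ⟨by linarith, by linarith⟩
    rw [one_div, inv_mul_eq_div] at h2
    linarith
  have hl : maxLeaves G B + (rest G B).card ≤ G.maxDegree := by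
    by_cases hBe : B.Nonempty
    · obtain ⟨u, hu, hu2⟩ := Finset.exists_mem_eq_sup B hBe
        (fun u => ((leaves G B).filter (fun v => nbr G B v = u)).card)
      have h1 : maxLeaves G B ≤ (leaves G B).card := by
        simp only [maxLeaves]
        apply Finset.sup_le
        intro u _
        exact card_filter_le _ _
      have h2 : (leaves G B).card + (rest G B).card ≤ G.degree u := by
        rw [← card_union_of_disjoint (disj_leaves_rest G B),
          ← SimpleGraph.card_neighborFinset_eq_degree]
        apply card_le_card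
        intro v hv
        rw [SimpleGraph.mem_neighborFinset]
        rcases mem_union.1 hv with h | h
        · obtain ⟨u', hu', huv⟩ := ((mem_leaves G B).1 h).2.2
          rw [hB1 u hu u' hu']
          exact huv.symm
        · obtain ⟨u', hu', huv⟩ := ((mem_rest G B).1 h).2.2
          rw [hB1 u hu u' hu']
          exact huv
      have h3 := G.degree_le_maxDegree u
      omega
    · rw [Finset.not_nonempty_iff_eq_empty] at hBe
      have h1 : maxLeaves G B = 0 := by
        simp only [maxLeaves]
        rw [hBe]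
        simp
      have h2 : rest G B = ∅ := by
        rw [Finset.eq_empty_iff_forall_notMem]
        intro v hv
        obtain ⟨u, hu, -⟩ := ((mem_rest G B).1 hv).2.2
        rw [hBe] at hu
        exact notMem_empty _ hu
      rw [h1, h2]
      simp
  have hΔm : G.maxDegree ≤ G.edgeSet.ncard := by
    obtain ⟨e, he⟩ := hedge
    have hne : Nonempty V := by
      induction e using Sym2.ind with
      | _ x y => exact ⟨x⟩
    obtain ⟨v, hv⟩ := G.exists_maximal_degree_vertex
    rw [hv, ← SimpleGraph.card_incidenceFinset_eq_degree, ← Set.ncard_coe_finset]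
    apply Set.ncard_le_ncard _ (Set.toFinite _)
    intro e he
    rw [SimpleGraph.coe_incidenceFinset] at he
    exact he.1
  obtain ⟨t, ht1, ht⟩ := h V G hedge hiso (fun u v huv => hmin u v huv.ne) B hmemB
    (maxLeaves G B)
    (fun u hu => by
      simp only [maxLeaves]
      exact Finset.le_sup (f := fun u => ((leaves G B).filter (fun v => nbr G B v = u)).card) hu)
    (by omega)
  refine ⟨t, ht1, ht.trans ?_⟩
  apply mul_le_mul_of_nonneg_left _ (Nat.cast_nonneg _)
  have : (maxLeaves G B : ℝ) + (rest G B).card ≤ G.maxDegree := by exact_mod_cast hl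
  linarith

end Pool.Agent.H79.SR
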